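import Pool.Agent.NH44.SR.Geom

/-!
# The number of centers close to a point
-/

set_option autoImplicit false

open MeasureTheory Real Filter Topology Set Function
open Pool.Agent.Y291.DB (dl dl_pos dl_le dl_sq)

namespace Pool.Agent.NH44.SR

theorem coord_le {p q : ℝ × ℝ × ℝ} : |p.1 - q.1| ≤ ed p q ∧ |p.2.1 - q.2.1| ≤ ed p q ∧
    |p.2.2 - q.2.2| ≤ ed p q := by
  have h := ed_sq p q
  have h0 := ed_nonneg p q
  refine ⟨abs_le_of_sq_le_sq ?_ h0, abs_le_of_sq_le_sq ?_ h0, abs_le_of_sq_le_sq ?_ h0⟩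
  · nlinarith [sq_nonneg (p.2.1 - q.2.1), sq_nonneg (p.2.2 - q.2.2)]
  · nlinarith [sq_nonneg (p.1 - q.1), sq_nonneg (p.2.2 - q.2.2)]
  · nlinarith [sq_nonneg (p.1 - q.1), sq_nonneg (p.2.1 - q.2.1)]

theorem floor_close {a b η : ℝ} (hη : 0 < η) (h : ⌊a / η⌋ = ⌊b / η⌋) : |a - b| ≤ η := by
  have h1 := Int.floor_le (a / η)
  have h2 := Int.lt_floor_add_one (a / η)
  have h3 := Int.floor_le (b / η)
  have h4 := Int.lt_floor_add_one (b / η)
  rw [h] at h1 h2
  have h5 : |a / η - b / η| ≤ 1 := abs_le.2 ⟨by linarith, by linarith⟩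
  rw [← sub_div, abs_div, abs_of_pos hη, div_le_iff₀ hη, one_mul] at h5
  exact h5

theorem floor_mem {a η : ℝ} {D : ℕ} (hη : 0 < η) (h : |a| ≤ D * η) :
    ⌊a / η⌋ ∈ Finset.Icc (-(D : ℤ)) D := by
  rw [abs_le] at h
  have h1 : a / η ≤ D := by
    rw [div_le_iff₀ hη]
    exact h.2
  have h2 : -(D : ℝ) ≤ a / η := by
    rw [le_div_iff₀ hη]
    linarith [h.1]
  rw [Finset.mem_Icc]
  constructor
  · rw [Int.le_floor]
    push_cast
    exact h2
  · have h3 := Int.floor_le (a / η)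
    have h4 : (⌊a / η⌋ : ℝ) ≤ (D : ℤ) := by
      push_cast
      linarith
    exact_mod_cast h4

open Classical in
/-- The number of the centers close to a point. -/
theorem mult_count {ρ : ℝ → ℝ} {lam C C₁ C₂ β : ℝ} {φ : ℝ × ℝ × ℝ → ℝ} (hlam : 0 < lam)
    (hβ : 0 < β) (hC1 : 0 < C₁)
    (hd : ∀ p ∈ sph, ∀ q ∈ sph, ed p q ≤ β * dl lam → q ∈ disc ρ p (C / Real.sqrt lam))
    {ι : Type} [Fintype ι] {c : ι → ℝ × ℝ × ℝ} (hc : Admissible ρ lam φ C C₁ C₂ c) {A : ℝ} {D : ℕ}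
    (hD : 2 * A ≤ D * β) (x : ℝ × ℝ × ℝ) :
    ((Finset.univ.filter fun i => ed (c i) x ≤ A * dl lam).card : ℝ) ≤ (2 * D + 1) ^ 3 * C₁ := by
  have hdl := dl_pos hlam
  set η := β * dl lam / 2 with hη
  have hη0 : 0 < η := by positivity
  set F := Finset.univ.filter fun i => ed (c i) x ≤ A * dl lam with hF
  set I := Finset.Icc (-(D : ℤ)) D with hI
  set K : Finset (ℤ × ℤ × ℤ) := I ×ˢ I ×ˢ I with hK
  set f : ι → ℤ × ℤ × ℤ := fun i => (⌊((c i).1 - x.1) / η⌋, ⌊((c i).2.1 - x.2.1) / η⌋,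
    ⌊((c i).2.2 - x.2.2) / η⌋) with hf
  have hIc : (I.card : ℝ) = 2 * D + 1 := by
    rw [hI, Int.card_Icc]
    have : ((D : ℤ) + 1 - -(D : ℤ)).toNat = 2 * D + 1 := by omega
    rw [this]
    push_cast
    ring
  have hKc : (K.card : ℝ) = (2 * D + 1) ^ 3 := by
    rw [hK, Finset.card_product, Finset.card_product]
    push_cast
    rw [hIc]
    ring
  have hmaps : ∀ i ∈ F, f i ∈ K := by
    intro i hi
    have h1 := (Finset.mem_filter.1 hi).2
    have h2 : A * dl lam ≤ D * η := by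
      rw [hη]
      nlinarith
    obtain ⟨k1, k2, k3⟩ := coord_le (p := c i) (q := x)
    rw [hK, hI]
    exact Finset.mem_product.2 ⟨floor_mem hη0 (by linarith), Finset.mem_product.2
      ⟨floor_mem hη0 (by linarith), floor_mem hη0 (by linarith)⟩⟩
  have hfib : ∀ k ∈ K, ((F.filter fun i => f i = k).card : ℝ) ≤ C₁ := by
    intro k _
    rcases (F.filter fun i => f i = k).eq_empty_or_nonempty with h0 | ⟨j, hj⟩
    · rw [h0]
      simpa using hC1.le
    · have hjk := (Finset.mem_filter.1 hj).2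
      have h1 := hc.mult (c j) (hc.mem j)
      have h2 : {i | c j ∈ disc ρ (c i) (C / Real.sqrt lam)} =
          ((Finset.univ.filter fun i => c j ∈ disc ρ (c i) (C / Real.sqrt lam) : Finset ι) :
            Set ι) := by
        ext i
        simp
      rw [h2, ncard_coe_finset] at h1
      refine le_trans (Nat.cast_le.2 (Finset.card_le_card fun i hi => ?_)) h1
      have hik := (Finset.mem_filter.1 hi).2
      refine Finset.mem_filter.2 ⟨Finset.mem_univ _, hd _ (hc.mem i) _ (hc.mem j) ?_⟩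
      have he : f i = f j := hik.trans hjk.symm
      have e1 : ⌊((c i).1 - x.1) / η⌋ = ⌊((c j).1 - x.1) / η⌋ := congrArg Prod.fst he
      have e2 : ⌊((c i).2.1 - x.2.1) / η⌋ = ⌊((c j).2.1 - x.2.1) / η⌋ :=
        congrArg (fun p => p.2.1) he
      have e3 : ⌊((c i).2.2 - x.2.2) / η⌋ = ⌊((c j).2.2 - x.2.2) / η⌋ :=
        congrArg (fun p => p.2.2) he
      have g1 := floor_close hη0 e1
      have g2 := floor_close hη0 e2
      have g3 := floor_close hη0 e3
      rw [sub_sub_sub_cancel_right] at g1 g2 g3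
      have q1 : ((c i).1 - (c j).1) ^ 2 ≤ η ^ 2 := by
        rw [← sq_abs]
        exact pow_le_pow_left₀ (abs_nonneg _) g1 2
      have q2 : ((c i).2.1 - (c j).2.1) ^ 2 ≤ η ^ 2 := by
        rw [← sq_abs]
        exact pow_le_pow_left₀ (abs_nonneg _) g2 2
      have q3 : ((c i).2.2 - (c j).2.2) ^ 2 ≤ η ^ 2 := by
        rw [← sq_abs]
        exact pow_le_pow_left₀ (abs_nonneg _) g3 2
      have h3 : ed (c i) (c j) ^ 2 ≤ (β * dl lam) ^ 2 := by
        rw [ed_sq]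
        have h4 : (β * dl lam) ^ 2 = 4 * η ^ 2 := by
          rw [hη]
          ring
        rw [h4]
        nlinarith [sq_nonneg η]
      exact (abs_le_of_sq_le_sq' h3 (by positivity)).2
  have h1 := Finset.card_eq_sum_card_fiberwise hmaps
  have h2 : (F.card : ℝ) = ∑ k ∈ K, ((F.filter fun i => f i = k).card : ℝ) := by
    rw [h1]
    push_cast
    rfl
  rw [h2]
  calc ∑ k ∈ K, ((F.filter fun i => f i = k).card : ℝ) ≤ ∑ k ∈ K, C₁ := Finset.sum_le_sum hfib
    _ = (2 * D + 1) ^ 3 * C₁ := by rw [Finset.sum_const, nsmul_eq_mul, hKc]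

/-- the number of zeros in a long interval -/
theorem per_count {u : ℝ → ℝ} {P Θ B : ℝ} (hP : 0 < P) (per : ∀ x, u (x + P) = u x)
    (h : ∀ Z : Finset ℝ, (∀ z ∈ Z, z ∈ Ico 0 P ∧ u z = 0) → (Z.card : ℝ) ≤ B) {D : ℕ}
    (hD : Θ ≤ D * P) {Z : Finset ℝ} (hZ : ∀ z ∈ Z, |z| ≤ Θ ∧ u z = 0) :
    (Z.card : ℝ) ≤ (2 * D + 1) * B := by
  classical
  have hper : Function.Periodic u P := per
  set I := Finset.Icc (-(D : ℤ)) D with hI
  have hIc : (I.card : ℝ) = 2 * D + 1 := by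
    rw [hI, Int.card_Icc]
    have : ((D : ℤ) + 1 - -(D : ℤ)).toNat = 2 * D + 1 := by omega
    rw [this]
    push_cast
    ring
  have hmaps : ∀ z ∈ Z, ⌊z / P⌋ ∈ I := fun z hz => floor_mem hP ((hZ z hz).1.trans hD)
  have h1 := Finset.card_eq_sum_card_fiberwise hmaps
  have h2 : (Z.card : ℝ) = ∑ k ∈ I, ((Z.filter fun z => ⌊z / P⌋ = k).card : ℝ) := by
    rw [h1]
    push_cast
    rfl
  rw [h2, ← hIc, ← nsmul_eq_mul, ← Finset.sum_const]
  refine Finset.sum_le_sum fun k _ => ?_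
  have h3 : ((Z.filter fun z => ⌊z / P⌋ = k).image fun z => z - k * P).card =
      (Z.filter fun z => ⌊z / P⌋ = k).card :=
    Finset.card_image_of_injective _ fun a b hab => by
      have : a - k * P = b - k * P := hab
      linarith
  rw [← h3]
  refine h _ fun z hz => ?_
  obtain ⟨y, hy, rfl⟩ := Finset.mem_image.1 hz
  obtain ⟨hy1, hy2⟩ := Finset.mem_filter.1 hy
  have h4 := Int.floor_le (y / P)
  have h5 := Int.lt_floor_add_one (y / P)
  rw [hy2] at h4 h5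
  rw [le_div_iff₀ hP] at h4
  rw [div_lt_iff₀ hP] at h5
  refine ⟨⟨by linarith, by linarith⟩, ?_⟩
  rw [hper.sub_int_mul_eq]
  exact (hZ y hy1).2

end Pool.Agent.NH44.SR
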