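import Pool.Agent.NH44.SR.Sturm4
import Pool.Agent.NH44.LT.Line
import Pool.Agent.Y291.DB.Modes

/-!
# The number of zeros on the lines
-/

set_option autoImplicit false

open MeasureTheory Real Filter Topology Set Function
open Pool.Agent.Y291.DB (Sol um um_d1 um_d2 inversion)

namespace Pool.Agent.NH44.SR

/-- a bounded convex function is constant -/
theorem conv_bdd {y y' y'' : ℝ → ℝ} {B : ℝ} (hy : ∀ x, HasDerivAt y (y' x) x)
    (hy' : ∀ x, HasDerivAt y' (y'' x) x) (h0 : ∀ x, 0 ≤ y'' x) (hB : ∀ x, |y x| ≤ B) (x : ℝ) :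
    y' x = 0 := by
  have hyc : Continuous y := continuous_iff_continuousAt.2 fun t => (hy t).continuousAt
  have hmono : Monotone y' := by
    refine monotone_of_deriv_nonneg (fun x => (hy' x).differentiableAt) fun x => ?_
    rw [(hy' x).deriv]
    exact h0 x
  have hB0 : 0 ≤ B := (abs_nonneg _).trans (hB 0)
  by_contra hne
  rcases lt_or_gt_of_ne hne with h | h
  · set t := x - (2 * B + 1) / (-y' x) with ht
    have hpos : 0 < (2 * B + 1) / (-y' x) := div_pos (by positivity) (by linarith)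
    have htx : t < x := by linarith
    obtain ⟨c, hc, hs⟩ := exists_hasDerivAt_eq_slope y y' htx hyc.continuousOn fun x _ => hy x
    have h1 := hmono hc.2.le
    rw [hs, div_le_iff₀ (by linarith)] at h1
    have h2 : y' x * (x - t) = -(2 * B + 1) := by
      have : x - t = (2 * B + 1) / (-y' x) := by rw [ht]; ring
      rw [this]
      field_simp
    have h5 := abs_le.1 (hB x)
    have h6 := abs_le.1 (hB t)
    linarith
  · set t := x + (2 * B + 1) / (y' x) with ht
    have hpos : 0 < (2 * B + 1) / (y' x) := div_pos (by positivity) (by linarith)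
    have htx : x < t := by linarith
    obtain ⟨c, hc, hs⟩ := exists_hasDerivAt_eq_slope y y' htx hyc.continuousOn fun x _ => hy x
    have h1 := hmono hc.1.le
    rw [hs, le_div_iff₀ (by linarith)] at h1
    have h2 : y' x * (t - x) = 2 * B + 1 := by
      have : t - x = (2 * B + 1) / (y' x) := by rw [ht]; ring
      rw [this]
      field_simp
    have h5 := abs_le.1 (hB x)
    have h6 := abs_le.1 (hB t)
    linarith

/-- zeros on the real line -/
theorem line_zeros2 {n : ℕ} {Q : ℝ → ℝ} {Λ K : ℝ} (hQc : Continuous Q) (hQ0 : ∀ x, 0 ≤ Q x)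
    (hQ : ∀ x, Q x ≤ Λ) (hK : 0 ≤ K) (hQK : ∀ x, Q x ≤ K * Real.exp (-2 * |x|)) {ν : Fin n → ℝ}
    {w w' : Fin n → ℝ → ℝ} (hw : ∀ i t, HasDerivAt (w i) (w' i t) t)
    (hw' : ∀ i t, HasDerivAt (w' i) ((ν i - Q t) * w i t) t) (hν0 : ∀ i, 0 ≤ ν i)
    (hν : ∀ i, ν i ≤ Λ) (hb : ∀ i, ∃ B : ℝ, ∀ t, |w i t| ≤ B)
    (hne : ∃ t, ∑ i, w i t ≠ 0) {Z : Finset ℝ} (hZ : ∀ z ∈ Z, ∑ i, w i z = 0) :
    (Z.card : ℝ) ≤ 12 * Real.sqrt K + 2 := by
  classical
  set κ : Fin n → ℝ := fun i => Λ + 1 - ν i with hκ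
  set v : ℝ → ℝ → ℝ := fun k t => ∑ i, if κ i = k then w i t else 0 with hv
  set v' : ℝ → ℝ → ℝ := fun k t => ∑ i, if κ i = k then w' i t else 0 with hv'
  set q : ℝ → ℝ := fun t => Λ + 1 - Q t with hq
  set S : Finset ℝ := (Finset.univ.image κ).filter fun k => ∃ t, v k t ≠ 0 with hS
  have hsum : ∀ t, ∑ k ∈ S, v k t = ∑ i, w i t := by
    intro t
    have h1 : ∑ k ∈ S, v k t = ∑ k ∈ Finset.univ.image κ, v k t := by
      refine Finset.sum_subset (Finset.filter_subset _ _) fun k hk hk' => ?_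
      by_contra h0
      exact hk' (Finset.mem_filter.2 ⟨hk, t, h0⟩)
    rw [h1, hv]
    simp only
    rw [Finset.sum_comm]
    refine Finset.sum_congr rfl fun i _ => ?_
    rw [Finset.sum_ite_eq, if_pos (Finset.mem_image_of_mem _ (Finset.mem_univ i))]
  have hSne : S.Nonempty := by
    obtain ⟨t, ht⟩ := hne
    rw [← hsum] at ht
    exact Finset.nonempty_of_sum_ne_zero ht
  choose B hB using hb
  refine sturm_line (q := q) (v := v) (v' := v') (Q := Λ + 1) (S := S) (by fun_prop) ?_ ?_ ?_ ?_ hK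
    hSne ?_ ?_ ?_ ?_ (fun z hz => (hsum z).trans (hZ z hz))
  · intro k x
    rw [hv, hv']
    simp only
    refine HasDerivAt.fun_sum fun i _ => ?_
    split_ifs
    · exact hw i x
    · exact hasDerivAt_const _ _
  · intro k x
    have h1 : HasDerivAt (v' k) (∑ i, if κ i = k then (ν i - Q x) * w i x else 0) x := by
      rw [hv']
      simp only
      refine HasDerivAt.fun_sum fun i _ => ?_
      split_ifs
      · exact hw' i x
      · exact hasDerivAt_const _ _
    refine h1.congr_deriv ?_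
    rw [hv]
    simp only
    rw [Finset.mul_sum]
    refine Finset.sum_congr rfl fun i _ => ?_
    split_ifs with h2
    · rw [← h2, hq, hκ]
      ring
    · rw [mul_zero]
  · intro x
    rw [hq]
    simp only
    have h1 := hQ0 x
    have h2 := hQ x
    rw [abs_of_nonneg (by linarith)]
    linarith
  · intro x
    rw [hq]
    simp only
    have h2 := hQ x
    linarith
  · intro k hk x
    obtain ⟨i, -, rfl⟩ := Finset.mem_image.1 (Finset.mem_filter.1 hk).1
    have h1 : q x - κ i = ν i - Q x := by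
      rw [hq, hκ]
      ring
    rw [h1]
    have h2 := hQK x
    have h3 := hν0 i
    linarith
  · intro k hk
    obtain ⟨i, -, rfl⟩ := Finset.mem_image.1 (Finset.mem_filter.1 hk).1
    have h3 := hν i
    show 0 < Λ + 1 - ν i
    linarith
  · intro k hk
    refine ⟨∑ i, B i, fun x => ?_⟩
    rw [hv]
    simp only
    refine (Finset.abs_sum_le_sum_abs _ _).trans (Finset.sum_le_sum fun i _ => ?_)
    split_ifs
    · exact hB i x
    · rw [abs_zero]
      exact (abs_nonneg _).trans (hB i 0)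
  · intro k hk
    exact (Finset.mem_filter.1 hk).2

section modes

variable {q : ℝ → ℝ} {U Ux Uxx Uy Uyy : ℝ → ℝ → ℝ} (h : Sol q U Ux Uxx Uy Uyy)
  (hper : ∀ x y, U x (y + 2 * π) = U x y) {Λ B : ℝ} (hB : ∀ x y, |U x y| ≤ B)

theorem ek_norm (k : ℤ) (y : ℝ) : ‖Pool.Agent.Y291.DB.ek k y‖ = 1 := by
  unfold Pool.Agent.Y291.DB.ek
  have h1 : (-((k : ℂ) * (y : ℂ) * Complex.I)) = ((-(k * y) : ℝ) : ℂ) * Complex.I := by
    push_cast
    ring
  rw [h1, Complex.norm_exp_ofReal_mul_I]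

include hB in
theorem um_le (k : ℤ) (x : ℝ) : ‖um U k x‖ ≤ B := by
  unfold um
  have h1 : ‖∫ y in (0 : ℝ)..(2 * π), (U x y : ℂ) * Pool.Agent.Y291.DB.ek k y‖ ≤
      B * |2 * π - 0| := by
    refine intervalIntegral.norm_integral_le_of_norm_le_const fun y _ => ?_
    rw [norm_mul, ek_norm, mul_one, Complex.norm_real]
    exact hB x y
  rw [norm_mul, Complex.norm_real, Real.norm_of_nonneg (by positivity)]
  rw [sub_zero, abs_of_pos (by positivity)] at h1
  calc 1 / (2 * π) * ‖∫ y in (0 : ℝ)..(2 * π), (U x y : ℂ) * Pool.Agent.Y291.DB.ek k y‖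
      ≤ 1 / (2 * π) * (B * (2 * π)) := by gcongr
    _ = B := by field_simp

include h hper hB in
theorem um_zero_bdd (hq : ∀ x, q x ≤ Λ) {k : ℤ} (hk : Λ < (k : ℝ) ^ 2) (x : ℝ) :
    um U k x = 0 := by
  have hre : ∀ (f : ℝ → ℂ) (f' : ℂ) (x : ℝ), HasDerivAt f f' x →
      HasDerivAt (fun t => (f t).re) f'.re x ∧ HasDerivAt (fun t => (f t).im) f'.im x := by
    intro f f' x hf
    exact ⟨Complex.reCLM.hasFDerivAt.comp_hasDerivAt x hf,
      Complex.imCLM.hasFDerivAt.comp_hasDerivAt x hf⟩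
  set F : ℝ → ℝ := fun x => (um U k x).re ^ 2 + (um U k x).im ^ 2 with hF
  set F1 : ℝ → ℝ := fun x => 2 * ((um U k x).re * (um Ux k x).re +
    (um U k x).im * (um Ux k x).im) with hF1
  set F2 : ℝ → ℝ := fun x => 2 * ((um Ux k x).re ^ 2 + (um Ux k x).im ^ 2 +
    ((k : ℝ) ^ 2 - q x) * ((um U k x).re ^ 2 + (um U k x).im ^ 2)) with hF2
  have d1 : ∀ x, HasDerivAt F (F1 x) x := by
    intro x
    obtain ⟨a1, a2⟩ := hre _ _ _ (um_d1 h hper k x)
    refine ((a1.pow 2).add (a2.pow 2)).congr_deriv ?_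
    rw [hF1]
    push_cast
    ring
  have d2 : ∀ x, HasDerivAt F1 (F2 x) x := by
    intro x
    obtain ⟨a1, a2⟩ := hre _ _ _ (um_d1 h hper k x)
    obtain ⟨a3, a4⟩ := hre _ _ _ (um_d2 h hper k x)
    have h1 := ((a1.mul a3).add (a2.mul a4)).const_mul 2
    refine h1.congr_deriv ?_
    rw [hF2]
    simp only [Complex.re_ofReal_mul, Complex.im_ofReal_mul]
    ring
  have hF2p : ∀ x, 0 ≤ F2 x := by
    intro x
    have h1 : 0 ≤ (k : ℝ) ^ 2 - q x := by linarith [hq x]
    rw [hF2]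
    positivity
  have hFb : ∀ x, |F x| ≤ B ^ 2 := by
    intro x
    have h1 := um_le hB k x
    have h2 : F x = ‖um U k x‖ ^ 2 := by
      rw [hF, ← Complex.normSq_eq_norm_sq, Complex.normSq_apply]
      ring
    rw [h2, abs_of_nonneg (by positivity)]
    exact pow_le_pow_left₀ (norm_nonneg _) h1 2
  have h1 : ∀ x, F1 x = 0 := conv_bdd d1 d2 hF2p hFb
  have h2 : F2 x = 0 := by
    have h3 : F1 = fun _ => 0 := funext h1
    have h4 := d2 x
    rw [h3] at h4
    exact h4.unique (hasDerivAt_const x 0)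
  have h3 : 0 < (k : ℝ) ^ 2 - q x := by linarith [hq x]
  rw [hF2] at h2
  simp only at h2
  have h4 := sq_nonneg (um Ux k x).re
  have h5 := sq_nonneg (um Ux k x).im
  have h6 := sq_nonneg (um U k x).re
  have h7 := sq_nonneg (um U k x).im
  have h8 : ((k : ℝ) ^ 2 - q x) * ((um U k x).re ^ 2 + (um U k x).im ^ 2) = 0 := by
    have : 0 ≤ ((k : ℝ) ^ 2 - q x) * ((um U k x).re ^ 2 + (um U k x).im ^ 2) := by positivity
    linarith
  have h9 : (um U k x).re ^ 2 + (um U k x).im ^ 2 = 0 := by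
    rcases mul_eq_zero.1 h8 with h | h
    · exact absurd h h3.ne'
    · exact h
  have h10 : (um U k x).re = 0 := by
    have : (um U k x).re ^ 2 = 0 := by linarith
    exact pow_eq_zero_iff two_ne_zero |>.1 this
  have h11 : (um U k x).im = 0 := by
    have : (um U k x).im ^ 2 = 0 := by linarith
    exact pow_eq_zero_iff two_ne_zero |>.1 this
  exact Complex.ext h10 h11

/-- the real modes -/
noncomputable def wk (U : ℝ → ℝ → ℝ) (k : ℤ) (x y : ℝ) : ℝ :=
  (um U k x * Complex.exp (k * y * Complex.I)).re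

noncomputable def wky (U : ℝ → ℝ → ℝ) (k : ℤ) (x y : ℝ) : ℝ :=
  (um U k x * (k * Complex.I * Complex.exp (k * y * Complex.I))).re

theorem exp_d (k : ℤ) (y : ℝ) : HasDerivAt (fun y : ℝ => Complex.exp (k * y * Complex.I))
    (k * Complex.I * Complex.exp (k * y * Complex.I)) y := by
  have h1 : HasDerivAt (fun y : ℝ => (k : ℂ) * (y : ℂ) * Complex.I)
      ((k : ℂ) * 1 * Complex.I) y :=
    ((Complex.ofRealCLM.hasDerivAt (x := y)).const_mul (k : ℂ)).mul_const Complex.I
  have h2 := h1.cexp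
  refine h2.congr_deriv ?_
  ring

theorem wk_y (k : ℤ) (x y : ℝ) : HasDerivAt (wk U k x) (wky U k x y) y :=
  Complex.reCLM.hasFDerivAt.comp_hasDerivAt y ((exp_d k y).const_mul (um U k x))

theorem wk_yy (k : ℤ) (x y : ℝ) :
    HasDerivAt (wky U k x) (-(k : ℝ) ^ 2 * wk U k x y) y := by
  have h1 := Complex.reCLM.hasFDerivAt.comp_hasDerivAt y
    (((exp_d k y).const_mul (k * Complex.I)).const_mul (um U k x))
  refine h1.congr_deriv ?_
  unfold wk
  rw [← Complex.re_ofReal_mul]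
  show (um U k x * ((k : ℂ) * Complex.I * ((k : ℂ) * Complex.I *
    Complex.exp ((k : ℂ) * y * Complex.I)))).re = _
  congr 1
  push_cast
  have := Complex.I_mul_I
  linear_combination ((k : ℂ) ^ 2 * um U k x * Complex.exp ((k : ℂ) * y * Complex.I)) * this

include h hper in
theorem wk_x (k : ℤ) (x y : ℝ) : HasDerivAt (fun x => wk U k x y) (wk Ux k x y) x :=
  Complex.reCLM.hasFDerivAt.comp_hasDerivAt x ((um_d1 h hper k x).mul_const _)

include h hper in
theorem wk_xx (k : ℤ) (x y : ℝ) :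
    HasDerivAt (fun x => wk Ux k x y) (((k : ℝ) ^ 2 - q x) * wk U k x y) x := by
  have h1 := Complex.reCLM.hasFDerivAt.comp_hasDerivAt x ((um_d2 h hper k x).mul_const
    (Complex.exp (k * y * Complex.I)))
  refine h1.congr_deriv ?_
  unfold wk
  rw [← Complex.re_ofReal_mul, ← mul_assoc]
  rfl

include hB in
theorem wk_b (k : ℤ) (x y : ℝ) : |wk U k x y| ≤ B := by
  unfold wk
  refine (Complex.abs_re_le_norm _).trans ?_
  have h1 : ((k : ℂ) * (y : ℂ) * Complex.I) = ((k * y : ℝ) : ℂ) * Complex.I := by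
    push_cast
    ring
  rw [norm_mul, h1, Complex.norm_exp_ofReal_mul_I, mul_one]
  exact um_le hB k x

theorem wk_per (k : ℤ) (x y : ℝ) : wk U k x (y + 2 * π) = wk U k x y := by
  unfold wk
  have h1 : ((k : ℂ) * ((y + 2 * π : ℝ) : ℂ) * Complex.I) =
      (k : ℂ) * (y : ℂ) * Complex.I + k * (2 * π * Complex.I) := by
    push_cast
    ring
  rw [h1, Complex.exp_add, Complex.exp_int_mul_two_pi_mul_I, mul_one]

include h hper hB in
theorem modes (hΛ : 0 ≤ Λ) (hq : ∀ x, q x ≤ Λ) : ∃ (n : ℕ) (kk : Fin n → ℤ),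
    (∀ i, (kk i : ℝ) ^ 2 ≤ Λ) ∧ ∀ x y, U x y = ∑ i, wk U (kk i) x y := by
  set K : ℕ := ⌊Real.sqrt Λ⌋₊ with hK
  set S : Finset ℤ := Finset.Icc (-(K : ℤ)) K with hS
  have hKs : (K : ℝ) ≤ Real.sqrt Λ := Nat.floor_le (Real.sqrt_nonneg _)
  have hKs' : Real.sqrt Λ < K + 1 := Nat.lt_floor_add_one _
  refine ⟨S.card, fun i => (S.equivFin.symm i : ℤ), fun i => ?_, fun x y => ?_⟩
  · have h1 := Finset.mem_Icc.1 (S.equivFin.symm i).2
    have h2 : |((S.equivFin.symm i : ℤ) : ℝ)| ≤ K := by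
      rw [abs_le]
      constructor
      · exact_mod_cast h1.1
      · exact_mod_cast h1.2
    rw [← sq_abs]
    calc |((S.equivFin.symm i : ℤ) : ℝ)| ^ 2 ≤ Real.sqrt Λ ^ 2 :=
          pow_le_pow_left₀ (abs_nonneg _) (h2.trans hKs) 2
      _ = Λ := Real.sq_sqrt hΛ
  · have h1 := inversion h hper (K := K) x (fun k hk => by
      refine um_zero_bdd h hper hB hq ?_ x
      have h2 : (K : ℝ) + 1 ≤ |(k : ℝ)| := by
        have : (K : ℤ) + 1 ≤ |k| := hk
        exact_mod_cast this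
      rw [← sq_abs]
      have h3 : Real.sqrt Λ < |(k : ℝ)| := hKs'.trans_le h2
      calc Λ = Real.sqrt Λ ^ 2 := (Real.sq_sqrt hΛ).symm
        _ < |(k : ℝ)| ^ 2 := pow_lt_pow_left₀ h3 (Real.sqrt_nonneg _) two_ne_zero) y
    have h2 := congrArg Complex.re h1
    rw [Complex.ofReal_re, Complex.re_sum] at h2
    rw [h2]
    have h3 : ∑ i, wk U (S.equivFin.symm i : ℤ) x y = ∑ k : S, wk U (k : ℤ) x y :=
      Equiv.sum_comp S.equivFin.symm (fun k : S => wk U (k : ℤ) x y)
    rw [h3, Finset.sum_coe_sort S (fun k => wk U k x y)]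
    rfl

include h hper hB in
/-- zeros on the circles and on the meridians -/
theorem zeros_both (hΛ : 0 < Λ) (hq0 : ∀ x, 0 ≤ q x) (hq : ∀ x, q x ≤ Λ) {K : ℝ} (hK : 0 ≤ K)
    (hqK : ∀ x, q x ≤ K * Real.exp (-2 * |x|)) :
    (∀ x0, (∃ y, U x0 y ≠ 0) → ∀ Z : Finset ℝ, (∀ z ∈ Z, z ∈ Ico 0 (2 * π) ∧ U x0 z = 0) →
      (Z.card : ℝ) ≤ 2 * π * Real.sqrt Λ) ∧
    ∀ y0, (∃ x, U x y0 ≠ 0) → ∀ Z : Finset ℝ, (∀ z ∈ Z, U z y0 = 0) →
      (Z.card : ℝ) ≤ 12 * Real.sqrt K + 2 := by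
  obtain ⟨n, kk, hkk, hU⟩ := modes h hper hB hΛ.le hq
  constructor
  · intro x0 hne Z hZ
    simp only [hU] at hne hZ
    have h1 := LT.line_zeros (n := n) (h := fun _ => 0) (lam := Λ) (H := 0) (M := 1)
      (P := 2 * π) continuous_const (by positivity) (fun _ => rfl) hΛ (fun _ => by simp)
      (ν := fun i => -(kk i : ℝ) ^ 2) (w := fun i => wk U (kk i) x0)
      (w' := fun i => wky U (kk i) x0) (fun i t => wk_y _ _ _) (fun i t => by
        refine (wk_yy _ _ _).congr_deriv ?_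
        ring) (fun i t => wk_per _ _ _) (fun i => by
        rw [abs_neg, abs_of_nonneg (sq_nonneg _), mul_one]
        exact hkk i) hne hZ
    simpa using h1
  · intro y0 hne Z hZ
    simp only [hU] at hne hZ
    exact line_zeros2 h.qc hq0 hq hK hqK (ν := fun i => (kk i : ℝ) ^ 2)
      (w := fun i x => wk U (kk i) x y0) (w' := fun i x => wk Ux (kk i) x y0)
      (fun i t => wk_x h hper _ _ _) (fun i t => wk_xx h hper _ _ _) (fun i => sq_nonneg _) hkk
      (fun i => ⟨B, fun t => wk_b hB _ _ _⟩) hne hZ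

end modes

end Pool.Agent.NH44.SR
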