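import Mathlib

/-!
# Choice of lines with few zeros, and the sum over the discs
-/

set_option autoImplicit false

open MeasureTheory Filter Topology Set
open scoped ENNReal

namespace Pool.Agent.NH44.SR

theorem pick {n : ℝ → ℕ} {good : ℝ → Prop} (hg : ∀ᵐ s, good s) {a b : ℝ} (hab : a < b) :
    ∃ x ∈ Icc a b, good x ∧
      ENNReal.ofReal (b - a) * (n x : ℝ≥0∞) ≤ ∫⁻ s in Icc a b, (n s : ℝ≥0∞) := by
  classical
  have hne : ∃ k, ∃ x ∈ Icc a b, good x ∧ n x = k := by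
    have h1 : ∃ x ∈ Icc a b, good x := by
      by_contra hcon
      push Not at hcon
      have h2 : volume (Icc a b) = 0 := by
        refine measure_mono_null (fun x hx => ?_) hg
        exact hcon x hx
      rw [Real.volume_Icc] at h2
      have := ENNReal.ofReal_eq_zero.1 h2
      linarith
    obtain ⟨x, hx, hgx⟩ := h1
    exact ⟨n x, x, hx, hgx, rfl⟩
  obtain ⟨x, hx, hgx, hk⟩ := Nat.find_spec hne
  refine ⟨x, hx, hgx, ?_⟩
  have h1 : ∫⁻ _ in Icc a b, (n x : ℝ≥0∞) ≤ ∫⁻ s in Icc a b, (n s : ℝ≥0∞) := by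
    refine lintegral_mono_ae ?_
    rw [ae_restrict_iff' measurableSet_Icc]
    filter_upwards [hg] with s hs hs'
    have h2 : Nat.find hne ≤ n s := Nat.find_min' hne ⟨s, hs', hs, rfl⟩
    rw [hk]
    exact_mod_cast h2
  rw [setLIntegral_const, Real.volume_Icc, mul_comm] at h1
  exact h1

theorem sum_lintegral_le {ι : Type} (t : Finset ι) (f : ι → ℝ → ℝ≥0∞) :
    ∑ i ∈ t, ∫⁻ s, f i s ≤ ∫⁻ s, ∑ i ∈ t, f i s := by
  classical
  induction t using Finset.induction_on with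
  | empty => simp
  | insert i t hi ih =>
    simp only [Finset.sum_insert hi]
    exact (add_le_add le_rfl ih).trans (le_lintegral_add _ _)

theorem total {ι : Type} [Fintype ι] (s₀ t₀ δ : ι → ℝ) (D : ℝ) (V : ℝ → Finset ℝ) (Z1 : ℝ≥0∞)
    (w : ℝ → ℝ≥0∞) (hV : ∀ s, ((V s).card : ℝ≥0∞) ≤ Z1)
    (hw : ∀ s t, ∑ i, (if |s - s₀ i| ≤ D * δ i ∧ |t - t₀ i| ≤ D * δ i then
      ENNReal.ofReal (1 / δ i) else 0) ≤ w s) :
    ∑ i, ENNReal.ofReal (1 / δ i) * ∫⁻ s in {s | |s - s₀ i| ≤ D * δ i},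
      (((V s).filter fun z => |z - t₀ i| ≤ D * δ i).card : ℝ≥0∞) ≤ ∫⁻ s, Z1 * w s := by
  classical
  have h1 : ∀ i, ENNReal.ofReal (1 / δ i) * ∫⁻ s in {s | |s - s₀ i| ≤ D * δ i},
      (((V s).filter fun z => |z - t₀ i| ≤ D * δ i).card : ℝ≥0∞) =
      ∫⁻ s, {s | |s - s₀ i| ≤ D * δ i}.indicator (fun s => ENNReal.ofReal (1 / δ i) *
        (((V s).filter fun z => |z - t₀ i| ≤ D * δ i).card : ℝ≥0∞)) s := by
    intro i
    have hm : MeasurableSet {s : ℝ | |s - s₀ i| ≤ D * δ i} :=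
      (isClosed_le (continuous_id.sub continuous_const).abs continuous_const).measurableSet
    rw [lintegral_indicator hm, lintegral_const_mul' _ _ ENNReal.ofReal_ne_top]
  simp only [h1]
  refine (sum_lintegral_le _ _).trans (lintegral_mono fun s => ?_)
  calc ∑ i, {s | |s - s₀ i| ≤ D * δ i}.indicator (fun s => ENNReal.ofReal (1 / δ i) *
        (((V s).filter fun z => |z - t₀ i| ≤ D * δ i).card : ℝ≥0∞)) s
      = ∑ i, ∑ z ∈ V s, (if |s - s₀ i| ≤ D * δ i ∧ |z - t₀ i| ≤ D * δ i then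
        ENNReal.ofReal (1 / δ i) else 0) := by
        refine Finset.sum_congr rfl fun i _ => ?_
        by_cases h2 : |s - s₀ i| ≤ D * δ i
        · rw [indicator_of_mem (show s ∈ {s | |s - s₀ i| ≤ D * δ i} from h2)]
          simp only [h2, true_and]
          rw [← Finset.sum_filter, Finset.sum_const, nsmul_eq_mul, mul_comm]
        · rw [indicator_of_notMem (show s ∉ {s | |s - s₀ i| ≤ D * δ i} from h2)]
          simp only [h2, false_and, if_false, Finset.sum_const_zero]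
    _ = ∑ z ∈ V s, ∑ i, (if |s - s₀ i| ≤ D * δ i ∧ |z - t₀ i| ≤ D * δ i then
        ENNReal.ofReal (1 / δ i) else 0) := Finset.sum_comm
    _ ≤ ∑ z ∈ V s, w s := Finset.sum_le_sum fun z _ => hw s z
    _ = (V s).card * w s := by rw [Finset.sum_const, nsmul_eq_mul]
    _ ≤ Z1 * w s := mul_le_mul_left (hV s) _

end Pool.Agent.NH44.SR
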