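import Pool.Agent.NH44.SR.DiscB
import Pool.Agent.NH44.SR.Mult
import Pool.Agent.NH44.SR.Mean
import Pool.Agent.NH44.SR.Lines
import Pool.Agent.NH44.LT.Scale

/-!
# The average of the doubling indices on spheres of revolution
-/

set_option autoImplicit false

open MeasureTheory Real Filter Topology Set Function
open Pool.Agent.Y291.DB (dl dl_pos dl_le dl_sq Sol)
open scoped ENNReal

namespace Pool.Agent.NH44.SR

theorem UU_ne {φ : ℝ × ℝ × ℝ → ℝ} {ρ : ℝ → ℝ} {lam : ℝ} (h : Eigen ρ lam φ) :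
    ∃ s θ, UU φ s θ ≠ 0 := by
  by_contra hcon
  push Not at hcon
  have hcont : ContinuousOn φ {0}ᶜ := h.smooth.continuousOn
  obtain ⟨p, hp, hne⟩ := h.ne
  apply hne
  rw [← abs_eq_zero]
  refine le_antisymm ?_ (abs_nonneg _)
  rcases le_total 0 p.2.2 with h1 | h1
  · refine cap_all hcont h.hom (sc := 0) (fun s _ y => ?_) hp (by rw [Real.tanh_zero]; exact h1)
    rw [hcon, abs_zero]
  · refine cap_all' hcont h.hom (sc := 0) (fun s _ y => ?_) hp
      (by rw [Real.tanh_zero, neg_zero]; exact h1)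
    rw [hcon, abs_zero]

theorem lint_cosh {W : ℝ} (hW : 0 ≤ W) :
    ∫⁻ s : ℝ, ENNReal.ofReal (W / Real.cosh s) ≤ ENNReal.ofReal (2 * π * W) := by
  have h1 : ∀ s : ℝ, W / Real.cosh s ≤ 2 * W * (1 + s ^ 2)⁻¹ := by
    intro s
    have h2 := cosh_lb s
    have h3 := Real.one_le_cosh s
    rw [div_le_iff₀ (by linarith), ← div_eq_mul_inv, div_mul_eq_mul_div,
      le_div_iff₀ (by positivity)]
    nlinarith
  calc ∫⁻ s : ℝ, ENNReal.ofReal (W / Real.cosh s)
      ≤ ∫⁻ s : ℝ, ENNReal.ofReal (2 * W * (1 + s ^ 2)⁻¹) :=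
        lintegral_mono fun s => ENNReal.ofReal_le_ofReal (h1 s)
    _ = ENNReal.ofReal (∫ s : ℝ, 2 * W * (1 + s ^ 2)⁻¹) := by
        rw [ofReal_integral_eq_lintegral_ofReal (integrable_inv_one_add_sq.const_mul _)]
        exact Eventually.of_forall fun s => by positivity
    _ = ENNReal.ofReal (2 * π * W) := by
        rw [integral_const_mul, integral_univ_inv_one_add_sq]
        congr 1
        ring

/-- the line with few zeros -/
theorem use_pick {V : ℝ → Finset ℝ} {good : ℝ → Prop} (hg : ∀ᵐ s, good s) {s₀ t₀ δ D : ℝ}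
    (hδ : 0 < δ) {S : Set ℝ} (hS : S = {s | |s - s₀| ≤ D * δ})
    (hfin : ENNReal.ofReal (1 / δ) * ∫⁻ s in S,
      (((V s).filter fun z => |z - t₀| ≤ D * δ).card : ℝ≥0∞) ≠ ⊤) {t : ℝ}
    (h1 : |t - s₀| ≤ D * δ) (h2 : |t + δ - s₀| ≤ D * δ) :
    ∃ a ∈ Icc t (t + δ), good a ∧ ((V a).filter fun z => |z - t₀| ≤ D * δ).card ≤
      ⌊(ENNReal.ofReal (1 / δ) * ∫⁻ s in S,
        (((V s).filter fun z => |z - t₀| ≤ D * δ).card : ℝ≥0∞)).toReal⌋₊ := by
  obtain ⟨a, ha, hga, h3⟩ := pick (n := fun s => ((V s).filter fun z => |z - t₀| ≤ D * δ).card) hg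
    (show t < t + δ by linarith)
  refine ⟨a, ha, hga, Nat.le_floor ?_⟩
  have hsub : Icc t (t + δ) ⊆ S := by
    intro x hx
    rw [hS]
    show |x - s₀| ≤ D * δ
    rw [abs_le] at h1 h2 ⊢
    constructor
    · linarith [hx.1]
    · linarith [hx.2]
  have h4 := h3.trans (lintegral_mono_set (μ := volume)
    (f := fun s => (((V s).filter fun z => |z - t₀| ≤ D * δ).card : ℝ≥0∞)) hsub)
  rw [add_sub_cancel_left] at h4
  have h5 : ENNReal.ofReal (1 / δ) * (ENNReal.ofReal δ *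
      (((V a).filter fun z => |z - t₀| ≤ D * δ).card : ℝ≥0∞)) =
      (((V a).filter fun z => |z - t₀| ≤ D * δ).card : ℝ≥0∞) := by
    rw [← mul_assoc, ← ENNReal.ofReal_mul (by positivity), one_div, inv_mul_cancel₀ hδ.ne',
      ENNReal.ofReal_one, one_mul]
  have h6 := mul_le_mul_right h4 (ENNReal.ofReal (1 / δ))
  rw [h5] at h6
  have h7 := ENNReal.toReal_mono hfin h6
  rwa [ENNReal.toReal_natCast] at h7

/-- the sum of the rounded integrals -/
theorem sum_floor {ι : Type} [Fintype ι] {X : ι → ℝ≥0∞} {R : ℝ} (hR : 0 ≤ R)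
    (h : ∑ i, X i ≤ ENNReal.ofReal R) :
    (∀ i, X i ≠ ⊤) ∧ ∑ i, ((⌊(X i).toReal⌋₊ : ℕ) : ℝ) ≤ R := by
  have h1 : ∀ i, X i ≠ ⊤ := by
    intro i hi
    have h2 : X i ≤ ∑ i, X i := Finset.single_le_sum (fun _ _ => zero_le) (Finset.mem_univ i)
    have h3 := h2.trans h
    rw [hi, top_le_iff] at h3
    exact ENNReal.ofReal_ne_top h3
  refine ⟨h1, ?_⟩
  calc ∑ i, ((⌊(X i).toReal⌋₊ : ℕ) : ℝ) ≤ ∑ i, (X i).toReal :=
        Finset.sum_le_sum fun i _ => Nat.floor_le ENNReal.toReal_nonneg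
    _ = (∑ i, X i).toReal := (ENNReal.toReal_sum fun i _ => h1 i).symm
    _ ≤ (ENNReal.ofReal R).toReal := ENNReal.toReal_mono ENNReal.ofReal_ne_top h
    _ = R := ENNReal.toReal_ofReal hR

open Classical in
/-- The result. -/
theorem main {ρ : ℝ → ℝ} (hρc : Continuous ρ) (hρ0 : ∀ z ∈ Icc (-1 : ℝ) 1, 0 < ρ z)
    {C C₁ C₂ : ℝ} (hC : 0 < C) (hC1 : 0 < C₁) (hC2 : 0 < C₂) :
    ∃ a : ℝ, 0 < a ∧ ∀ (lam : ℝ) (φ : ℝ × ℝ × ℝ → ℝ), Eigen ρ lam φ →
      ∀ (ι : Type) [Fintype ι] (c : ι → ℝ × ℝ × ℝ), Admissible ρ lam φ C C₁ C₂ c →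
        ∑ i, doubling ρ φ (c i) (C / Real.sqrt lam) ≤ a * Fintype.card ι := by
  have hπ := Real.pi_pos
  -- bounds of the density
  obtain ⟨zm, hzm, hmin⟩ := (isCompact_Icc (a := (-1 : ℝ)) (b := 1)).exists_isMinOn
    ⟨0, by norm_num, zero_le_one⟩ hρc.continuousOn
  obtain ⟨zM, hzM, hmax⟩ := (isCompact_Icc (a := (-1 : ℝ)) (b := 1)).exists_isMaxOn
    ⟨0, by norm_num, zero_le_one⟩ hρc.continuousOn
  obtain ⟨ρm, hρm0, hρm⟩ : ∃ ρm : ℝ, 0 < ρm ∧ ∀ z ∈ Icc (-1 : ℝ) 1, ρm ≤ ρ z :=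
    ⟨ρ zm, hρ0 zm hzm, fun z hz => hmin hz⟩
  obtain ⟨ρM, hρM0, hρM⟩ : ∃ ρM : ℝ, 0 < ρM ∧ ∀ z ∈ Icc (-1 : ℝ) 1, ρ z ≤ ρM :=
    ⟨ρ zM, hρ0 zM hzM, fun z hz => hmax hz⟩
  have hsM : 0 < Real.sqrt ρM := Real.sqrt_pos.2 hρM0
  obtain ⟨β, hβ, hβ1, hβC⟩ : ∃ β : ℝ, 0 < β ∧ β ≤ 1 ∧ β * Real.sqrt ρM ≤ C := by
    refine ⟨min 1 (C / Real.sqrt ρM), by positivity, min_le_left _ _, ?_⟩
    calc min 1 (C / Real.sqrt ρM) * Real.sqrt ρM ≤ C / Real.sqrt ρM * Real.sqrt ρM :=
          mul_le_mul_of_nonneg_right (min_le_right _ _) hsM.le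
      _ = C := div_mul_cancel₀ _ hsM.ne'
  obtain ⟨β2, T1, N, hβ2, hT1, H⟩ := disc_bound hρc hρm0 hρm hρM hC hβ hβ1 hβC
  -- constants
  set D : ℝ := N + 4 with hD
  have hD0 : 0 < D := by positivity
  set Θ : ℝ := T1 + 2 * π with hΘ
  have hΘ0 : 0 < Θ := by positivity
  set Y : ℝ := Real.exp T1 * (Real.exp (T1 ^ 2 / 2) + 1) with hY
  have hY0 : 0 < Y := by positivity
  set A3 : ℝ := D * β2 * Real.sqrt Y + 1 with hA3
  obtain ⟨Dm, hDm⟩ := exists_nat_ge (2 * A3 / β)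
  rw [div_le_iff₀ hβ] at hDm
  set W0 : ℝ := (2 * Dm + 1) ^ 3 * C₁ with hW0
  have hW00 : 0 < W0 := by positivity
  obtain ⟨Kp, hKp⟩ := exists_nat_ge (Θ / (2 * π))
  rw [div_le_iff₀ (by positivity)] at hKp
  set W1 : ℝ := W0 * Real.exp T1 * (2 / β2) with hW1
  have hW10 : 0 < W1 := by positivity
  set K1 : ℝ := (2 * Kp + 1) * (2 * π * Real.sqrt ρM) * (2 * π * W1) with hK1
  set K2 : ℝ := (24 * Real.sqrt ρM + 2) * (2 * Θ * W1) with hK2
  have hK10 : 0 ≤ K1 := by positivity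
  have hK20 : 0 ≤ K2 := by positivity
  have hlog2 : 0 < Real.log 2 := Real.log_pos one_lt_two
  refine ⟨1 + N * 20000 / Real.log 2 * ((2 * K1 + 2 * K2) * (1 + C₂) + 1), by positivity, ?_⟩
  intro lam φ hφ ι _ c hc
  have hlam := hφ.pos
  have hdl := dl_pos hlam
  choose s t ht hed hT hdb using fun i => H lam φ hφ (c i) (hc.mem i)
  set δ : ι → ℝ := fun i => β2 * dl lam * Real.cosh (s i) with hδ
  have hδ0 : ∀ i, 0 < δ i := fun i => by
    have := Real.cosh_pos (s i)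
    positivity
  have hTδ : ∀ i, D * δ i ≤ T1 := hT
  set d := dl lam with hd
  have hdinv : 1 / d = 2 * Real.sqrt (1 + lam) := by
    rw [hd]
    unfold dl
    field_simp
  set r := Real.sqrt (1 + lam) with hr
  have hr1 : 1 ≤ r := Real.one_le_sqrt.2 (by linarith)
  have hr2 : r * r = 1 + lam := Real.mul_self_sqrt (by linarith)
  have hrl : Real.sqrt lam ≤ r := Real.sqrt_le_sqrt (by linarith)
  -- the equation and the zeros on the lines
  obtain ⟨Ux, Uxx, Uy, Uyy, hS⟩ := merc hρc hφ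
  have hcont : ContinuousOn φ {0}ᶜ := hφ.smooth.continuousOn
  obtain ⟨Bφ, hBφ0, hBφ⟩ := phi_bound hcont
  have hUb : ∀ x y, |UU φ x y| ≤ Bφ := fun x y => by
    rw [UU_PP hφ.hom]
    exact hBφ _ (PP_sph x y)
  have hper := UU_per φ
  obtain ⟨hz1, hz2⟩ := zeros_both hS hper hUb (Λ := lam * ρM) (by positivity)
    (QQ_nonneg hlam hρ0) (QQ_le hlam hρM0 hρM) (K := 4 * (lam * ρM)) (by positivity)
    (QQ_exp hlam hρM0 hρM)
  set z1 : ℝ := (2 * Kp + 1) * (2 * π * Real.sqrt (lam * ρM)) with hz1d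
  set z2 : ℝ := 12 * Real.sqrt (4 * (lam * ρM)) + 2 with hz2d
  have hz10 : 0 ≤ z1 := by positivity
  have hz20 : 0 ≤ z2 := by positivity
  have hc1 : ∀ a, (∃ y, UU φ a y ≠ 0) → ∀ Z : Finset ℝ, (∀ z ∈ Z, z ∈ {y | |y| ≤ Θ ∧
      UU φ a y = 0}) → (Z.card : ℝ) ≤ z1 := fun a ha Z hZ =>
    per_count Real.two_pi_pos (hper a) (hz1 a ha) hKp hZ
  have hf1 : ∀ a, (∃ y, UU φ a y ≠ 0) → {y | |y| ≤ Θ ∧ UU φ a y = 0}.Finite := fun a ha =>
    LT.finite_of_bound (hc1 a ha)
  have hc2 : ∀ b, (∃ x, UU φ x b ≠ 0) → ∀ Z : Finset ℝ, (∀ z ∈ Z, z ∈ {x | UU φ x b = 0}) →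
      (Z.card : ℝ) ≤ z2 := fun b hb Z hZ => hz2 b hb Z hZ
  have hf2 : ∀ b, (∃ x, UU φ x b ≠ 0) → {x | UU φ x b = 0}.Finite := fun b hb =>
    LT.finite_of_bound (hc2 b hb)
  set V1 : ℝ → Finset ℝ := fun a => if h : ∃ y, UU φ a y ≠ 0 then (hf1 a h).toFinset else ∅
    with hV1
  set V2 : ℝ → Finset ℝ := fun b => if h : ∃ x, UU φ x b ≠ 0 then (hf2 b h).toFinset else ∅
    with hV2
  have hV1c : ∀ a, ((V1 a).card : ℝ≥0∞) ≤ ENNReal.ofReal z1 := by
    intro a
    rw [← ENNReal.ofReal_natCast]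
    refine ENNReal.ofReal_le_ofReal ?_
    by_cases h : ∃ y, UU φ a y ≠ 0
    · rw [hV1]
      simp only [dif_pos h]
      exact hc1 a h _ fun z hz => (hf1 a h).mem_toFinset.1 hz
    · rw [hV1]
      simp only [dif_neg h]
      simpa using hz10
  have hV2c : ∀ b, ((V2 b).card : ℝ≥0∞) ≤ ENNReal.ofReal z2 := by
    intro b
    rw [← ENNReal.ofReal_natCast]
    refine ENNReal.ofReal_le_ofReal ?_
    by_cases h : ∃ x, UU φ x b ≠ 0
    · rw [hV2]
      simp only [dif_pos h]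
      exact hc2 b h _ fun z hz => (hf2 b h).mem_toFinset.1 hz
    · rw [hV2]
      simp only [dif_neg h]
      simpa using hz20
  -- almost all lines are good
  obtain ⟨x1, y1, hne⟩ := UU_ne hφ
  have hg1 : ∀ᵐ a, ∃ y, UU φ a y ≠ 0 := by
    have h1 : {a : ℝ | UU φ a y1 = 0}.Finite := hf2 y1 ⟨x1, hne⟩
    filter_upwards [h1.countable.ae_notMem volume] with a ha
    exact ⟨y1, ha⟩
  have hg2 : ∀ᵐ b, ∃ x, UU φ x b ≠ 0 := by
    have h1 : {b : ℝ | UU φ x1 b = 0}.Countable := by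
      have h2 : {b : ℝ | UU φ x1 b = 0} ⊆ ⋃ n : ℕ, {y | |y| ≤ n * (2 * π) ∧ UU φ x1 y = 0} := by
        intro b hb
        obtain ⟨n, hn⟩ := exists_nat_ge (|b| / (2 * π))
        rw [div_le_iff₀ (by positivity)] at hn
        exact mem_iUnion.2 ⟨n, hn, hb⟩
      refine (countable_iUnion fun n => Finite.countable ?_).mono h2
      exact LT.finite_of_bound fun Z hZ =>
        per_count Real.two_pi_pos (hper x1) (hz1 x1 ⟨y1, hne⟩) (D := n) le_rfl hZ
    filter_upwards [h1.ae_notMem volume] with b hb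
    exact ⟨x1, hb⟩
  -- the weights
  have hw : ∀ x y : ℝ, ∑ i, (if |x - s i| ≤ D * δ i ∧ |y - t i| ≤ D * δ i then
      ENNReal.ofReal (1 / δ i) else 0) ≤ ENNReal.ofReal (W1 * r / Real.cosh x) := by
    intro x y
    have hcx := Real.cosh_pos x
    have key : ∀ i, |x - s i| ≤ D * δ i ∧ |y - t i| ≤ D * δ i →
        ed (c i) (PP x y) ≤ A3 * d ∧ 1 / δ i ≤ Real.exp T1 * (2 / β2) * r / Real.cosh x := by
      rintro i ⟨h1, h2⟩
      have hci := Real.cosh_pos (s i)
      have k1 : Real.cosh x ≤ Real.cosh (s i) * Real.exp T1 := by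
        refine (cosh_le_mul x (s i)).trans ?_
        have := Real.exp_le_exp.2 (h1.trans (hTδ i))
        gcongr
      have k2 : Real.cosh (s i) ≤ Real.cosh x * Real.exp T1 := by
        refine (cosh_le_mul (s i) x).trans ?_
        have : |s i - x| ≤ T1 := by
          rw [abs_sub_comm]
          exact h1.trans (hTδ i)
        have := Real.exp_le_exp.2 this
        gcongr
      constructor
      · have k3 := ed_le_of (θ := y) (θ' := t i) (h1.trans (hTδ i))
        have k4 : (x - s i) ^ 2 ≤ (D * δ i) ^ 2 := by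
          rw [← sq_abs]
          exact pow_le_pow_left₀ (abs_nonneg _) h1 2
        have k5 : (y - t i) ^ 2 ≤ (D * δ i) ^ 2 := by
          rw [← sq_abs]
          exact pow_le_pow_left₀ (abs_nonneg _) h2 2
        have k6 : ed (PP x y) (PP (s i) (t i)) ^ 2 ≤ (D * β2 * Real.sqrt Y * d) ^ 2 := by
          refine k3.trans ?_
          rw [div_le_iff₀ (by positivity)]
          have e1 : (x - s i) ^ 2 * Real.exp (T1 ^ 2 / 2) + (y - t i) ^ 2 ≤
              (D * δ i) ^ 2 * (Real.exp (T1 ^ 2 / 2) + 1) := by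
            have := Real.exp_pos (T1 ^ 2 / 2)
            nlinarith
          have e2 : (D * β2 * Real.sqrt Y * d) ^ 2 = (D * β2 * d) ^ 2 * Y := by
            have := Real.sq_sqrt hY0.le
            rw [mul_pow, mul_pow, this]
            ring
          have e3 : (D * δ i) ^ 2 * (Real.exp (T1 ^ 2 / 2) + 1) =
              (D * β2 * d) ^ 2 * (Real.exp (T1 ^ 2 / 2) + 1) *
                (Real.cosh (s i) * Real.cosh (s i)) := by
            rw [hδ]
            ring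
          have e4 : (D * β2 * d) ^ 2 * (Real.exp (T1 ^ 2 / 2) + 1) *
                (Real.cosh (s i) * Real.cosh (s i)) ≤
              (D * β2 * d) ^ 2 * (Real.exp (T1 ^ 2 / 2) + 1) *
                (Real.cosh x * Real.exp T1 * Real.cosh (s i)) := by gcongr
          have e5 : (D * β2 * d) ^ 2 * (Real.exp (T1 ^ 2 / 2) + 1) *
                (Real.cosh x * Real.exp T1 * Real.cosh (s i)) =
              (D * β2 * d) ^ 2 * Y * (Real.cosh x * Real.cosh (s i)) := by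
            rw [hY]
            ring
          rw [e2]
          linarith
        have k7 : ed (PP x y) (PP (s i) (t i)) ≤ D * β2 * Real.sqrt Y * d :=
          (abs_le_of_sq_le_sq' k6 (by positivity)).2
        have k8 := ed_tri (c i) (PP (s i) (t i)) (PP x y)
        have k9 := hed i
        have e1 := ed_comm (c i) (PP (s i) (t i))
        have e2 := ed_comm (PP (s i) (t i)) (PP x y)
        have e3 : A3 * d = D * β2 * Real.sqrt Y * d + d := by
          rw [hA3]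
          ring
        linarith
      · have e1 : Real.exp T1 * (2 / β2) * r = Real.exp T1 / (β2 * d) := by
          have : 2 * r = 1 / d := hdinv.symm
          have e0 : Real.exp T1 * (2 / β2) * r = Real.exp T1 / β2 * (2 * r) := by ring
          rw [e0, this]
          field_simp
        rw [e1, div_div, div_le_div_iff₀ (hδ0 i) (by positivity), one_mul]
        have e2 : Real.exp T1 * δ i = β2 * d * (Real.cosh (s i) * Real.exp T1) := by
          rw [hδ]
          ring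
        rw [e2]
        gcongr
    have hcard := mult_count (ρ := ρ) (C₂ := C₂) (φ := φ) (A := A3) (D := Dm) hlam hβ hC1
      (fun p hp q hq h => ed_disc hρc hρM0 hρM hlam hβ hβC hp hq h) hc hDm (PP x y)
    calc ∑ i, (if |x - s i| ≤ D * δ i ∧ |y - t i| ≤ D * δ i then
          ENNReal.ofReal (1 / δ i) else 0)
        ≤ ∑ i, (if ed (c i) (PP x y) ≤ A3 * dl lam then
          ENNReal.ofReal (Real.exp T1 * (2 / β2) * r / Real.cosh x) else 0) := by
          refine Finset.sum_le_sum fun i _ => ?_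
          by_cases h : |x - s i| ≤ D * δ i ∧ |y - t i| ≤ D * δ i
          · obtain ⟨h1, h2⟩ := key i h
            rw [if_pos h, if_pos h1]
            exact ENNReal.ofReal_le_ofReal h2
          · rw [if_neg h]
            exact zero_le
      _ = ((Finset.univ.filter fun i => ed (c i) (PP x y) ≤ A3 * dl lam).card : ℝ≥0∞) *
          ENNReal.ofReal (Real.exp T1 * (2 / β2) * r / Real.cosh x) := by
          rw [← Finset.sum_filter, Finset.sum_const, nsmul_eq_mul]
      _ ≤ ENNReal.ofReal W0 *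
          ENNReal.ofReal (Real.exp T1 * (2 / β2) * r / Real.cosh x) := by
          refine mul_le_mul_left ?_ _
          rw [← ENNReal.ofReal_natCast]
          exact ENNReal.ofReal_le_ofReal hcard
      _ = ENNReal.ofReal (W1 * r / Real.cosh x) := by
          rw [← ENNReal.ofReal_mul hW00.le]
          congr 1
          rw [hW1]
          ring
  -- the two sums
  have htot1 := total (ι := ι) s t δ D V1 (ENNReal.ofReal z1)
    (fun x => ENNReal.ofReal (W1 * r / Real.cosh x)) hV1c hw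
  have hsum1 : ∫⁻ x, ENNReal.ofReal z1 * ENNReal.ofReal (W1 * r / Real.cosh x) ≤
      ENNReal.ofReal (z1 * (2 * π * (W1 * r))) := by
    rw [lintegral_const_mul' _ _ ENNReal.ofReal_ne_top, ENNReal.ofReal_mul hz10]
    exact mul_le_mul_right (lint_cosh (by positivity)) _
  obtain ⟨hX1, hn1⟩ := sum_floor (by positivity) (htot1.trans hsum1)
  have htot2 := total (ι := ι) t s δ D V2 (ENNReal.ofReal z2)
    (fun y => (Icc (-Θ) Θ).indicator (fun _ => ENNReal.ofReal (W1 * r)) y) hV2c (by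
      intro y x
      by_cases hy : y ∈ Icc (-Θ) Θ
      · rw [indicator_of_mem hy]
        refine le_trans (le_of_eq ?_) ((hw x y).trans (ENNReal.ofReal_le_ofReal ?_))
        · refine Finset.sum_congr rfl fun i _ => ?_
          simp only [and_comm]
        · exact div_le_self (by positivity) (Real.one_le_cosh x)
      · rw [indicator_of_notMem hy]
        refine le_of_eq (Finset.sum_eq_zero fun i _ => ?_)
        rw [if_neg]
        rintro ⟨h1, -⟩
        apply hy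
        have h2 := ht i
        have h3 := hTδ i
        rw [abs_le] at h1
        exact ⟨by linarith [h2.1, h1.1], by linarith [h2.2, h1.2]⟩)
  have hsum2 : ∫⁻ y, ENNReal.ofReal z2 * (Icc (-Θ) Θ).indicator
      (fun _ => ENNReal.ofReal (W1 * r)) y ≤ ENNReal.ofReal (z2 * (2 * Θ * (W1 * r))) := by
    rw [lintegral_const_mul' _ _ ENNReal.ofReal_ne_top, lintegral_indicator measurableSet_Icc,
      setLIntegral_const, Real.volume_Icc, ← ENNReal.ofReal_mul (by positivity),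
      ← ENNReal.ofReal_mul hz20]
    refine ENNReal.ofReal_le_ofReal (le_of_eq ?_)
    ring
  obtain ⟨hX2, hn2⟩ := sum_floor (by positivity) (htot2.trans hsum2)
  set n1 : ι → ℕ := fun i => ⌊(ENNReal.ofReal (1 / δ i) * ∫⁻ a in {a | |a - s i| ≤ D * δ i},
    (((V1 a).filter fun z => |z - t i| ≤ D * δ i).card : ℝ≥0∞)).toReal⌋₊ with hn1d
  set n2 : ι → ℕ := fun i => ⌊(ENNReal.ofReal (1 / δ i) * ∫⁻ a in {a | |a - t i| ≤ D * δ i},
    (((V2 a).filter fun z => |z - s i| ≤ D * δ i).card : ℝ≥0∞)).toReal⌋₊ with hn2d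
  -- the doubling index of a disc
  have hdisc : ∀ i, doubling ρ φ (c i) (C / Real.sqrt lam) ≤
      1 + N * 20000 / Real.log 2 * (2 * (n1 i : ℝ) + 2 * (n2 i : ℝ) + 1) := by
    intro i
    refine (hdb i (n1 i) (n2 i) ?_ ?_).trans (le_of_eq ?_)
    · intro x hx1 hx2
      obtain ⟨a, ha, hga, hcard⟩ := use_pick (V := V1) hg1 (t₀ := t i) (hδ0 i) rfl (hX1 i) hx1 hx2
      refine ⟨a, ha, _, hcard, fun y hy h0 => ?_⟩
      refine Finset.mem_filter.2 ⟨?_, hy⟩
      rw [hV1]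
      simp only [dif_pos hga]
      rw [(hf1 a hga).mem_toFinset]
      refine ⟨?_, h0⟩
      have h2 := ht i
      have h3 := hTδ i
      have hy' : |y - t i| ≤ D * δ i := hy
      rw [abs_le] at hy' ⊢
      exact ⟨by linarith [h2.1, hy'.1], by linarith [h2.2, hy'.2]⟩
    · intro x hx1 hx2
      obtain ⟨a, ha, hga, hcard⟩ := use_pick (V := V2) hg2 (t₀ := s i) (hδ0 i) rfl (hX2 i) hx1 hx2
      refine ⟨a, ha, _, hcard, fun y hy h0 => ?_⟩
      refine Finset.mem_filter.2 ⟨?_, hy⟩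
      rw [hV2]
      simp only [dif_pos hga]
      rw [(hf2 a hga).mem_toFinset]
      exact h0
    · ring
  -- conclusion
  have hcard1 : (1 : ℝ) ≤ Fintype.card ι := by
    have h1 : (0 : ℝ) < Fintype.card ι := lt_of_lt_of_le (by positivity) hc.lower
    have h2 : 0 < Fintype.card ι := by exact_mod_cast h1
    exact_mod_cast h2
  have hcard2 : lam ≤ C₂ * Fintype.card ι := by
    have := hc.lower
    rw [inv_mul_le_iff₀ hC2] at this
    exact this
  have hcard3 : 1 + lam ≤ (1 + C₂) * Fintype.card ι := by nlinarith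
  have hN0 : 0 ≤ (N : ℝ) * 20000 / Real.log 2 := by positivity
  have hs1 : Real.sqrt (lam * ρM) = Real.sqrt lam * Real.sqrt ρM := Real.sqrt_mul hlam.le _
  have hs2 : Real.sqrt (4 * (lam * ρM)) = 2 * (Real.sqrt lam * Real.sqrt ρM) := by
    rw [Real.sqrt_mul (by norm_num), hs1]
    congr 1
    rw [show (4 : ℝ) = 2 ^ 2 by norm_num, Real.sqrt_sq (by norm_num)]
  have hsum1' : ∑ i, (n1 i : ℝ) ≤ K1 * (1 + lam) := by
    refine hn1.trans ?_
    rw [hz1d, hs1, hK1, ← hr2]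
    calc (2 * (Kp : ℝ) + 1) * (2 * π * (Real.sqrt lam * Real.sqrt ρM)) * (2 * π * (W1 * r))
        ≤ (2 * (Kp : ℝ) + 1) * (2 * π * (r * Real.sqrt ρM)) * (2 * π * (W1 * r)) := by gcongr
      _ = _ := by ring
  have hsum2' : ∑ i, (n2 i : ℝ) ≤ K2 * (1 + lam) := by
    refine hn2.trans ?_
    rw [hz2d, hs2, hK2, ← hr2]
    calc (12 * (2 * (Real.sqrt lam * Real.sqrt ρM)) + 2) * (2 * Θ * (W1 * r))
        ≤ (12 * (2 * (r * Real.sqrt ρM)) + 2 * r) * (2 * Θ * (W1 * r)) := by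
          have : (2 : ℝ) ≤ 2 * r := by linarith
          gcongr
      _ = _ := by ring
  calc ∑ i, doubling ρ φ (c i) (C / Real.sqrt lam)
      ≤ ∑ i, (1 + N * 20000 / Real.log 2 * (2 * (n1 i : ℝ) + 2 * (n2 i : ℝ) + 1)) :=
        Finset.sum_le_sum fun i _ => hdisc i
    _ = Fintype.card ι + N * 20000 / Real.log 2 * (2 * ∑ i, (n1 i : ℝ) + 2 * ∑ i, (n2 i : ℝ) +
        Fintype.card ι) := by
        rw [Finset.sum_add_distrib, ← Finset.mul_sum, Finset.sum_add_distrib,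
          Finset.sum_add_distrib, ← Finset.mul_sum, ← Finset.mul_sum, Finset.sum_const,
          Finset.card_univ, nsmul_eq_mul, mul_one]
    _ ≤ Fintype.card ι + N * 20000 / Real.log 2 * (2 * (K1 * ((1 + C₂) * Fintype.card ι)) +
        2 * (K2 * ((1 + C₂) * Fintype.card ι)) + Fintype.card ι) := by
        have k1 : ∑ i, (n1 i : ℝ) ≤ K1 * ((1 + C₂) * Fintype.card ι) :=
          hsum1'.trans (mul_le_mul_of_nonneg_left hcard3 hK10)
        have k2 : ∑ i, (n2 i : ℝ) ≤ K2 * ((1 + C₂) * Fintype.card ι) :=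
          hsum2'.trans (mul_le_mul_of_nonneg_left hcard3 hK20)
        gcongr
    _ = (1 + N * 20000 / Real.log 2 * ((2 * K1 + 2 * K2) * (1 + C₂) + 1)) * Fintype.card ι := by
        ring

end Pool.Agent.NH44.SR
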