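import Pool.Agent.NH44.LT.Sturm
import Pool.Agent.Y291.DB.Modes

/-!
# The maximum principle on a polar cap
-/

set_option autoImplicit false

open MeasureTheory Real Filter Topology Set Function
open Pool.Agent.Y291.DB (Sol)

namespace Pool.Agent.NH44.SR

theorem Sol_neg {q : ℝ → ℝ} {U Ux Uxx Uy Uyy : ℝ → ℝ → ℝ} (h : Sol q U Ux Uxx Uy Uyy) :
    Sol q (fun x y => -U x y) (fun x y => -Ux x y) (fun x y => -Uxx x y) (fun x y => -Uy x y)
      (fun x y => -Uyy x y) := by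
  refine ⟨h.qc, h.c.neg, h.cx.neg, h.cxx.neg, h.cy.neg, h.cyy.neg, fun x y => (h.dx x y).neg,
    fun x y => (h.dxx x y).neg, fun x y => (h.dy x y).neg, fun x y => (h.dyy x y).neg,
    fun x y => ?_⟩
  have := h.pde x y
  linarith

theorem Sol_refl {q : ℝ → ℝ} {U Ux Uxx Uy Uyy : ℝ → ℝ → ℝ} (h : Sol q U Ux Uxx Uy Uyy) :
    Sol (fun x => q (-x)) (fun x y => U (-x) y) (fun x y => -Ux (-x) y) (fun x y => Uxx (-x) y)
      (fun x y => Uy (-x) y) (fun x y => Uyy (-x) y) := by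
  have cc : ∀ K : ℝ → ℝ → ℝ, Continuous (uncurry K) →
      Continuous (uncurry fun x y => K (-x) y) := by
    intro K hK
    have h1 : Continuous fun z : ℝ × ℝ => uncurry K (-z.1, z.2) := hK.comp (by fun_prop)
    exact h1
  refine ⟨h.qc.comp continuous_neg, cc _ h.c, (cc _ h.cx).neg, cc _ h.cxx, cc _ h.cy, cc _ h.cyy,
    fun x y => ?_, fun x y => ?_, fun x y => h.dy _ _, fun x y => h.dyy _ _, fun x y => h.pde _ _⟩
  · have := (h.dx (-x) y).scomp x (hasDerivAt_neg x)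
    simpa [Function.comp_def] using this
  · have := ((h.dxx (-x) y).scomp x (hasDerivAt_neg x)).fun_neg
    simpa [Function.comp_def] using this

theorem cap_aux {q : ℝ → ℝ} {U Ux Uxx Uy Uyy : ℝ → ℝ → ℝ} (h : Sol q U Ux Uxx Uy Uyy)
    (hper : ∀ x y, U x (y + 2 * π) = U x y) {B : ℝ} (hB : ∀ x y, |U x y| ≤ B) {s1 m : ℝ}
    (hq : ∀ s, s1 ≤ s → q s ≤ 1 / 4 * Real.exp (-2 * (s - s1))) (hm0 : 0 ≤ m)
    (hm : ∀ y, U s1 y ≤ m) {ε : ℝ} (hε : 0 < ε) {s y : ℝ} (hs : s1 ≤ s) :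
    U s y ≤ m * (2 - Real.exp (-2 * (s - s1))) + ε * (s - s1 + 3 - Real.exp (-(s - s1))) := by
  set H : ℝ → ℝ := fun s => m * (2 - Real.exp (-2 * (s - s1))) +
    ε * (s - s1 + 3 - Real.exp (-(s - s1))) with hH
  set H1 : ℝ → ℝ := fun s => m * (2 * Real.exp (-2 * (s - s1))) +
    ε * (1 + Real.exp (-(s - s1))) with hH1
  set H2 : ℝ → ℝ := fun s => m * (-4 * Real.exp (-2 * (s - s1))) +
    ε * (-Real.exp (-(s - s1))) with hH2
  have a1 : ∀ s : ℝ, HasDerivAt (fun s : ℝ => Real.exp (-2 * (s - s1)))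
      (-2 * Real.exp (-2 * (s - s1))) s := by
    intro s
    have h1 : HasDerivAt (fun s : ℝ => -2 * (s - s1)) (-2) s := by
      simpa using ((hasDerivAt_id s).sub_const s1).const_mul (-2 : ℝ)
    refine h1.exp.congr_deriv ?_
    ring
  have a2 : ∀ s : ℝ, HasDerivAt (fun s : ℝ => Real.exp (-(s - s1)))
      (-Real.exp (-(s - s1))) s := by
    intro s
    have h1 : HasDerivAt (fun s : ℝ => -(s - s1)) (-1) s :=
      ((hasDerivAt_id s).sub_const s1).neg
    refine h1.exp.congr_deriv ?_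
    ring
  have dH : ∀ s, HasDerivAt H (H1 s) s := by
    intro s
    have h1 := (((a1 s).const_sub 2).const_mul m).add
      (((((hasDerivAt_id s).sub_const s1).add_const 3).sub (a2 s)).const_mul ε)
    refine h1.congr_deriv ?_
    rw [hH1]
    ring
  have dH1 : ∀ s, HasDerivAt H1 (H2 s) s := by
    intro s
    have h1 := (((a1 s).const_mul 2).const_mul m).add (((a2 s).const_add 1).const_mul ε)
    refine h1.congr_deriv ?_
    rw [hH2]
    ring
  have hHc : Continuous H := continuous_iff_continuousAt.2 fun t => (dH t).continuousAt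
  -- bounds
  have b1 : ∀ s, s1 ≤ s → m + 2 * ε ≤ H s ∧ ε * (s - s1) ≤ H s := by
    intro s hs
    have k1 : Real.exp (-2 * (s - s1)) ≤ 1 := Real.exp_le_one_iff.2 (by linarith)
    have k2 : Real.exp (-(s - s1)) ≤ 1 := Real.exp_le_one_iff.2 (by linarith)
    have k3 : m * 1 ≤ m * (2 - Real.exp (-2 * (s - s1))) :=
      mul_le_mul_of_nonneg_left (by linarith) hm0
    constructor
    · have k4 : ε * 2 ≤ ε * (s - s1 + 3 - Real.exp (-(s - s1))) :=
        mul_le_mul_of_nonneg_left (by linarith) hε.le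
      rw [hH]
      simp only
      linarith
    · have k4 : ε * (s - s1) ≤ ε * (s - s1 + 3 - Real.exp (-(s - s1))) :=
        mul_le_mul_of_nonneg_left (by linarith) hε.le
      rw [hH]
      simp only
      linarith
  have hHpos : ∀ s, s1 ≤ s → 0 < H s := fun s hs => by
    have := (b1 s hs).1
    linarith
  have b2 : ∀ s, s1 ≤ s → H2 s + q s * H s < 0 := by
    intro s hs
    have k1 := hq s hs
    have k2 := Real.exp_pos (-2 * (s - s1))
    have k3 := Real.exp_pos (-(s - s1))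
    have k4 : Real.exp (-2 * (s - s1)) = Real.exp (-(s - s1)) ^ 2 := by
      rw [← Real.exp_nat_mul]
      congr 1
      push_cast
      ring
    set e := Real.exp (-(s - s1)) with he
    have k5 : e * (s - s1 + 3) ≤ 3 := by
      have k6 : s - s1 + 1 ≤ Real.exp (s - s1) := Real.add_one_le_exp _
      have k7 : e * Real.exp (s - s1) = 1 := by
        rw [he, ← Real.exp_add]
        simp
      have k8 : e * (s - s1 + 3) ≤ e * (3 * Real.exp (s - s1)) :=
        mul_le_mul_of_nonneg_left (by linarith) k3.le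
      nlinarith
    have k6 : H s ≤ m * 2 + ε * (s - s1 + 3) := by
      rw [hH]
      simp only
      have k7 : m * (2 - Real.exp (-2 * (s - s1))) ≤ m * 2 :=
        mul_le_mul_of_nonneg_left (by linarith) hm0
      have k8 : ε * (s - s1 + 3 - e) ≤ ε * (s - s1 + 3) :=
        mul_le_mul_of_nonneg_left (by linarith) hε.le
      rw [← he]
      linarith
    have k7 : q s * H s ≤ 1 / 4 * e ^ 2 * (m * 2 + ε * (s - s1 + 3)) := by
      rw [k4] at k1
      exact (mul_le_mul_of_nonneg_right k1 (hHpos s hs).le).trans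
        (mul_le_mul_of_nonneg_left k6 (by positivity))
    have k8 : 1 / 4 * e ^ 2 * (m * 2 + ε * (s - s1 + 3)) ≤ 1 / 2 * (m * e ^ 2) + 3 / 4 * (ε * e) := by
      have k9 : ε * e * (e * (s - s1 + 3)) ≤ ε * e * 3 :=
        mul_le_mul_of_nonneg_left k5 (by positivity)
      nlinarith
    have k9 : 0 < ε * e := mul_pos hε k3
    have k10 : 0 ≤ m * e ^ 2 := by positivity
    have k11 : H2 s = -4 * (m * e ^ 2) - ε * e := by
      rw [hH2]
      simp only
      rw [k4, ← he]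
      ring
    rw [k11]
    linarith
  show U s y ≤ H s
  by_contra hcon
  rw [not_le] at hcon
  have hBU : ∀ x y, U x y ≤ B := fun x y => (le_abs_self _).trans (hB x y)
  have hB0 : 0 ≤ B := (abs_nonneg _).trans (hB 0 0)
  set T := s - s1 + (B + 1) / ε with hT
  have hTs : s - s1 ≤ T := by
    have : 0 ≤ (B + 1) / ε := by positivity
    linarith
  have hT0 : 0 ≤ T := by linarith
  have hTB : B < ε * T := by
    have : ε * ((B + 1) / ε) = B + 1 := by field_simp
    have h1 : 0 ≤ ε * (s - s1) := mul_nonneg hε.le (by linarith)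
    rw [hT, mul_add, this]
    linarith
  -- the maximum of the ratio
  have hcomp : IsCompact (Icc s1 (s1 + T) ×ˢ Icc 0 (2 * π)) := isCompact_Icc.prod isCompact_Icc
  have hUc : Continuous fun p : ℝ × ℝ => U p.1 p.2 := h.c
  have hcont : ContinuousOn (fun p : ℝ × ℝ => U p.1 p.2 / H p.1)
      (Icc s1 (s1 + T) ×ˢ Icc 0 (2 * π)) := by
    refine hUc.continuousOn.div (hHc.comp continuous_fst).continuousOn fun p hp => ?_
    exact (hHpos p.1 hp.1.1).ne'
  obtain ⟨p, hp, hmax⟩ := hcomp.exists_isMaxOn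
    ⟨(s1, 0), ⟨⟨le_rfl, by linarith⟩, ⟨le_rfl, by positivity⟩⟩⟩ hcont
  set κ := U p.1 p.2 / H p.1 with hκ
  have hperx : ∀ x, Function.Periodic (U x) (2 * π) := fun x => hper x
  have hall : ∀ x ∈ Icc s1 (s1 + T), ∀ y, U x y ≤ κ * H x := by
    intro x hx y
    obtain ⟨y', hy', e⟩ := (hperx x).exists_mem_Ico₀ (by positivity) y
    rw [e]
    have h1 : U x y' / H x ≤ κ := hmax (show (x, y') ∈ _ from ⟨hx, ⟨hy'.1, hy'.2.le⟩⟩)
    rwa [div_le_iff₀ (hHpos x hx.1)] at h1
  have hκ1 : 1 < κ := by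
    have h1 := hall s ⟨hs, by linarith⟩ y
    by_contra h2
    rw [not_lt] at h2
    have h3 := mul_le_mul_of_nonneg_right h2 (hHpos s hs).le
    linarith
  have hUp : U p.1 p.2 = κ * H p.1 := by
    rw [hκ, div_mul_cancel₀ _ (hHpos p.1 hp.1.1).ne']
  have hp1 : s1 < p.1 := by
    refine lt_of_le_of_ne hp.1.1 fun h1 => ?_
    have h2 := hm p.2
    have h3 := (b1 s1 le_rfl).1
    rw [← h1] at hUp
    nlinarith
  have hp2 : p.1 < s1 + T := by
    refine lt_of_le_of_ne hp.1.2 fun h1 => ?_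
    have h2 := hBU p.1 p.2
    have h3 := (b1 p.1 hp.1.1).2
    have h4 : p.1 - s1 = T := by linarith
    rw [h4] at h3
    nlinarith
  have m1 : IsLocalMin (fun x => κ * H x - U x p.2) p.1 := by
    filter_upwards [Icc_mem_nhds hp1 hp2] with x hx
    have := hall x hx p.2
    rw [hUp]
    linarith
  have m2 : IsLocalMin (fun y => κ * H p.1 - U p.1 y) p.2 := by
    refine Eventually.of_forall fun y => ?_
    have := hall p.1 hp.1 y
    show κ * H p.1 - U p.1 p.2 ≤ κ * H p.1 - U p.1 y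
    rw [hUp]
    linarith
  have n1 := LT.snd_nonneg (F := fun x => κ * H x - U x p.2) (F' := fun x => κ * H1 x - Ux x p.2)
    (F'' := fun x => κ * H2 x - Uxx x p.2) (fun x => ((dH x).const_mul κ).sub (h.dx x p.2))
    (fun x => ((dH1 x).const_mul κ).sub (h.dxx x p.2)) m1
  have n2 := LT.snd_nonneg (F := fun y => κ * H p.1 - U p.1 y) (F' := fun y => -Uy p.1 y)
    (F'' := fun y => -Uyy p.1 y) (fun y => (h.dy p.1 y).const_sub _)
    (fun y => (h.dyy p.1 y).neg) m2
  have n3 := h.pde p.1 p.2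
  have n4 := b2 p.1 hp.1.1
  rw [hUp] at n3
  have n5 : κ * (H2 p.1 + q p.1 * H p.1) < 0 := mul_neg_of_pos_of_neg (by linarith) n4
  nlinarith

/-- The maximum principle on a cap. -/
theorem cap {q : ℝ → ℝ} {U Ux Uxx Uy Uyy : ℝ → ℝ → ℝ} (h : Sol q U Ux Uxx Uy Uyy)
    (hper : ∀ x y, U x (y + 2 * π) = U x y) {B : ℝ} (hB : ∀ x y, |U x y| ≤ B) {s1 m : ℝ}
    (hq : ∀ s, s1 ≤ s → q s ≤ 1 / 4 * Real.exp (-2 * (s - s1)))
    (hm : ∀ y, |U s1 y| ≤ m) {s y : ℝ} (hs : s1 ≤ s) : |U s y| ≤ 2 * m := by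
  have hm0 : 0 ≤ m := (abs_nonneg _).trans (hm 0)
  have key : ∀ {U Ux Uxx Uy Uyy : ℝ → ℝ → ℝ}, Sol q U Ux Uxx Uy Uyy →
      (∀ x y, U x (y + 2 * π) = U x y) → (∀ x y, |U x y| ≤ B) → (∀ y, |U s1 y| ≤ m) →
      U s y ≤ 2 * m := by
    intro U Ux Uxx Uy Uyy h hper hB hm
    refine le_of_forall_pos_le_add fun ε hε => ?_
    have hG : 0 ≤ s - s1 + 3 := by linarith
    have h1 := cap_aux h hper hB hq hm0 (fun y => (le_abs_self _).trans (hm y))
      (ε := ε / (s - s1 + 3)) (by positivity) (s := s) (y := y) hs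
    have h2 := Real.exp_pos (-2 * (s - s1))
    have h3 := Real.exp_pos (-(s - s1))
    have h4 : m * (2 - Real.exp (-2 * (s - s1))) ≤ m * 2 :=
      mul_le_mul_of_nonneg_left (by linarith) hm0
    have h5 : ε / (s - s1 + 3) * (s - s1 + 3 - Real.exp (-(s - s1))) ≤
        ε / (s - s1 + 3) * (s - s1 + 3) :=
      mul_le_mul_of_nonneg_left (by linarith) (by positivity)
    have h6 : ε / (s - s1 + 3) * (s - s1 + 3) = ε := by
      have : s - s1 + 3 ≠ 0 := by linarith
      field_simp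
    linarith
  rw [abs_le]
  constructor
  · have := key (Sol_neg h) (fun x y => by rw [hper]) (fun x y => by rw [abs_neg]; exact hB x y)
      (fun y => by rw [abs_neg]; exact hm y)
    linarith
  · exact key h hper hB hm

theorem cap' {q : ℝ → ℝ} {U Ux Uxx Uy Uyy : ℝ → ℝ → ℝ} (h : Sol q U Ux Uxx Uy Uyy)
    (hper : ∀ x y, U x (y + 2 * π) = U x y) {B : ℝ} (hB : ∀ x y, |U x y| ≤ B) {s1 m : ℝ}
    (hq : ∀ s, s1 ≤ s → q (-s) ≤ 1 / 4 * Real.exp (-2 * (s - s1)))
    (hm : ∀ y, |U (-s1) y| ≤ m) {s y : ℝ} (hs : s1 ≤ s) : |U (-s) y| ≤ 2 * m :=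
  cap (Sol_refl h) (fun x y => hper (-x) y) (fun x y => hB (-x) y) hq hm hs

end Pool.Agent.NH44.SR
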