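import Pool.Agent.NH44.SR.Local2
import Pool.Agent.NH44.LT.Cnt

/-!
# The local lemma at all scales and chains of squares
-/

set_option autoImplicit false

open MeasureTheory Real Filter Topology Set Function
open Pool.Agent.Y291.PA (Sol2)
open Pool.Agent.NH44.LT

namespace Pool.Agent.NH44.SR

/-- The local lemma at the scale `δ`. -/
theorem LLs2 : ∃ ε : ℝ, 0 < ε ∧ ∀ (Q : ℝ → ℝ) (U Ux Uxx Uy Uyy : ℝ → ℝ → ℝ), Continuous Q →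
    Sol2 (fun x _ => Q x) U Ux Uxx Uy Uyy → ∀ (p : ℝ × ℝ) (δ : ℝ), 0 < δ →
    (∀ x, |x - p.1| ≤ 26 * δ → |δ ^ 2 * Q x| ≤ ε) → ∀ x1 x2 y1 y2 : ℝ,
    x1 ∈ Icc (p.1 - 4 * δ) (p.1 - 3 * δ) → x2 ∈ Icc (p.1 + 3 * δ) (p.1 + 4 * δ) →
    y1 ∈ Icc (p.2 - 4 * δ) (p.2 - 3 * δ) → y2 ∈ Icc (p.2 + 3 * δ) (p.2 + 4 * δ) →
    ∀ (Z1 Z2 Z3 Z4 : Finset ℝ) (n : ℕ), (∀ t ∈ Icc y1 y2, U x2 t = 0 → t ∈ Z1) →
    (∀ t ∈ Icc x1 x2, U t y2 = 0 → t ∈ Z2) → (∀ t ∈ Icc y1 y2, U x1 t = 0 → t ∈ Z3) →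
    (∀ t ∈ Icc x1 x2, U t y1 = 0 → t ∈ Z4) →
    Z1.card + Z2.card + Z3.card + Z4.card ≤ n → ∀ m : ℝ, 0 < m →
    (∀ x y : ℝ, |x - p.1| ≤ δ → |y - p.2| ≤ δ → |U x y| ≤ m) →
    ∀ x y : ℝ, |x - p.1| ≤ 2 * δ → |y - p.2| ≤ 2 * δ →
      |U x y| ≤ m * Real.exp (20000 * (n + 1)) := by
  obtain ⟨ε, hε, H⟩ := LL2
  refine ⟨ε, hε, ?_⟩
  intro Q U Ux Uxx Uy Uyy hQc hS p δ hδ0 hQε x1 x2 y1 y2 hx1 hx2 hy1 hy2 Z1 Z2 Z3 Z4 n z1 z2 z3 z4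
    hn m hm hsmall x y hx hy
  have hlin1 : ∀ (c x : ℝ), HasDerivAt (fun t => c + δ * t) δ x := by
    intro c x
    have := ((hasDerivAt_id x).const_mul δ).const_add c
    simpa using this
  have cc : ∀ K : ℝ → ℝ → ℝ, Continuous (uncurry K) → ∀ r : ℝ,
      Continuous (uncurry fun x y => r * K (p.1 + δ * x) (p.2 + δ * y)) := by
    intro K hK r
    have h1 : Continuous fun z : ℝ × ℝ => r * uncurry K (p.1 + δ * z.1, p.2 + δ * z.2) :=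
      continuous_const.mul (hK.comp (by fun_prop))
    exact h1
  have hsol : Sol2 (fun x y => δ ^ 2 * Q (p.1 + δ * x) + (fun _ : ℝ => (0 : ℝ)) y)
      (fun x y => U (p.1 + δ * x) (p.2 + δ * y))
      (fun x y => δ * Ux (p.1 + δ * x) (p.2 + δ * y))
      (fun x y => δ ^ 2 * Uxx (p.1 + δ * x) (p.2 + δ * y))
      (fun x y => δ * Uy (p.1 + δ * x) (p.2 + δ * y))
      (fun x y => δ ^ 2 * Uyy (p.1 + δ * x) (p.2 + δ * y)) := by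
    refine ⟨?_, ?_, cc _ hS.cx _, cc _ hS.cxx _, cc _ hS.cy _, cc _ hS.cyy _, ?_, ?_, ?_,
      ?_, ?_⟩
    · have : Continuous fun z : ℝ × ℝ => δ ^ 2 * Q (p.1 + δ * z.1) + (0 : ℝ) := by fun_prop
      exact this
    · have h1 := cc U hS.c 1
      simp only [one_mul] at h1
      exact h1
    · intro x y
      have h1 := (hS.dx (p.1 + δ * x) (p.2 + δ * y)).comp x (hlin1 p.1 x)
      refine h1.congr_deriv ?_
      ring
    · intro x y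
      have h1 := ((hS.dxx (p.1 + δ * x) (p.2 + δ * y)).comp x (hlin1 p.1 x)).const_mul δ
      refine h1.congr_deriv ?_
      ring
    · intro x y
      have h1 := (hS.dy (p.1 + δ * x) (p.2 + δ * y)).comp y (hlin1 p.2 y)
      refine h1.congr_deriv ?_
      ring
    · intro x y
      have h1 := ((hS.dyy (p.1 + δ * x) (p.2 + δ * y)).comp y (hlin1 p.2 y)).const_mul δ
      refine h1.congr_deriv ?_
      ring
    · intro x y
      have h1 : Uxx (p.1 + δ * x) (p.2 + δ * y) + Uyy (p.1 + δ * x) (p.2 + δ * y) =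
        -(Q (p.1 + δ * x) * U (p.1 + δ * x) (p.2 + δ * y)) := hS.pde _ _
      linear_combination (δ ^ 2) * h1
  -- coordinates
  have cx : ∀ x c : ℝ, c + δ * ((x - c) / δ) = x := by
    intro x c
    field_simp
    ring
  have mem : ∀ (c t s1 s2 : ℝ), t ∈ Icc ((s1 - c) / δ) ((s2 - c) / δ) → c + δ * t ∈ Icc s1 s2 := by
    intro c t s1 s2 ht
    have h1 := ht.1
    have h2 := ht.2
    rw [div_le_iff₀ hδ0] at h1
    rw [le_div_iff₀ hδ0] at h2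
    exact ⟨by linarith, by linarith⟩
  have im : ∀ (Z : Finset ℝ) (c t : ℝ), c + δ * t ∈ Z → t ∈ Z.image fun s => (s - c) / δ := by
    intro Z c t ht
    refine Finset.mem_image.2 ⟨_, ht, ?_⟩
    field_simp
    ring
  have hmain := H (fun x => δ ^ 2 * Q (p.1 + δ * x)) (fun _ => 0)
    _ _ _ _ _ (by fun_prop) continuous_const (fun x hx => hQε _ (by
      rw [add_sub_cancel_left, abs_mul, abs_of_pos hδ0]
      nlinarith)) (fun x _ => by rw [abs_zero]; exact hε.le) hsol ((x1 - p.1) / δ)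
    ((x2 - p.1) / δ) ((y1 - p.2) / δ) ((y2 - p.2) / δ)
    ⟨by rw [le_div_iff₀ hδ0]; linarith [hx1.1], by rw [div_le_iff₀ hδ0]; linarith [hx1.2]⟩
    ⟨by rw [le_div_iff₀ hδ0]; linarith [hx2.1], by rw [div_le_iff₀ hδ0]; linarith [hx2.2]⟩
    ⟨by rw [le_div_iff₀ hδ0]; linarith [hy1.1], by rw [div_le_iff₀ hδ0]; linarith [hy1.2]⟩
    ⟨by rw [le_div_iff₀ hδ0]; linarith [hy2.1], by rw [div_le_iff₀ hδ0]; linarith [hy2.2]⟩
    (Z1.image fun s => (s - p.2) / δ) (Z2.image fun s => (s - p.1) / δ)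
    (Z3.image fun s => (s - p.2) / δ) (Z4.image fun s => (s - p.1) / δ) n
    (fun t ht h0 => im _ _ _ (z1 _ (mem _ _ _ _ ht) (by simpa only [cx] using h0)))
    (fun t ht h0 => im _ _ _ (z2 _ (mem _ _ _ _ ht) (by simpa only [cx] using h0)))
    (fun t ht h0 => im _ _ _ (z3 _ (mem _ _ _ _ ht) (by simpa only [cx] using h0)))
    (fun t ht h0 => im _ _ _ (z4 _ (mem _ _ _ _ ht) (by simpa only [cx] using h0)))
    (le_trans (by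
      have k1 := Finset.card_image_le (s := Z1) (f := fun s => (s - p.2) / δ)
      have k2 := Finset.card_image_le (s := Z2) (f := fun s => (s - p.1) / δ)
      have k3 := Finset.card_image_le (s := Z3) (f := fun s => (s - p.2) / δ)
      have k4 := Finset.card_image_le (s := Z4) (f := fun s => (s - p.1) / δ)
      omega) hn) m hm
    (fun x y hx hy => hsmall _ _ (by
      show |p.1 + δ * x - p.1| ≤ δ
      rw [add_sub_cancel_left, abs_mul, abs_of_pos hδ0]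
      nlinarith) (by
      show |p.2 + δ * y - p.2| ≤ δ
      rw [add_sub_cancel_left, abs_mul, abs_of_pos hδ0]
      nlinarith)) ((x - p.1) / δ) ((y - p.2) / δ)
    (by rw [abs_div, abs_of_pos hδ0, div_le_iff₀ hδ0]; exact hx)
    (by rw [abs_div, abs_of_pos hδ0, div_le_iff₀ hδ0]; exact hy)
  simp only [cx] at hmain
  exact hmain

/-- Growth on a large square, from the numbers of zeros on suitable lines. -/
theorem growth2 : ∃ ε : ℝ, 0 < ε ∧ ∀ (Q : ℝ → ℝ) (U Ux Uxx Uy Uyy : ℝ → ℝ → ℝ), Continuous Q →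
    Sol2 (fun x _ => Q x) U Ux Uxx Uy Uyy → ∀ (p : ℝ × ℝ) (δ : ℝ) (N n1 n2 : ℕ), 0 < δ →
    (∀ x, |x - p.1| ≤ (N + 26) * δ → |δ ^ 2 * Q x| ≤ ε) →
    (∀ t, |t - p.1| ≤ (N + 4) * δ → |t + δ - p.1| ≤ (N + 4) * δ → ∃ a ∈ Icc t (t + δ),
      ∃ Z : Finset ℝ, Z.card ≤ n1 ∧ ∀ s, |s - p.2| ≤ (N + 4) * δ → U a s = 0 → s ∈ Z) →
    (∀ t, |t - p.2| ≤ (N + 4) * δ → |t + δ - p.2| ≤ (N + 4) * δ → ∃ a ∈ Icc t (t + δ),
      ∃ Z : Finset ℝ, Z.card ≤ n2 ∧ ∀ s, |s - p.1| ≤ (N + 4) * δ → U s a = 0 → s ∈ Z) →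
    ∀ m : ℝ, 0 < m → (∀ x y : ℝ, |x - p.1| ≤ δ → |y - p.2| ≤ δ → |U x y| ≤ m) →
    ∀ x y : ℝ, |x - p.1| ≤ N * δ → |y - p.2| ≤ N * δ →
      |U x y| ≤ m * Real.exp (N * (20000 * (2 * n1 + 2 * n2 + 1))) := by
  obtain ⟨ε, hε, H⟩ := LLs2
  refine ⟨ε, hε, ?_⟩
  intro Q U Ux Uxx Uy Uyy hQc hS p δ N n1 n2 hδ0 hQε hA hB m hm hsmall x y hx hy
  have hstep : ∀ q' : ℝ × ℝ, |q'.1 - p.1| ≤ N * δ → |q'.2 - p.2| ≤ N * δ → ∀ m : ℝ, 0 < m →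
      (∀ q : ℝ × ℝ, |q.1 - q'.1| ≤ δ → |q.2 - q'.2| ≤ δ → |uncurry U q| ≤ m) →
      ∀ q : ℝ × ℝ, |q.1 - q'.1| ≤ 2 * δ → |q.2 - q'.2| ≤ 2 * δ →
        |uncurry U q| ≤ m * Real.exp (20000 * (2 * n1 + 2 * n2 + 1)) := by
    intro q' h1 h2 m hm hsm q hq1 hq2
    rw [abs_le] at h1 h2
    obtain ⟨x1, hx1, Z3, c3, z3⟩ := hA (q'.1 - 4 * δ) (abs_le.2 ⟨by linarith, by linarith⟩)
      (abs_le.2 ⟨by linarith, by linarith⟩)
    obtain ⟨x2, hx2, Z1, c1, z1⟩ := hA (q'.1 + 3 * δ) (abs_le.2 ⟨by linarith, by linarith⟩)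
      (abs_le.2 ⟨by linarith, by linarith⟩)
    obtain ⟨y1, hy1, Z4, c4, z4⟩ := hB (q'.2 - 4 * δ) (abs_le.2 ⟨by linarith, by linarith⟩)
      (abs_le.2 ⟨by linarith, by linarith⟩)
    obtain ⟨y2, hy2, Z2, c2, z2⟩ := hB (q'.2 + 3 * δ) (abs_le.2 ⟨by linarith, by linarith⟩)
      (abs_le.2 ⟨by linarith, by linarith⟩)
    have hx1' : x1 ∈ Icc (q'.1 - 4 * δ) (q'.1 - 3 * δ) := ⟨hx1.1, by linarith [hx1.2]⟩
    have hx2' : x2 ∈ Icc (q'.1 + 3 * δ) (q'.1 + 4 * δ) := ⟨hx2.1, by linarith [hx2.2]⟩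
    have hy1' : y1 ∈ Icc (q'.2 - 4 * δ) (q'.2 - 3 * δ) := ⟨hy1.1, by linarith [hy1.2]⟩
    have hy2' : y2 ∈ Icc (q'.2 + 3 * δ) (q'.2 + 4 * δ) := ⟨hy2.1, by linarith [hy2.2]⟩
    have hwy : ∀ t ∈ Icc y1 y2, |t - p.2| ≤ (N + 4) * δ := fun t ht =>
      abs_le.2 ⟨by linarith [ht.1, hy1'.1], by linarith [ht.2, hy2'.2]⟩
    have hwx : ∀ t ∈ Icc x1 x2, |t - p.1| ≤ (N + 4) * δ := fun t ht =>
      abs_le.2 ⟨by linarith [ht.1, hx1'.1], by linarith [ht.2, hx2'.2]⟩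
    have h3 := H Q U Ux Uxx Uy Uyy hQc hS q' δ hδ0 (fun x hx => hQε x (by
      rw [abs_le] at hx ⊢
      constructor <;> linarith)) x1 x2 y1 y2 hx1' hx2' hy1' hy2' Z1 Z2 Z3 Z4
      (2 * n1 + 2 * n2) (fun t ht h0 => z1 t (hwy t ht) h0) (fun t ht h0 => z2 t (hwx t ht) h0)
      (fun t ht h0 => z3 t (hwy t ht) h0) (fun t ht h0 => z4 t (hwx t ht) h0) (by omega) m hm
      (fun x y hx hy => hsm (x, y) hx hy) q.1 q.2 hq1 hq2
    refine h3.trans (le_of_eq ?_)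
    push_cast
    ring_nf
  have h1 := chain_growth (φ := uncurry U) (p := p) (N := N) hδ0 hm hstep
    (fun q h1 h2 => hsmall q.1 q.2 h1 h2) N le_rfl (x, y)
    (by show |x - p.1| ≤ _; linarith) (by show |y - p.2| ≤ _; linarith)
  exact h1

end Pool.Agent.NH44.SR
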