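import Pool.Agent.NH44.SR.Coord

/-!
# The charts
-/

set_option autoImplicit false

open MeasureTheory Real Filter Topology Set Function

namespace Pool.Agent.NH44.SR

theorem tanh_abs_lt {s z : ℝ} (hz : z ∈ Ioo (-1 : ℝ) 1) (h1 : -Real.tanh s < z)
    (h2 : z < Real.tanh s) : |Real.artanh z| ≤ s := by
  have k1 := Real.artanh_tanh s
  have k2 := Real.artanh_tanh (-s)
  rw [Real.tanh_neg] at k2
  have t1 := Real.tanh_lt_one s
  have t2 := Real.neg_one_lt_tanh s
  have l1 := Real.artanh_lt_artanh hz.1 t1 h2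
  have l2 := Real.artanh_lt_artanh (by linarith) hz.2 h1
  rw [k1] at l1
  rw [k2] at l2
  rw [abs_le]
  constructor <;> linarith

/-- The charts. -/
theorem chart {β A M ε : ℝ} (hβ : 0 < β) (hβ1 : β ≤ 1) (hA : 0 ≤ A) (hM : 0 ≤ M) (hε : 0 < ε) :
    ∃ (β2 T1 B : ℝ) (N : ℕ), 0 < β2 ∧ 0 ≤ T1 ∧ 1 ≤ B ∧ 4 * M ≤ B ^ 2 ∧
      M / 4 * (β2 ^ 2 * Real.exp (2 * T1)) ≤ ε ∧
      ∀ d : ℝ, 0 < d → d ≤ 1 / 2 → ∀ c ∈ sph, ∃ s' θ' : ℝ, θ' ∈ Ico 0 (2 * π) ∧
        ed (PP s' θ') c ≤ d ∧ (N + 26) * (β2 * d * Real.cosh s') ≤ T1 ∧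
        (∀ s θ, |s - s'| ≤ β2 * d * Real.cosh s' → |θ - θ'| ≤ β2 * d * Real.cosh s' →
          ed c (PP s θ) ≤ β * d) ∧
        ∀ q ∈ sph, ed c q ≤ A * d →
          (∃ s θ, q = PP s θ ∧ |s - s'| ≤ N * (β2 * d * Real.cosh s') ∧
            |θ - θ'| ≤ N * (β2 * d * Real.cosh s')) ∨
          (Real.tanh (Real.log (B / d)) ≤ q.2.2 ∧
            |Real.log (B / d) - s'| ≤ N * (β2 * d * Real.cosh s') ∧
            π ≤ N * (β2 * d * Real.cosh s')) ∨
          (q.2.2 ≤ -Real.tanh (Real.log (B / d)) ∧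
            |-Real.log (B / d) - s'| ≤ N * (β2 * d * Real.cosh s') ∧
            π ≤ N * (β2 * d * Real.cosh s')) := by
  have hπ := Real.pi_pos
  have hπ4 := Real.pi_lt_four
  have hsM := Real.sqrt_nonneg M
  set A' := A + 1 with hA'
  have hA'1 : 1 ≤ A' := by linarith
  set B := 2 * (Real.sqrt M + 1) with hB
  have hB2 : 2 ≤ B := by rw [hB]; linarith
  have hBM : 4 * M ≤ B ^ 2 := by
    have := Real.sq_sqrt hM
    rw [hB]
    nlinarith
  set K := Real.sqrt (8 * B * (A' + 4) ^ 2 / β) with hK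
  have hK0 : 0 ≤ K := Real.sqrt_nonneg _
  have hK2 : K ^ 2 = 8 * B * (A' + 4) ^ 2 / β := Real.sq_sqrt (by positivity)
  set T2 := K + 4 with hT2
  have hT20 : 0 ≤ T2 := by positivity
  set T0 := 2 * A' * T2 + 3 * A' with hT0
  have hT00 : 0 ≤ T0 := by positivity
  set T1 := (T0 + 27) * (8 / β) with hT1
  have hT10 : 0 ≤ T1 := by positivity
  have hse : 0 < Real.sqrt ε := Real.sqrt_pos.2 hε
  set β2 := min (β / 8) (Real.sqrt ε / ((M + 1) * Real.exp T1)) with hβ2
  have hβ20 : 0 < β2 := by positivity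
  have hβ28 : β2 ≤ β / 8 := min_le_left _ _
  have hβ2e : β2 * ((M + 1) * Real.exp T1) ≤ Real.sqrt ε := by
    have h1 : β2 ≤ Real.sqrt ε / ((M + 1) * Real.exp T1) := min_le_right _ _
    rwa [le_div_iff₀ (by positivity)] at h1
  set N := ⌈T0 / β2⌉₊ with hN
  have hN1 : T0 ≤ N * β2 := by
    have := Nat.le_ceil (T0 / β2)
    rwa [div_le_iff₀ hβ20] at this
  have hN2 : N * β2 ≤ T0 + 1 := by
    have h1 := Nat.ceil_lt_add_one (show 0 ≤ T0 / β2 by positivity)
    have h2 : (N : ℝ) * β2 ≤ (T0 / β2 + 1) * β2 := mul_le_mul_of_nonneg_right h1.le hβ20.le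
    rw [add_mul, div_mul_cancel₀ _ hβ20.ne'] at h2
    linarith
  refine ⟨β2, T1, B, N, hβ20, hT10, by linarith, hBM, ?_, ?_⟩
  · have h1 : (β2 * Real.exp T1) ^ 2 = β2 ^ 2 * Real.exp (2 * T1) := by
      rw [mul_pow, ← Real.exp_nat_mul]
      norm_num
    rw [← h1]
    have h2 : (β2 * ((M + 1) * Real.exp T1)) ^ 2 ≤ ε := by
      have h3 : (β2 * ((M + 1) * Real.exp T1)) ^ 2 ≤ Real.sqrt ε ^ 2 :=
        pow_le_pow_left₀ (by positivity) hβ2e 2
      rwa [Real.sq_sqrt hε.le] at h3
    have h3 : M / 4 ≤ (M + 1) ^ 2 := by nlinarith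
    have h4 : (β2 * ((M + 1) * Real.exp T1)) ^ 2 = (M + 1) ^ 2 * (β2 * Real.exp T1) ^ 2 := by ring
    rw [h4] at h2
    exact (mul_le_mul_of_nonneg_right h3 (sq_nonneg _)).trans h2
  intro d hd hd2 c hc
  have hY : 1 < 8 / (β * d) := by
    rw [lt_div_iff₀ (by positivity)]
    nlinarith
  obtain ⟨s', θ', hθ', hcosh, hed⟩ := center hY hc
  have hch := Real.cosh_pos s'
  have hch1 := Real.one_le_cosh s'
  have hed' : ed (PP s' θ') c ≤ β * d / 4 := by
    have h1 : 2 / (8 / (β * d)) = β * d / 4 := by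
      field_simp
      norm_num
    rwa [h1] at hed
  have hdc : d * Real.cosh s' ≤ 8 / β := by
    have h1 := mul_le_mul_of_nonneg_left hcosh hd.le
    have h2 : d * (8 / (β * d)) = 8 / β := by field_simp
    rwa [h2] at h1
  have hdc0 : 0 < d * Real.cosh s' := mul_pos hd hch
  set δ := β2 * d * Real.cosh s' with hδ
  have hδ0 : 0 < δ := by positivity
  have hδ1 : δ ≤ 1 := by
    have h1 : β2 * (d * Real.cosh s') ≤ β / 8 * (8 / β) :=
      mul_le_mul hβ28 hdc hdc0.le (by positivity)
    have h2 : β / 8 * (8 / β) = 1 := by field_simp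
    rw [h2, ← mul_assoc] at h1
    exact h1
  have hNδ : (N : ℝ) * δ = (N * β2) * (d * Real.cosh s') := by rw [hδ]; ring
  have hNδ1 : T0 * (d * Real.cosh s') ≤ N * δ := by
    rw [hNδ]
    exact mul_le_mul_of_nonneg_right hN1 hdc0.le
  have hβd : β * d ≤ d := by nlinarith
  refine ⟨s', θ', hθ', hed'.trans (by linarith), ?_, ?_, ?_⟩
  · have h1 : ((N : ℝ) + 26) * δ = (N * β2 + 26 * β2) * (d * Real.cosh s') := by rw [hδ]; ring
    rw [h1, hT1]
    refine mul_le_mul ?_ hdc hdc0.le (by positivity)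
    linarith
  · intro s θ hs hθ
    have h1 : ed (PP s θ) (PP s' θ') ^ 2 ≤ (3 * β2 * d) ^ 2 := by
      have h2 := ed_le_of (θ := θ) (θ' := θ') (hs.trans hδ1)
      have h3 : (s - s') ^ 2 ≤ δ ^ 2 := by
        rw [← sq_abs]
        exact pow_le_pow_left₀ (abs_nonneg _) hs 2
      have h4 : (θ - θ') ^ 2 ≤ δ ^ 2 := by
        rw [← sq_abs]
        exact pow_le_pow_left₀ (abs_nonneg _) hθ 2
      have h5 : Real.exp (1 ^ 2 / 2) ≤ 2 := by
        have h6 : Real.exp (1 ^ 2 / 2) ^ 2 = Real.exp 1 := by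
          rw [← Real.exp_nat_mul]
          norm_num
        have h7 := Real.exp_one_lt_d9
        have h8 := Real.exp_pos (1 ^ 2 / 2 : ℝ)
        nlinarith
      have h6 : Real.cosh s' ≤ Real.cosh s * 3 := by
        have h7 := cosh_le_mul s' s
        have h8 : Real.exp |s' - s| ≤ 3 := by
          have h9 : Real.exp |s' - s| ≤ Real.exp 1 :=
            Real.exp_le_exp.2 (by rw [abs_sub_comm]; linarith)
          have := Real.exp_one_lt_d9
          linarith
        exact h7.trans (mul_le_mul_of_nonneg_left h8 (Real.cosh_pos s).le)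
      have hcs := Real.cosh_pos s
      refine h2.trans ?_
      rw [div_le_iff₀ (by positivity)]
      have h7 : (s - s') ^ 2 * Real.exp (1 ^ 2 / 2) ≤ δ ^ 2 * 2 :=
        mul_le_mul h3 h5 (Real.exp_pos _).le (by positivity)
      have h8 : δ ^ 2 = β2 ^ 2 * d ^ 2 * (Real.cosh s' * Real.cosh s') := by rw [hδ]; ring
      have h9 : β2 ^ 2 * d ^ 2 * (Real.cosh s' * Real.cosh s') ≤
          β2 ^ 2 * d ^ 2 * (Real.cosh s * 3 * Real.cosh s') := by gcongr
      have h10 : (3 * β2 * d) ^ 2 * (Real.cosh s * Real.cosh s') =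
          3 * (β2 ^ 2 * d ^ 2 * (Real.cosh s * 3 * Real.cosh s')) := by ring
      rw [h10]
      linarith
    have h2 : ed (PP s θ) (PP s' θ') ≤ 3 * β2 * d :=
      (abs_le_of_sq_le_sq' h1 (by positivity)).2
    have h3 := ed_tri c (PP s' θ') (PP s θ)
    have e1 := ed_comm c (PP s' θ')
    have e2 := ed_comm (PP s' θ') (PP s θ)
    have h4 : 3 * β2 * d ≤ 3 * (β / 8) * d := by gcongr
    have h5 : 0 < β * d := mul_pos hβ hd
    linarith
  · intro q hq hcq
    have hq' : ed q (PP s' θ') ≤ A' * d := by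
      have h1 := ed_tri q c (PP s' θ')
      rw [ed_comm q c, ed_comm c (PP s' θ')] at h1
      have h2 : A' * d = A * d + d := by rw [hA']; ring
      linarith
    have hedn := ed_nonneg q (PP s' θ')
    rcases le_or_gt (2 * A' * (d * Real.cosh s')) 1 with hfar | hnear
    · -- far from the poles
      left
      have h1 := axis_lip q.1 q.2.1 (PP s' θ').1 (PP s' θ').2.1
      have h2 : Real.sqrt ((PP s' θ').1 ^ 2 + (PP s' θ').2.1 ^ 2) = 1 / Real.cosh s' := by
        have h3 : (PP s' θ').1 ^ 2 + (PP s' θ').2.1 ^ 2 = (1 / Real.cosh s') ^ 2 := by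
          unfold PP
          simp only
          have := Real.sin_sq_add_cos_sq θ'
          field_simp
          linarith
        rw [h3, Real.sqrt_sq (by positivity)]
      have h3 : Real.sqrt ((q.1 - (PP s' θ').1) ^ 2 + (q.2.1 - (PP s' θ').2.1) ^ 2) ≤
          ed q (PP s' θ') := by
        unfold ed nn
        refine Real.sqrt_le_sqrt ?_
        simp only [Prod.fst_sub, Prod.snd_sub]
        nlinarith [sq_nonneg (q.2.2 - (PP s' θ').2.2)]
      rw [h2] at h1
      set h := Real.sqrt (q.1 ^ 2 + q.2.1 ^ 2) with hh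
      have h4 : A' * d ≤ 1 / (2 * Real.cosh s') := by
        rw [le_div_iff₀ (by positivity)]
        linarith
      have h5 : 1 / (2 * Real.cosh s') ≤ h := by
        have h6 := (abs_le.1 h1).1
        have h7 : 1 / Real.cosh s' = 2 * (1 / (2 * Real.cosh s')) := by field_simp
        linarith
      have hpos : 0 < h := lt_of_lt_of_le (by positivity) h5
      have hh2 : h ^ 2 = q.1 ^ 2 + q.2.1 ^ 2 := Real.sq_sqrt (by positivity)
      have hz := z_mem hq (by rw [← hh2]; positivity)
      obtain ⟨θ, hθ, he⟩ := exists_coord hq hz (θ' - π)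
      set s := Real.artanh q.2.2 with hs
      have hcs : Real.cosh s ≤ 2 * Real.cosh s' := by
        rw [hs, Real.cosh_artanh hz]
        have h6 : 1 - q.2.2 ^ 2 = h ^ 2 := by
          have := sph_iff.1 hq
          rw [hh2]
          linarith
        rw [h6, Real.sqrt_sq hpos.le, div_le_iff₀ hpos]
        rw [div_le_iff₀ (by positivity)] at h5
        linarith
      have hcs0 := Real.cosh_pos s
      have hθπ : |θ - θ'| ≤ π := abs_le.2 ⟨by linarith [hθ.1], by linarith [hθ.2]⟩
      have k1 := ds_le s θ s' θ'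
      have k2 := dt_le (s := s) (s' := s') hθπ
      rw [← he] at k1 k2
      have k3 : ed q (PP s' θ') ^ 2 * (Real.cosh s * Real.cosh s') ≤
          (A' * d) ^ 2 * (2 * Real.cosh s' * Real.cosh s') := by gcongr
      have k4 : (A' * d) ^ 2 * (2 * Real.cosh s' * Real.cosh s') =
          2 * (A' * (d * Real.cosh s')) ^ 2 := by ring
      rw [k4] at k3
      have k5 : 3 * (A' * (d * Real.cosh s')) ≤ N * δ := by
        refine le_trans ?_ hNδ1
        have e1 : T0 * (d * Real.cosh s') = 2 * A' * T2 * (d * Real.cosh s') +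
          3 * (A' * (d * Real.cosh s')) := by rw [hT0]; ring
        have : 0 ≤ 2 * A' * T2 * (d * Real.cosh s') := by positivity
        linarith
      have k6 : 0 ≤ A' * (d * Real.cosh s') := by positivity
      have k7 := sq_nonneg (A' * (d * Real.cosh s'))
      have k8 : (3 * (A' * (d * Real.cosh s'))) ^ 2 = 9 * (A' * (d * Real.cosh s')) ^ 2 := by ring
      have k9 : 0 ≤ 3 * (A' * (d * Real.cosh s')) := by linarith
      refine ⟨s, θ, he, ?_, ?_⟩
      · refine le_trans (abs_le_of_sq_le_sq ?_ k9) k5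
        linarith
      · refine le_trans (abs_le_of_sq_le_sq ?_ k9) k5
        linarith
    · -- close to the poles
      have hNT : T2 ≤ N * δ := by
        refine le_trans ?_ hNδ1
        have h1 : 0 ≤ 3 * A' * (d * Real.cosh s') := by positivity
        have h2 : T2 * 1 ≤ T2 * (2 * A' * (d * Real.cosh s')) :=
          mul_le_mul_of_nonneg_left hnear.le hT20
        have e1 : T0 * (d * Real.cosh s') = T2 * (2 * A' * (d * Real.cosh s')) +
          3 * A' * (d * Real.cosh s') := by rw [hT0]; ring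
        linarith
      have hπN : π ≤ N * δ := by linarith
      set sc := Real.log (B / d) with hsc
      have hBd : 1 ≤ B / d := by
        rw [le_div_iff₀ hd]
        linarith
      have hsc0 : 0 ≤ sc := Real.log_nonneg hBd
      have hexp : Real.exp sc = B / d := Real.exp_log (by positivity)
      have hcsc : Real.cosh sc ≤ B / d := by
        rw [← hexp, Real.cosh_eq]
        have : Real.exp (-sc) ≤ Real.exp sc := Real.exp_le_exp.2 (by linarith)
        linarith
      have hexpn : Real.exp (-sc) ≤ d := by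
        rw [Real.exp_neg, hexp, inv_div, div_le_iff₀ (by positivity)]
        nlinarith
      have hprod : ∀ s a : ℝ, Real.cosh s ≤ B / d → 0 ≤ a → a ≤ (A' + 4) * d →
          a ^ 2 * (Real.cosh s * Real.cosh s') ≤ K ^ 2 := by
        intro s a h1 h2 h3
        have hcs := Real.cosh_pos s
        calc a ^ 2 * (Real.cosh s * Real.cosh s') ≤
            ((A' + 4) * d) ^ 2 * (B / d * (8 / (β * d))) := by gcongr
          _ = K ^ 2 := by
            rw [hK2]
            field_simp
      by_cases c1 : Real.tanh sc ≤ q.2.2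
      · right; left
        refine ⟨c1, ?_, hπN⟩
        have h1 := pole_ed hq c1
        have h2 := pole_ed (s := sc) (PP_sph sc θ') le_rfl
        have h3 := ed_tri (PP sc θ') (0, 0, 1) q
        have h4 := ed_tri (PP sc θ') q (PP s' θ')
        have e1 := ed_comm (0, 0, 1) q
        have h5 := hprod sc (ed (PP sc θ') (PP s' θ')) hcsc (ed_nonneg _ _) (by linarith)
        have h6 := ds_le sc θ' s' θ'
        have h7 : |sc - s'| ≤ K := abs_le_of_sq_le_sq (h6.trans h5) hK0
        linarith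
      · by_cases c2 : q.2.2 ≤ -Real.tanh sc
        · right; right
          refine ⟨c2, ?_, hπN⟩
          have h1 := pole_ed' hq c2
          have h2 := pole_ed' (s := sc) (PP_sph (-sc) θ') (by
            show Real.tanh (-sc) ≤ -Real.tanh sc
            rw [Real.tanh_neg])
          have h3 := ed_tri (PP (-sc) θ') (0, 0, -1) q
          have h4 := ed_tri (PP (-sc) θ') q (PP s' θ')
          have e1 := ed_comm (0, 0, -1) q
          have h5 := hprod (-sc) (ed (PP (-sc) θ') (PP s' θ')) (by rw [Real.cosh_neg]; exact hcsc)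
            (ed_nonneg _ _) (by linarith)
          have h6 := ds_le (-sc) θ' s' θ'
          have h7 : |-sc - s'| ≤ K := abs_le_of_sq_le_sq (h6.trans h5) hK0
          linarith
        · left
          rw [not_le] at c1 c2
          have t1 := Real.tanh_lt_one sc
          have t2 := Real.neg_one_lt_tanh sc
          have hz : q.2.2 ∈ Ioo (-1 : ℝ) 1 := ⟨by linarith, by linarith⟩
          obtain ⟨θ, hθ, he⟩ := exists_coord hq hz (θ' - π)
          have hs := tanh_abs_lt hz c2 c1
          set s := Real.artanh q.2.2 with hsdef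
          have hcs : Real.cosh s ≤ B / d := by
            refine le_trans (Real.cosh_le_cosh.2 ?_) hcsc
            rwa [abs_of_nonneg hsc0]
          have hθπ : |θ - θ'| ≤ π := abs_le.2 ⟨by linarith [hθ.1], by linarith [hθ.2]⟩
          have k1 := ds_le s θ s' θ'
          rw [← he] at k1
          have h5 := hprod s (ed q (PP s' θ')) hcs hedn (by linarith)
          have h7 : |s - s'| ≤ K := abs_le_of_sq_le_sq (k1.trans h5) hK0
          exact ⟨s, θ, he, by linarith, by linarith⟩

end Pool.Agent.NH44.SR
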