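import Pool.Agent.NH44.SR.Defs
import Pool.Agent.Y291.DB.Modes

/-!
# The equation in the coordinates of Mercator
-/

set_option autoImplicit false

open MeasureTheory Real Filter Topology Set Function
open Pool.Agent.Y291.DB (Sol)

namespace Pool.Agent.NH44.SR

/-- the point with the coordinates `s, θ` on the cylinder -/
noncomputable def XX (s θ : ℝ) : ℝ × ℝ × ℝ := (Real.cos θ, Real.sin θ, Real.sinh s)

/-- the function in the coordinates of Mercator -/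
noncomputable def UU (φ : ℝ × ℝ × ℝ → ℝ) (s θ : ℝ) : ℝ := φ (XX s θ)

/-- the potential -/
noncomputable def QQ (ρ : ℝ → ℝ) (lam : ℝ) (s : ℝ) : ℝ := lam * ρ (Real.tanh s) / Real.cosh s ^ 2

abbrev e1 : ℝ × ℝ × ℝ := (1, 0, 0)
abbrev e2 : ℝ × ℝ × ℝ := (0, 1, 0)
abbrev e3 : ℝ × ℝ × ℝ := (0, 0, 1)

theorem XX_ne (s θ : ℝ) : XX s θ ∈ ({0}ᶜ : Set (ℝ × ℝ × ℝ)) := by
  rw [mem_compl_iff, mem_singleton_iff]
  intro h
  have h1 : Real.cos θ = 0 := congrArg Prod.fst h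
  have h2 : Real.sin θ = 0 := congrArg (fun p => p.2.1) h
  have := Real.sin_sq_add_cos_sq θ
  rw [h1, h2] at this
  norm_num at this

theorem lin_exp (D : (ℝ × ℝ × ℝ) →L[ℝ] ℝ) (a b c : ℝ) :
    D (a, b, c) = a * D e1 + b * D e2 + c * D e3 := by
  have h : ((a, b, c) : ℝ × ℝ × ℝ) = a • e1 + b • e2 + c • e3 := by
    simp [e1, e2, e3]
  rw [h, map_add, map_add, map_smul, map_smul, map_smul, smul_eq_mul, smul_eq_mul, smul_eq_mul]

theorem bil_exp (B : (ℝ × ℝ × ℝ) →L[ℝ] (ℝ × ℝ × ℝ) →L[ℝ] ℝ) (a b c a' b' c' : ℝ) :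
    B (a, b, c) (a', b', c') = a * (a' * B e1 e1 + b' * B e1 e2 + c' * B e1 e3) +
      b * (a' * B e2 e1 + b' * B e2 e2 + c' * B e2 e3) +
      c * (a' * B e3 e1 + b' * B e3 e2 + c' * B e3 e3) := by
  have h : ((a, b, c) : ℝ × ℝ × ℝ) = a • e1 + b • e2 + c • e3 := by
    simp [e1, e2, e3]
  rw [h, map_add, map_add, map_smul, map_smul, map_smul]
  simp only [add_apply, smul_apply, smul_eq_mul]
  rw [lin_exp (B e1), lin_exp (B e2), lin_exp (B e3)]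

section

variable {φ : ℝ × ℝ × ℝ → ℝ} (hs : ContDiffOn ℝ 2 φ {0}ᶜ)

include hs

theorem hD {p : ℝ × ℝ × ℝ} (hp : p ∈ ({0}ᶜ : Set (ℝ × ℝ × ℝ))) :
    HasFDerivAt φ (fderiv ℝ φ p) p := by
  have h1 : ContDiffAt ℝ 2 φ p := hs.contDiffAt (isOpen_compl_singleton.mem_nhds hp)
  exact (h1.differentiableAt (by norm_num)).hasFDerivAt

theorem hH0 : ContDiffOn ℝ 1 (fderiv ℝ φ) {0}ᶜ :=
  hs.fderiv_of_isOpen isOpen_compl_singleton (by norm_num)

theorem hH {p : ℝ × ℝ × ℝ} (hp : p ∈ ({0}ᶜ : Set (ℝ × ℝ × ℝ))) :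
    HasFDerivAt (fderiv ℝ φ) (fderiv ℝ (fderiv ℝ φ) p) p := by
  have h1 : ContDiffAt ℝ 1 (fderiv ℝ φ) p :=
    (hH0 hs).contDiffAt (isOpen_compl_singleton.mem_nhds hp)
  exact (h1.differentiableAt (by norm_num)).hasFDerivAt

theorem cD : ContinuousOn (fderiv ℝ φ) {0}ᶜ := (hH0 hs).continuousOn

theorem cH : ContinuousOn (fderiv ℝ (fderiv ℝ φ)) {0}ᶜ :=
  (hH0 hs).continuousOn_fderiv_of_isOpen isOpen_compl_singleton le_rfl

/-- second derivatives along curves -/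
theorem second {c c' : ℝ → ℝ × ℝ × ℝ} {c'' : ℝ × ℝ × ℝ} {t : ℝ} (hc : ∀ t, HasDerivAt c (c' t) t)
    (hc' : HasDerivAt c' c'' t) (h0 : c t ∈ ({0}ᶜ : Set (ℝ × ℝ × ℝ))) :
    HasDerivAt (fun t => fderiv ℝ φ (c t) (c' t))
      (fderiv ℝ (fderiv ℝ φ) (c t) (c' t) (c' t) + fderiv ℝ φ (c t) c'') t := by
  have h1 : HasDerivAt (fun t => fderiv ℝ φ (c t)) (fderiv ℝ (fderiv ℝ φ) (c t) (c' t)) t :=
    (hH hs h0).comp_hasDerivAt t (hc t)
  have h2 := h1.clm_apply hc'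
  exact h2

theorem first {c : ℝ → ℝ × ℝ × ℝ} {c' : ℝ × ℝ × ℝ} {t : ℝ} (hc : HasDerivAt c c' t)
    (h0 : c t ∈ ({0}ᶜ : Set (ℝ × ℝ × ℝ))) :
    HasDerivAt (fun t => φ (c t)) (fderiv ℝ φ (c t) c') t :=
  (hD hs h0).comp_hasDerivAt t hc

/-- the second derivative of a slice -/
theorem slice {v p : ℝ × ℝ × ℝ} (hp : p ∈ ({0}ᶜ : Set (ℝ × ℝ × ℝ))) {c : ℝ → ℝ × ℝ × ℝ} {t : ℝ}
    (hc : ∀ t, HasDerivAt c v t) (ht : c t = p) :
    iteratedDeriv 2 (fun x => φ (c x)) t = fderiv ℝ (fderiv ℝ φ) p v v := by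
  have hcc : Continuous c := continuous_iff_continuousAt.2 fun t => (hc t).continuousAt
  have h1 : ∀ᶠ x in 𝓝 t, c x ∈ ({0}ᶜ : Set (ℝ × ℝ × ℝ)) := by
    refine hcc.continuousAt.eventually_mem ?_
    rw [ht]
    exact isOpen_compl_singleton.mem_nhds hp
  have h2 : deriv (fun x => φ (c x)) =ᶠ[𝓝 t] fun x => fderiv ℝ φ (c x) v := by
    filter_upwards [h1] with x hx
    exact (first hs (hc x) hx).deriv
  have h0 : c t ∈ ({0}ᶜ : Set (ℝ × ℝ × ℝ)) := by rw [ht]; exact hp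
  have h3 := second hs (c' := fun _ => v) hc (hasDerivAt_const t v) h0
  rw [iteratedDeriv_succ, iteratedDeriv_one, h2.deriv_eq, h3.deriv, map_zero, add_zero, ht]

theorem lap_eq {p : ℝ × ℝ × ℝ} (hp : p ∈ ({0}ᶜ : Set (ℝ × ℝ × ℝ))) :
    lap φ p = fderiv ℝ (fderiv ℝ φ) p e1 e1 + fderiv ℝ (fderiv ℝ φ) p e2 e2 +
      fderiv ℝ (fderiv ℝ φ) p e3 e3 := by
  unfold lap
  rw [slice hs (v := e1) hp (c := fun x => (x, p.2.1, p.2.2)) (fun t =>
      (hasDerivAt_id t).prodMk ((hasDerivAt_const t p.2.1).prodMk (hasDerivAt_const t p.2.2))) rfl,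
    slice hs (v := e2) hp (c := fun y => (p.1, y, p.2.2)) (fun t =>
      (hasDerivAt_const t p.1).prodMk ((hasDerivAt_id t).prodMk (hasDerivAt_const t p.2.2))) rfl,
    slice hs (v := e3) hp (c := fun z => (p.1, p.2.1, z)) (fun t =>
      (hasDerivAt_const t p.1).prodMk ((hasDerivAt_const t p.2.1).prodMk (hasDerivAt_id t))) rfl]

variable (hh : ∀ t : ℝ, 0 < t → ∀ p : ℝ × ℝ × ℝ, φ (t * p.1, t * p.2.1, t * p.2.2) = φ p)

include hh

/-- Euler's relation -/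
theorem euler {p : ℝ × ℝ × ℝ} (hp : p ∈ ({0}ᶜ : Set (ℝ × ℝ × ℝ))) : fderiv ℝ φ p p = 0 := by
  have h1 : HasDerivAt (fun t : ℝ => φ (t • p)) (fderiv ℝ φ ((1 : ℝ) • p) ((1 : ℝ) • p)) 1 :=
    first hs (c := fun t : ℝ => t • p) ((hasDerivAt_id (1 : ℝ)).smul_const p)
      (by rw [one_smul]; exact hp)
  rw [one_smul] at h1
  have h2 : (fun t : ℝ => φ (t • p)) =ᶠ[𝓝 1] fun _ => φ p := by
    filter_upwards [Ioi_mem_nhds (show (0 : ℝ) < 1 from one_pos)] with t ht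
    have := hh t ht p
    exact this
  exact h1.unique ((hasDerivAt_const (1 : ℝ) (φ p)).congr_of_eventuallyEq h2)

theorem euler2 {p v : ℝ × ℝ × ℝ} (hp : p ∈ ({0}ᶜ : Set (ℝ × ℝ × ℝ))) :
    fderiv ℝ (fderiv ℝ φ) p v p = -fderiv ℝ φ p v := by
  have hc : ∀ t : ℝ, HasDerivAt (fun t : ℝ => p + t • v) v t := by
    intro t
    have := ((hasDerivAt_id t).smul_const v).const_add p
    simpa using this
  have h0 : p + (0 : ℝ) • v ∈ ({0}ᶜ : Set (ℝ × ℝ × ℝ)) := by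
    rw [zero_smul, add_zero]
    exact hp
  have h1 : HasDerivAt (fun t : ℝ => fderiv ℝ φ (p + t • v))
      (fderiv ℝ (fderiv ℝ φ) (p + (0 : ℝ) • v) v) 0 :=
    (hH hs h0).comp_hasDerivAt (0 : ℝ) (hc 0)
  have h2 := h1.clm_apply (hc 0)
  have h3 : (fun t : ℝ => fderiv ℝ φ (p + t • v) (p + t • v)) =ᶠ[𝓝 0] fun _ => (0 : ℝ) := by
    have hcc : Continuous fun t : ℝ => p + t • v := by fun_prop
    have h4 : ∀ᶠ t in 𝓝 (0 : ℝ), p + t • v ∈ ({0}ᶜ : Set (ℝ × ℝ × ℝ)) :=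
      hcc.continuousAt.eventually_mem (isOpen_compl_singleton.mem_nhds h0)
    filter_upwards [h4] with t ht
    exact euler hs hh ht
  have h5 := h2.unique ((hasDerivAt_const (0 : ℝ) (0 : ℝ)).congr_of_eventuallyEq h3)
  simp only [zero_smul, add_zero] at h5
  linarith

theorem symm2 {p : ℝ × ℝ × ℝ} (hp : p ∈ ({0}ᶜ : Set (ℝ × ℝ × ℝ))) (v w : ℝ × ℝ × ℝ) :
    fderiv ℝ (fderiv ℝ φ) p v w = fderiv ℝ (fderiv ℝ φ) p w v := by
  have h1 : ContDiffAt ℝ 2 φ p := hs.contDiffAt (isOpen_compl_singleton.mem_nhds hp)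
  exact (h1.isSymmSndFDerivAt (by simp)).eq v w

/-- homogeneity of the Laplacian -/
theorem lap_hom {t : ℝ} (ht : 0 < t) (p : ℝ × ℝ × ℝ) :
    lap φ (t * p.1, t * p.2.1, t * p.2.2) = (t⁻¹) ^ 2 * lap φ p := by
  have key : ∀ (g : ℝ → ℝ) (a : ℝ), iteratedDeriv 2 (fun x => g (t⁻¹ * x)) (t * a) =
      (t⁻¹) ^ 2 * iteratedDeriv 2 g a := by
    intro g a
    have h1 : deriv (fun x => g (t⁻¹ * x)) = fun x => t⁻¹ * deriv g (t⁻¹ * x) := by
      funext x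
      rw [deriv_comp_mul_left, smul_eq_mul]
    rw [iteratedDeriv_succ, iteratedDeriv_one, iteratedDeriv_succ, iteratedDeriv_one, h1,
      deriv_const_mul_field, deriv_comp_mul_left, smul_eq_mul, inv_mul_cancel_left₀ ht.ne']
    ring
  have e1 : (fun x => φ (x, t * p.2.1, t * p.2.2)) = fun x => φ (t⁻¹ * x, p.2.1, p.2.2) := by
    funext x
    rw [← hh t ht (t⁻¹ * x, p.2.1, p.2.2)]
    simp only
    rw [mul_inv_cancel_left₀ ht.ne']
  have e2 : (fun y => φ (t * p.1, y, t * p.2.2)) = fun y => φ (p.1, t⁻¹ * y, p.2.2) := by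
    funext y
    rw [← hh t ht (p.1, t⁻¹ * y, p.2.2)]
    simp only
    rw [mul_inv_cancel_left₀ ht.ne']
  have e3 : (fun z => φ (t * p.1, t * p.2.1, z)) = fun z => φ (p.1, p.2.1, t⁻¹ * z) := by
    funext z
    rw [← hh t ht (p.1, p.2.1, t⁻¹ * z)]
    simp only
    rw [mul_inv_cancel_left₀ ht.ne']
  unfold lap
  simp only [e1, e2, e3]
  rw [key (fun x => φ (x, p.2.1, p.2.2)), key (fun y => φ (p.1, y, p.2.2)),
    key (fun z => φ (p.1, p.2.1, z))]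
  ring

end

theorem sq1 (s : ℝ) : Real.cosh s ^ 2 = Real.sinh s ^ 2 + 1 := Real.cosh_sq s

/-- the point of the sphere -/
noncomputable def PP (s θ : ℝ) : ℝ × ℝ × ℝ :=
  (Real.cos θ / Real.cosh s, Real.sin θ / Real.cosh s, Real.tanh s)

theorem PP_sph (s θ : ℝ) : PP s θ ∈ sph := by
  have h1 := Real.cosh_pos s
  have h2 := Real.cosh_sq s
  have h3 := Real.sin_sq_add_cos_sq θ
  show (Real.cos θ / Real.cosh s) ^ 2 + (Real.sin θ / Real.cosh s) ^ 2 + Real.tanh s ^ 2 = 1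
  rw [Real.tanh_eq_sinh_div_cosh]
  field_simp
  linarith

theorem UU_PP {φ : ℝ × ℝ × ℝ → ℝ}
    (hh : ∀ t : ℝ, 0 < t → ∀ p : ℝ × ℝ × ℝ, φ (t * p.1, t * p.2.1, t * p.2.2) = φ p) (s θ : ℝ) :
    UU φ s θ = φ (PP s θ) := by
  have h1 := Real.cosh_pos s
  rw [← hh (Real.cosh s) h1 (PP s θ)]
  unfold UU XX PP
  simp only
  rw [Real.tanh_eq_sinh_div_cosh]
  congr 2
  · field_simp
  · congr 1 <;> field_simp

/-- The equation. -/
theorem merc {ρ : ℝ → ℝ} {lam : ℝ} {φ : ℝ × ℝ × ℝ → ℝ} (hρ : Continuous ρ)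
    (h : Eigen ρ lam φ) : ∃ Ux Uxx Uy Uyy : ℝ → ℝ → ℝ, Sol (QQ ρ lam) (UU φ) Ux Uxx Uy Uyy := by
  have hs := h.smooth
  have hh := h.hom
  have cX : Continuous fun p : ℝ × ℝ => XX p.1 p.2 := by
    unfold XX
    fun_prop
  have cDX : Continuous fun p : ℝ × ℝ => fderiv ℝ φ (XX p.1 p.2) :=
    (cD hs).comp_continuous cX fun p => XX_ne _ _
  have cHX : Continuous fun p : ℝ × ℝ => fderiv ℝ (fderiv ℝ φ) (XX p.1 p.2) :=
    (cH hs).comp_continuous cX fun p => XX_ne _ _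
  have hXs : ∀ s θ : ℝ, HasDerivAt (fun s => XX s θ) (0, 0, Real.cosh s) s := fun s θ =>
    (hasDerivAt_const s _).prodMk ((hasDerivAt_const s _).prodMk (Real.hasDerivAt_sinh s))
  have hXss : ∀ s : ℝ, HasDerivAt (fun s => ((0, 0, Real.cosh s) : ℝ × ℝ × ℝ))
      (0, 0, Real.sinh s) s := fun s =>
    (hasDerivAt_const s _).prodMk ((hasDerivAt_const s _).prodMk (Real.hasDerivAt_cosh s))
  have hXy : ∀ s θ : ℝ, HasDerivAt (fun θ => XX s θ) (-Real.sin θ, Real.cos θ, 0) θ := fun s θ =>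
    (Real.hasDerivAt_cos θ).prodMk ((Real.hasDerivAt_sin θ).prodMk (hasDerivAt_const θ _))
  have hXyy : ∀ θ : ℝ, HasDerivAt (fun θ => ((-Real.sin θ, Real.cos θ, 0) : ℝ × ℝ × ℝ))
      (-Real.cos θ, -Real.sin θ, 0) θ := fun θ =>
    (Real.hasDerivAt_sin θ).neg.prodMk ((Real.hasDerivAt_cos θ).prodMk (hasDerivAt_const θ _))
  refine ⟨fun s θ => fderiv ℝ φ (XX s θ) (0, 0, Real.cosh s),
    fun s θ => fderiv ℝ (fderiv ℝ φ) (XX s θ) (0, 0, Real.cosh s) (0, 0, Real.cosh s) +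
      fderiv ℝ φ (XX s θ) (0, 0, Real.sinh s),
    fun s θ => fderiv ℝ φ (XX s θ) (-Real.sin θ, Real.cos θ, 0),
    fun s θ => fderiv ℝ (fderiv ℝ φ) (XX s θ) (-Real.sin θ, Real.cos θ, 0)
      (-Real.sin θ, Real.cos θ, 0) + fderiv ℝ φ (XX s θ) (-Real.cos θ, -Real.sin θ, 0),
    ?_, ?_, ?_, ?_, ?_, ?_, ?_, ?_, ?_, ?_, ?_⟩
  · unfold QQ
    have h1 : Continuous Real.tanh := by
      have : Real.tanh = fun s => Real.sinh s / Real.cosh s :=
        funext Real.tanh_eq_sinh_div_cosh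
      rw [this]
      exact Real.continuous_sinh.div Real.continuous_cosh fun s => (Real.cosh_pos s).ne'
    exact (continuous_const.mul (hρ.comp h1)).div (Real.continuous_cosh.pow 2) fun s => by
      have := Real.cosh_pos s
      positivity
  · exact hs.continuousOn.comp_continuous cX fun p => XX_ne _ _
  · have h1 : Continuous fun p : ℝ × ℝ => fderiv ℝ φ (XX p.1 p.2) (0, 0, Real.cosh p.1) :=
      cDX.clm_apply (by fun_prop)
    exact h1
  · have h1 : Continuous fun p : ℝ × ℝ => fderiv ℝ (fderiv ℝ φ) (XX p.1 p.2)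
        (0, 0, Real.cosh p.1) (0, 0, Real.cosh p.1) +
        fderiv ℝ φ (XX p.1 p.2) (0, 0, Real.sinh p.1) :=
      ((cHX.clm_apply (by fun_prop)).clm_apply (by fun_prop)).add (cDX.clm_apply (by fun_prop))
    exact h1
  · have h1 : Continuous fun p : ℝ × ℝ => fderiv ℝ φ (XX p.1 p.2)
        (-Real.sin p.2, Real.cos p.2, 0) :=
      cDX.clm_apply (by fun_prop)
    exact h1
  · have h1 : Continuous fun p : ℝ × ℝ => fderiv ℝ (fderiv ℝ φ) (XX p.1 p.2)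
        (-Real.sin p.2, Real.cos p.2, 0) (-Real.sin p.2, Real.cos p.2, 0) +
        fderiv ℝ φ (XX p.1 p.2) (-Real.cos p.2, -Real.sin p.2, 0) :=
      ((cHX.clm_apply (by fun_prop)).clm_apply (by fun_prop)).add (cDX.clm_apply (by fun_prop))
    exact h1
  · intro s θ
    exact first hs (hXs s θ) (XX_ne s θ)
  · intro s θ
    exact second hs (c := fun s => XX s θ) (c' := fun s => (0, 0, Real.cosh s))
      (fun s => hXs s θ) (hXss s) (XX_ne s θ)
  · intro s θ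
    exact first hs (hXy s θ) (XX_ne s θ)
  · intro s θ
    exact second hs (c := fun θ => XX s θ) (c' := fun θ => (-Real.sin θ, Real.cos θ, 0))
      (fun θ => hXy s θ) (hXyy θ) (XX_ne s θ)
  · intro s θ
    have hne := XX_ne s θ
    have hL : lap φ (XX s θ) = -(QQ ρ lam s * UU φ s θ) := by
      have h1 := h.eq (PP s θ) (PP_sph s θ)
      have h2 := Real.cosh_pos s
      have h3 := lap_hom hs hh h2 (PP s θ)
      have h4 : ((Real.cosh s * (PP s θ).1, Real.cosh s * (PP s θ).2.1,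
          Real.cosh s * (PP s θ).2.2) : ℝ × ℝ × ℝ) = XX s θ := by
        unfold PP XX
        simp only
        rw [Real.tanh_eq_sinh_div_cosh]
        congr 1
        · field_simp
        · congr 1 <;> field_simp
      rw [h4] at h3
      rw [h3, UU_PP hh, QQ]
      have h5 : (PP s θ).2.2 = Real.tanh s := rfl
      rw [h5] at h1
      have h6 : lap φ (PP s θ) = -(lam * ρ (Real.tanh s) * φ (PP s θ)) := by linarith
      rw [h6]
      field_simp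
    rw [← hL, lap_eq hs hne, bil_exp (fderiv ℝ (fderiv ℝ φ) (XX s θ)) 0 0 (Real.cosh s),
      bil_exp (fderiv ℝ (fderiv ℝ φ) (XX s θ)) (-Real.sin θ) (Real.cos θ) 0,
      lin_exp (fderiv ℝ φ (XX s θ)) 0 0,
      lin_exp (fderiv ℝ φ (XX s θ)) (-Real.cos θ)]
    have r1 := euler2 hs hh (v := e1) hne
    have r2 := euler2 hs hh (v := e2) hne
    have r3 := euler2 hs hh (v := e3) hne
    have s1 := symm2 hs hh hne e2 e1
    have s2 := symm2 hs hh hne e3 e1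
    have s3 := symm2 hs hh hne e3 e2
    have t1 := Real.sin_sq_add_cos_sq θ
    have t2 := Real.cosh_sq s
    generalize hB : fderiv ℝ (fderiv ℝ φ) (XX s θ) = B at *
    generalize hDD : fderiv ℝ φ (XX s θ) = D at *
    have r1' : B e1 (Real.cos θ, Real.sin θ, Real.sinh s) = -D e1 := r1
    have r2' : B e2 (Real.cos θ, Real.sin θ, Real.sinh s) = -D e2 := r2
    have r3' : B e3 (Real.cos θ, Real.sin θ, Real.sinh s) = -D e3 := r3
    rw [lin_exp (B e1)] at r1'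
    rw [lin_exp (B e2)] at r2'
    rw [lin_exp (B e3)] at r3'
    rw [s1] at r2' ⊢
    rw [s2, s3] at r3'
    linear_combination (-Real.cos θ) * r1' + (-Real.sin θ) * r2' + Real.sinh s * r3' +
      (B e1 e1 + B e2 e2) * t1 + (B e3 e3) * t2

end Pool.Agent.NH44.SR
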