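import Pool.Agent.NH44.SR.Geom
import Pool.Agent.NH44.SR.Merc

/-!
# Euclidean distances in the coordinates of Mercator
-/

set_option autoImplicit false

open MeasureTheory Real Filter Topology Set Function

namespace Pool.Agent.NH44.SR

theorem ed_PP (s θ s' θ' : ℝ) : ed (PP s θ) (PP s' θ') ^ 2 =
    2 * (Real.cosh (s - s') - Real.cos (θ - θ')) / (Real.cosh s * Real.cosh s') := by
  rw [ed_sph (PP_sph s θ) (PP_sph s' θ')]
  have h1 := Real.cosh_pos s
  have h2 := Real.cosh_pos s'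
  unfold PP
  simp only
  rw [Real.tanh_eq_sinh_div_cosh, Real.tanh_eq_sinh_div_cosh, Real.cosh_sub, Real.cos_sub]
  field_simp
  ring

theorem cosh_le_mul (a b : ℝ) : Real.cosh a ≤ Real.cosh b * Real.exp |a - b| := by
  rw [Real.cosh_eq, Real.cosh_eq]
  have h1 : Real.exp a ≤ Real.exp b * Real.exp |a - b| := by
    rw [← Real.exp_add]
    exact Real.exp_le_exp.2 (by linarith [le_abs_self (a - b)])
  have h2 : Real.exp (-a) ≤ Real.exp (-b) * Real.exp |a - b| := by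
    rw [← Real.exp_add]
    exact Real.exp_le_exp.2 (by linarith [neg_abs_le (a - b)])
  linarith

theorem cosh_lb (x : ℝ) : x ^ 2 ≤ 2 * (Real.cosh x - 1) := by
  have h1 : Real.cosh x = 1 + 2 * Real.sinh (x / 2) ^ 2 := by
    have := Real.cosh_two_mul (x / 2)
    rw [show 2 * (x / 2) = x by ring] at this
    rw [this, Real.cosh_sq]
    ring
  have h2 : (x / 2) ^ 2 ≤ Real.sinh (x / 2) ^ 2 := by
    rcases le_total 0 (x / 2) with h | h
    · exact pow_le_pow_left₀ h (Real.self_le_sinh_iff.2 h) 2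
    · have h3 := Real.sinh_le_self_iff.2 h
      nlinarith
  rw [h1]
  nlinarith

theorem cosh_ub {x T : ℝ} (h : |x| ≤ T) :
    2 * (Real.cosh x - 1) ≤ x ^ 2 * Real.exp (T ^ 2 / 2) := by
  have h1 := Real.cosh_le_exp_half_sq x
  have h2 : x ^ 2 ≤ T ^ 2 := by
    rw [← sq_abs]
    exact pow_le_pow_left₀ (abs_nonneg _) h 2
  have h3 : Real.exp (x ^ 2 / 2) ≤ Real.exp (T ^ 2 / 2) := Real.exp_le_exp.2 (by linarith)
  have h4 := Real.one_sub_le_exp_neg (x ^ 2 / 2)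
  have h5 : Real.exp (-(x ^ 2 / 2)) * Real.exp (x ^ 2 / 2) = 1 := by
    rw [← Real.exp_add]
    simp
  have h6 := Real.exp_pos (x ^ 2 / 2)
  have h7 : (1 - x ^ 2 / 2) * Real.exp (x ^ 2 / 2) ≤ 1 := by
    have h8 := mul_le_mul_of_nonneg_right h4 h6.le
    rwa [h5] at h8
  have h8 : x ^ 2 * Real.exp (x ^ 2 / 2) ≤ x ^ 2 * Real.exp (T ^ 2 / 2) :=
    mul_le_mul_of_nonneg_left h3 (sq_nonneg x)
  nlinarith

theorem ds_le (s θ s' θ' : ℝ) :
    (s - s') ^ 2 ≤ ed (PP s θ) (PP s' θ') ^ 2 * (Real.cosh s * Real.cosh s') := by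
  have h1 := Real.cosh_pos s
  have h2 := Real.cosh_pos s'
  have h3 := cosh_lb (s - s')
  have h4 := Real.cos_le_one (θ - θ')
  rw [ed_PP, div_mul_cancel₀ _ (by positivity)]
  linarith

theorem dt_le {s θ s' θ' : ℝ} (h : |θ - θ'| ≤ π) :
    (θ - θ') ^ 2 ≤ 5 / 2 * (ed (PP s θ) (PP s' θ') ^ 2 * (Real.cosh s * Real.cosh s')) := by
  have h1 := Real.cosh_pos s
  have h2 := Real.cosh_pos s'
  have h3 := Real.one_le_cosh (s - s')
  have h4 := Real.cos_le_one_sub_mul_cos_sq h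
  rw [ed_PP, div_mul_cancel₀ _ (by positivity)]
  have h5 : π ^ 2 ≤ 10 := by
    have := Real.pi_lt_d2
    have := Real.pi_pos
    nlinarith
  have h6 : (θ - θ') ^ 2 ≤ 10 / π ^ 2 * (θ - θ') ^ 2 := by
    have : 1 ≤ 10 / π ^ 2 := by
      rw [le_div_iff₀ (by positivity)]
      linarith
    nlinarith [sq_nonneg (θ - θ')]
  have h7 : 10 / π ^ 2 * (θ - θ') ^ 2 = 5 * (2 / π ^ 2 * (θ - θ') ^ 2) := by ring
  linarith

theorem ed_le_of {s θ s' θ' T : ℝ} (h : |s - s'| ≤ T) : ed (PP s θ) (PP s' θ') ^ 2 ≤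
    ((s - s') ^ 2 * Real.exp (T ^ 2 / 2) + (θ - θ') ^ 2) / (Real.cosh s * Real.cosh s') := by
  have h1 := Real.cosh_pos s
  have h2 := Real.cosh_pos s'
  have h3 := cosh_ub h
  have h4 := Real.one_sub_sq_div_two_le_cos (x := θ - θ')
  rw [ed_PP]
  refine div_le_div_of_nonneg_right ?_ (by positivity)
  linarith

theorem polar (a b θ0 : ℝ) : ∃ θ ∈ Ico θ0 (θ0 + 2 * π), a = Real.sqrt (a ^ 2 + b ^ 2) * Real.cos θ ∧
    b = Real.sqrt (a ^ 2 + b ^ 2) * Real.sin θ := by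
  set z : ℂ := ⟨a, b⟩ with hz
  have hn : ‖z‖ = Real.sqrt (a ^ 2 + b ^ 2) := Complex.norm_eq_sqrt_sq_add_sq z
  have h1 := Complex.norm_mul_cos_arg z
  have h2 := Complex.norm_mul_sin_arg z
  rw [hn] at h1 h2
  refine ⟨toIcoMod Real.two_pi_pos θ0 (Complex.arg z), toIcoMod_mem_Ico _ _ _, ?_, ?_⟩
  · have h3 : Real.cos (toIcoMod Real.two_pi_pos θ0 (Complex.arg z)) = Real.cos (Complex.arg z) :=
      Real.cos_periodic.sub_zsmul_eq _
    rw [h3, h1]
  · have h3 : Real.sin (toIcoMod Real.two_pi_pos θ0 (Complex.arg z)) = Real.sin (Complex.arg z) :=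
      Real.sin_periodic.sub_zsmul_eq _
    rw [h3, h2]

theorem axis_lip (a b a' b' : ℝ) : |Real.sqrt (a ^ 2 + b ^ 2) - Real.sqrt (a' ^ 2 + b' ^ 2)| ≤
    Real.sqrt ((a - a') ^ 2 + (b - b') ^ 2) := by
  have h1 := abs_norm_sub_norm_le (⟨a, b⟩ : ℂ) ⟨a', b'⟩
  rw [Complex.norm_eq_sqrt_sq_add_sq, Complex.norm_eq_sqrt_sq_add_sq,
    Complex.norm_eq_sqrt_sq_add_sq] at h1
  simpa using h1

/-- coordinates of a point which is not a pole -/
theorem exists_coord {q : ℝ × ℝ × ℝ} (hq : q ∈ sph) (hz : q.2.2 ∈ Ioo (-1 : ℝ) 1) (θ0 : ℝ) :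
    ∃ θ ∈ Ico θ0 (θ0 + 2 * π), q = PP (Real.artanh q.2.2) θ := by
  obtain ⟨θ, hθ, h1, h2⟩ := polar q.1 q.2.1 θ0
  have h3 : q.1 ^ 2 + q.2.1 ^ 2 = 1 - q.2.2 ^ 2 := by
    rw [sph_iff] at hq
    linarith
  rw [h3] at h1 h2
  refine ⟨θ, hθ, ?_⟩
  unfold PP
  rw [Real.cosh_artanh hz, Real.tanh_artanh hz]
  refine Prod.ext ?_ (Prod.ext ?_ rfl)
  · simp only
    rw [div_div_eq_mul_div, div_one]
    linarith
  · simp only
    rw [div_div_eq_mul_div, div_one]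
    linarith

theorem z_mem {q : ℝ × ℝ × ℝ} (hq : q ∈ sph) (h : 0 < q.1 ^ 2 + q.2.1 ^ 2) :
    q.2.2 ∈ Ioo (-1 : ℝ) 1 := by
  rw [sph_iff] at hq
  have h1 : q.2.2 ^ 2 < 1 := by linarith
  constructor <;> nlinarith

/-- a close point in the domain of the coordinates -/
theorem center {Y : ℝ} (hY : 1 < Y) {c : ℝ × ℝ × ℝ} (hc : c ∈ sph) :
    ∃ s', ∃ θ' ∈ Ico 0 (2 * π), Real.cosh s' ≤ Y ∧ ed (PP s' θ') c ≤ 2 / Y := by
  have hY0 : 0 < Y := by linarith
  have hc' := sph_iff.1 hc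
  set h0 := Real.sqrt (c.1 ^ 2 + c.2.1 ^ 2) with hh0
  have hh0n : 0 ≤ h0 := Real.sqrt_nonneg _
  have hh02 : h0 ^ 2 = c.1 ^ 2 + c.2.1 ^ 2 := Real.sq_sqrt (by positivity)
  rcases le_or_gt (1 / Y) h0 with h | h
  · have hpos : 0 < h0 := lt_of_lt_of_le (by positivity) h
    have hz := z_mem hc (by rw [← hh02]; positivity)
    obtain ⟨θ, hθ, he⟩ := exists_coord hc hz 0
    rw [zero_add] at hθ
    refine ⟨Real.artanh c.2.2, θ, hθ, ?_, ?_⟩
    · rw [Real.cosh_artanh hz]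
      have h1 : 1 - c.2.2 ^ 2 = h0 ^ 2 := by rw [hh02]; linarith
      rw [h1, Real.sqrt_sq hh0n, div_le_iff₀ hpos]
      rw [div_le_iff₀ hY0] at h
      linarith
    · rw [← he]
      have h1 : ed c c = 0 := by
        have : ed c c ^ 2 = 0 := by rw [ed_sq]; ring
        exact pow_eq_zero_iff two_ne_zero |>.1 this
      rw [h1]
      positivity
  · obtain ⟨θ, hθ, h1, h2⟩ := polar c.1 c.2.1 0
    rw [zero_add] at hθ
    rw [← hh0] at h1 h2
    have hY2 : 1 / Y ^ 2 < 1 := by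
      rw [div_lt_one (by positivity)]
      nlinarith
    obtain ⟨z, hz2, hzc⟩ : ∃ z : ℝ, z ^ 2 = 1 - 1 / Y ^ 2 ∧ 0 ≤ z * c.2.2 := by
      rcases le_total 0 c.2.2 with h3 | h3
      · exact ⟨Real.sqrt (1 - 1 / Y ^ 2), Real.sq_sqrt (by linarith), by positivity⟩
      · refine ⟨-Real.sqrt (1 - 1 / Y ^ 2), ?_, ?_⟩
        · rw [neg_sq, Real.sq_sqrt (by linarith)]
        · have := Real.sqrt_nonneg (1 - 1 / Y ^ 2)
          nlinarith
    have hYp : 0 < 1 / Y ^ 2 := by positivity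
    have hz : z ∈ Ioo (-1 : ℝ) 1 := by
      constructor <;> nlinarith
    have hcosh : Real.cosh (Real.artanh z) = Y := by
      rw [Real.cosh_artanh hz, hz2]
      have : 1 - (1 - 1 / Y ^ 2) = (1 / Y) ^ 2 := by
        rw [div_pow]
        ring
      rw [this, Real.sqrt_sq (by positivity)]
      simp
    refine ⟨Real.artanh z, θ, hθ, hcosh.le, ?_⟩
    have h3 : ed (PP (Real.artanh z) θ) c ^ 2 ≤ (2 / Y) ^ 2 := by
      rw [ed_sph (PP_sph _ _) hc]
      unfold PP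
      simp only
      rw [hcosh, Real.tanh_artanh hz]
      have h4 : Real.cos θ / Y * c.1 + Real.sin θ / Y * c.2.1 = h0 / Y := by
        rw [h1, h2]
        have := Real.sin_sq_add_cos_sq θ
        field_simp
        linear_combination h0 * this
      rw [h4]
      have h5 : 0 ≤ h0 / Y := by positivity
      have h6 : c.2.2 ^ 2 = 1 - h0 ^ 2 := by rw [hh02]; linarith
      have h7 : (z * c.2.2) ^ 2 ≤ z * c.2.2 := by
        have k1 : z * c.2.2 ≤ 1 := by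
          have k2 : (z * c.2.2) ^ 2 ≤ 1 ^ 2 := by
            rw [mul_pow, hz2, h6]
            have k3 : (1 - 1 / Y ^ 2) * (1 - h0 ^ 2) ≤ 1 * 1 := by
              have k4 : 0 ≤ 1 - h0 ^ 2 := by rw [← h6]; positivity
              have k5 : 1 - h0 ^ 2 ≤ 1 := by nlinarith
              exact mul_le_mul (by linarith) k5 k4 zero_le_one
            linarith
          exact (abs_le_of_sq_le_sq' k2 zero_le_one).2
        nlinarith
      rw [mul_pow, hz2, h6] at h7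
      have h8 : h0 ^ 2 ≤ 1 / Y ^ 2 := by
        have : h0 ^ 2 ≤ (1 / Y) ^ 2 := pow_le_pow_left₀ hh0n h.le 2
        rwa [div_pow, one_pow] at this
      have h9 : (2 / Y) ^ 2 = 4 * (1 / Y ^ 2) := by
        rw [div_pow]
        ring
      rw [h9]
      have h10 : 0 ≤ 1 / Y ^ 2 * h0 ^ 2 := by positivity
      nlinarith
    exact (abs_le_of_sq_le_sq' h3 (by positivity)).2

/-- distance to the pole -/
theorem pole_ed {s : ℝ} {q : ℝ × ℝ × ℝ} (hq : q ∈ sph) (h : Real.tanh s ≤ q.2.2) :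
    ed q (0, 0, 1) ≤ 2 * Real.exp (-s) := by
  have h1 : ((0, 0, 1) : ℝ × ℝ × ℝ) ∈ sph := by
    rw [sph_iff]
    norm_num
  have h2 : ed q (0, 0, 1) ^ 2 ≤ (2 * Real.exp (-s)) ^ 2 := by
    rw [ed_sph hq h1]
    simp only
    have h3 : 1 - Real.tanh s ≤ 2 * Real.exp (-s) ^ 2 := by
      rw [Real.tanh_eq_sinh_div_cosh, sub_le_iff_le_add, ← sub_le_iff_le_add',
        le_div_iff₀ (Real.cosh_pos s), Real.sinh_eq, Real.cosh_eq]
      have h4 : Real.exp s * Real.exp (-s) = 1 := by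
        rw [← Real.exp_add]
        simp
      have h5 := Real.exp_pos s
      have h6 := Real.exp_pos (-s)
      have h7 : Real.exp (-s) ^ 2 * Real.exp s = Real.exp (-s) := by
        rw [sq, mul_assoc, mul_comm (Real.exp (-s)) (Real.exp s), h4, mul_one]
      have h8 : 0 < Real.exp (-s) ^ 3 := by positivity
      nlinarith
    nlinarith
  have := Real.exp_pos (-s)
  exact (abs_le_of_sq_le_sq' h2 (by positivity)).2

theorem pole_ed' {s : ℝ} {q : ℝ × ℝ × ℝ} (hq : q ∈ sph) (h : q.2.2 ≤ -Real.tanh s) :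
    ed q (0, 0, -1) ≤ 2 * Real.exp (-s) := by
  have h1 : ((q.1, q.2.1, -q.2.2) : ℝ × ℝ × ℝ) ∈ sph := by
    rw [sph_iff] at hq ⊢
    simpa using hq
  have h2 := pole_ed (s := s) h1 (by simp only; linarith)
  have h3 : ed q (0, 0, -1) = ed (q.1, q.2.1, -q.2.2) (0, 0, 1) := by
    unfold ed nn
    congr 1
    simp only [Prod.fst_sub, Prod.snd_sub]
    ring
  rw [h3]
  exact h2

end Pool.Agent.NH44.SR
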