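import Mathlib

/-!
# Eigenfunctions, geodesic discs and doubling indices on a sphere of revolution

The surface is the unit sphere `x² + y² + z² = 1` of `ℝ × ℝ × ℝ` with the metric `ρ(z) g`, where `g`
is the round metric and `ρ > 0` is a function of the height `z`.
-/

set_option autoImplicit false

namespace Pool.Agent.NH44.SR

open MeasureTheory Real

/-- The unit sphere. -/
def sph : Set (ℝ × ℝ × ℝ) := {p | p.1 ^ 2 + p.2.1 ^ 2 + p.2.2 ^ 2 = 1}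

/-- The length of the curve `γ : [0, 1] → ℝ × ℝ × ℝ` on the sphere, in the metric `ρ(z) g`. -/
noncomputable def len (ρ : ℝ → ℝ) (γ : ℝ → ℝ × ℝ × ℝ) : ℝ :=
  ∫ s in (0 : ℝ)..1, Real.sqrt (ρ (γ s).2.2) *
    Real.sqrt ((deriv γ s).1 ^ 2 + (deriv γ s).2.1 ^ 2 + (deriv γ s).2.2 ^ 2)

/-- The Riemannian distance on the sphere with the metric `ρ(z) g`: the infimum of the lengths of
the `C¹` curves on the sphere from `p` to `q`. -/
noncomputable def gdist (ρ : ℝ → ℝ) (p q : ℝ × ℝ × ℝ) : ℝ :=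
  sInf {l : ℝ | ∃ γ : ℝ → ℝ × ℝ × ℝ, ContDiff ℝ 1 γ ∧ (∀ s ∈ Set.Icc (0 : ℝ) 1, γ s ∈ sph) ∧
    γ 0 = p ∧ γ 1 = q ∧ l = len ρ γ}

/-- The geodesic disc of radius `r` with center `p`. -/
def disc (ρ : ℝ → ℝ) (p : ℝ × ℝ × ℝ) (r : ℝ) : Set (ℝ × ℝ × ℝ) :=
  {q | q ∈ sph ∧ gdist ρ p q < r}

/-- The doubling index of `φ` on the geodesic disc of radius `r` with center `p`. -/
noncomputable def doubling (ρ : ℝ → ℝ) (φ : ℝ × ℝ × ℝ → ℝ) (p : ℝ × ℝ × ℝ) (r : ℝ) : ℝ :=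
  Real.logb 2 (sSup ((fun q => |φ q|) '' disc ρ p (2 * r)) /
    sSup ((fun q => |φ q|) '' disc ρ p r))

/-- The Laplacian of `ℝ × ℝ × ℝ`. -/
noncomputable def lap (φ : ℝ × ℝ × ℝ → ℝ) (p : ℝ × ℝ × ℝ) : ℝ :=
  iteratedDeriv 2 (fun x => φ (x, p.2.1, p.2.2)) p.1 +
    iteratedDeriv 2 (fun y => φ (p.1, y, p.2.2)) p.2.1 +
    iteratedDeriv 2 (fun z => φ (p.1, p.2.1, z)) p.2.2

/-- `φ` is a real eigenfunction with eigenvalue `lam > 0` of the Laplacian of the sphere with the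
metric `ρ(z) g`. A function on the sphere is identified with its extension to `ℝ × ℝ × ℝ` without
the origin which is homogeneous of degree `0`; on the sphere the Laplacian of the extension is the
one of the round metric, and the equation is `lap φ + lam * ρ * φ = 0`. -/
structure Eigen (ρ : ℝ → ℝ) (lam : ℝ) (φ : ℝ × ℝ × ℝ → ℝ) : Prop where
  pos : 0 < lam
  smooth : ContDiffOn ℝ 2 φ {0}ᶜ
  hom : ∀ t : ℝ, 0 < t → ∀ p : ℝ × ℝ × ℝ, φ (t * p.1, t * p.2.1, t * p.2.2) = φ p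
  ne : ∃ p ∈ sph, φ p ≠ 0
  eq : ∀ p ∈ sph, lap φ p + lam * ρ p.2.2 * φ p = 0

/-- The discs of radius `C / √lam` with centers `c i` form an admissible covering for `φ` with
constants `C`, `C₁`, `C₂`. -/
structure Admissible (ρ : ℝ → ℝ) (lam : ℝ) (φ : ℝ × ℝ × ℝ → ℝ) (C C₁ C₂ : ℝ)
    {ι : Type} [Fintype ι] (c : ι → ℝ × ℝ × ℝ) : Prop where
  mem : ∀ i, c i ∈ sph
  cover : ∀ q ∈ sph, ∃ i, q ∈ disc ρ (c i) (C / Real.sqrt lam)
  lower : C₂⁻¹ * lam ≤ Fintype.card ι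
  upper : (Fintype.card ι : ℝ) ≤ C₂ * lam
  mult : ∀ q ∈ sph, ({i | q ∈ disc ρ (c i) (C / Real.sqrt lam)}.ncard : ℝ) ≤ C₁
  zero : ∀ i, φ (c i) = 0

end Pool.Agent.NH44.SR
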