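import Pool.Agent.NH44.SR.Chart
import Pool.Agent.NH44.SR.Cap
import Pool.Agent.NH44.SR.Chain2

/-!
# The doubling index of a disc
-/

set_option autoImplicit false

open MeasureTheory Real Filter Topology Set Function
open Pool.Agent.Y291.DB (dl dl_pos dl_le dl_sq Sol)
open Pool.Agent.Y291.PA (Sol2)

namespace Pool.Agent.NH44.SR

section QQ

variable {ρ : ℝ → ℝ} {ρm ρM lam : ℝ}

theorem tanh_mem (s : ℝ) : Real.tanh s ∈ Icc (-1 : ℝ) 1 :=
  ⟨(Real.neg_one_lt_tanh s).le, (Real.tanh_lt_one s).le⟩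

theorem QQ_nonneg (hlam : 0 < lam) (hρ0 : ∀ z ∈ Icc (-1 : ℝ) 1, 0 < ρ z) (s : ℝ) :
    0 ≤ QQ ρ lam s := by
  have h1 := hρ0 _ (tanh_mem s)
  unfold QQ
  positivity

theorem QQ_cosh (hlam : 0 < lam) (hρM : ∀ z ∈ Icc (-1 : ℝ) 1, ρ z ≤ ρM) (s : ℝ) :
    QQ ρ lam s ≤ lam * ρM / Real.cosh s ^ 2 := by
  have h1 := hρM _ (tanh_mem s)
  have h2 := Real.cosh_pos s
  unfold QQ
  exact div_le_div_of_nonneg_right (mul_le_mul_of_nonneg_left h1 hlam.le) (by positivity)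

theorem QQ_le (hlam : 0 < lam) (hM0 : 0 < ρM) (hρM : ∀ z ∈ Icc (-1 : ℝ) 1, ρ z ≤ ρM) (s : ℝ) :
    QQ ρ lam s ≤ lam * ρM := by
  refine (QQ_cosh hlam hρM s).trans ?_
  have h2 := Real.one_le_cosh s
  refine div_le_self (by positivity) ?_
  nlinarith

theorem QQ_exp (hlam : 0 < lam) (hM0 : 0 < ρM) (hρM : ∀ z ∈ Icc (-1 : ℝ) 1, ρ z ≤ ρM) (s : ℝ) :
    QQ ρ lam s ≤ 4 * (lam * ρM) * Real.exp (-2 * |s|) := by
  refine (QQ_cosh hlam hρM s).trans ?_
  have h1 : Real.exp |s| / 2 ≤ Real.cosh s := by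
    rw [← Real.cosh_abs, Real.cosh_eq]
    have := Real.exp_pos (-|s|)
    linarith
  have h2 := Real.exp_pos |s|
  have h3 : Real.exp (-2 * |s|) * Real.exp |s| ^ 2 = 1 := by
    rw [← Real.exp_nat_mul, ← Real.exp_add]
    have : -2 * |s| + ((2 : ℕ) : ℝ) * |s| = 0 := by push_cast; ring
    rw [this, Real.exp_zero]
  have h4 : (Real.exp |s| / 2) ^ 2 ≤ Real.cosh s ^ 2 := pow_le_pow_left₀ (by positivity) h1 2
  have h5 := Real.cosh_pos s
  rw [div_le_iff₀ (by positivity)]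
  have h6 : 0 < Real.exp (-2 * |s|) := Real.exp_pos _
  have h7 : 4 * (lam * ρM) * Real.exp (-2 * |s|) * (Real.exp |s| / 2) ^ 2 = lam * ρM := by
    have : 4 * (lam * ρM) * Real.exp (-2 * |s|) * (Real.exp |s| / 2) ^ 2 =
      lam * ρM * (Real.exp (-2 * |s|) * Real.exp |s| ^ 2) := by ring
    rw [this, h3, mul_one]
  calc lam * ρM = 4 * (lam * ρM) * Real.exp (-2 * |s|) * (Real.exp |s| / 2) ^ 2 := h7.symm
    _ ≤ 4 * (lam * ρM) * Real.exp (-2 * |s|) * Real.cosh s ^ 2 := by gcongr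

end QQ

theorem sph_sub : sph ⊆ ({0}ᶜ : Set (ℝ × ℝ × ℝ)) := by
  intro p hp
  rw [mem_compl_iff, mem_singleton_iff]
  rintro rfl
  rw [sph_iff] at hp
  norm_num at hp

theorem sph_compact : IsCompact sph := by
  refine Metric.isCompact_of_isClosed_isBounded ?_ ?_
  · exact isClosed_eq (by fun_prop) continuous_const
  · refine (Metric.isBounded_Icc ((-1 : ℝ), (-1 : ℝ), (-1 : ℝ)) (1, 1, 1)).subset fun p hp => ?_
    rw [sph_iff] at hp
    have h1 : |p.1| ≤ 1 := abs_le_of_sq_le_sq (by nlinarith [sq_nonneg p.2.1, sq_nonneg p.2.2])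
      zero_le_one
    have h2 : |p.2.1| ≤ 1 := abs_le_of_sq_le_sq (by nlinarith [sq_nonneg p.1, sq_nonneg p.2.2])
      zero_le_one
    have h3 : |p.2.2| ≤ 1 := abs_le_of_sq_le_sq (by nlinarith [sq_nonneg p.1, sq_nonneg p.2.1])
      zero_le_one
    rw [abs_le] at h1 h2 h3
    exact ⟨⟨h1.1, h2.1, h3.1⟩, ⟨h1.2, h2.2, h3.2⟩⟩

section caps

variable {φ : ℝ × ℝ × ℝ → ℝ} (hcont : ContinuousOn φ {0}ᶜ)
  (hh : ∀ t : ℝ, 0 < t → ∀ p : ℝ × ℝ × ℝ, φ (t * p.1, t * p.2.1, t * p.2.2) = φ p)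

include hcont in
theorem phi_bound : ∃ B : ℝ, 0 ≤ B ∧ ∀ p ∈ sph, |φ p| ≤ B := by
  obtain ⟨B, hB⟩ := sph_compact.exists_bound_of_continuousOn (hcont.mono sph_sub)
  have h0 : ((0, 0, 1) : ℝ × ℝ × ℝ) ∈ sph := by
    rw [sph_iff]
    norm_num
  exact ⟨B, (norm_nonneg _).trans (hB _ h0), fun p hp => hB p hp⟩

include hcont hh

theorem cap_all {sc m : ℝ} (h : ∀ s, sc ≤ s → ∀ y, |UU φ s y| ≤ m) {q : ℝ × ℝ × ℝ}
    (hq : q ∈ sph) (hz : Real.tanh sc ≤ q.2.2) : |φ q| ≤ m := by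
  have t2 := Real.neg_one_lt_tanh sc
  have t1 := Real.tanh_lt_one sc
  have hart : ∀ z, Real.tanh sc ≤ z → z < 1 → sc ≤ Real.artanh z := by
    intro z h1 h2
    have := Real.artanh_le_artanh t2 h2 h1
    rwa [Real.artanh_tanh] at this
  have hz1 := (sph_z hq).2
  rcases hz1.eq_or_lt with h1 | h1
  · -- the pole
    have hq' : q = (0, 0, 1) := by
      rw [sph_iff, h1] at hq
      have k1 : q.1 = 0 := pow_eq_zero_iff two_ne_zero |>.1
        (by nlinarith [sq_nonneg q.1, sq_nonneg q.2.1] : q.1 ^ 2 = 0)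
      have k2 : q.2.1 = 0 := pow_eq_zero_iff two_ne_zero |>.1
        (by nlinarith [sq_nonneg q.1, sq_nonneg q.2.1] : q.2.1 ^ 2 = 0)
      exact Prod.ext k1 (Prod.ext k2 h1)
    have hp0 : ((0, 0, 1) : ℝ × ℝ × ℝ) ∈ ({0}ᶜ : Set (ℝ × ℝ × ℝ)) := by
      rw [mem_compl_iff, mem_singleton_iff]
      intro h
      have := congrArg (fun p : ℝ × ℝ × ℝ => p.2.2) h
      norm_num at this
    have hcpt : ContinuousAt φ (0, 0, 1) :=
      hcont.continuousAt (isOpen_compl_singleton.mem_nhds hp0)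
    have hg : Tendsto (fun t : ℝ => ((Real.sqrt (1 - t ^ 2), 0, t) : ℝ × ℝ × ℝ)) (𝓝[<] 1)
        (𝓝 (0, 0, 1)) := by
      have h2 : Continuous fun t : ℝ => ((Real.sqrt (1 - t ^ 2), 0, t) : ℝ × ℝ × ℝ) := by fun_prop
      have h3 := h2.tendsto 1
      simp only [one_pow, sub_self, Real.sqrt_zero] at h3
      exact h3.mono_left nhdsWithin_le_nhds
    have h2 : Tendsto (fun t : ℝ => |φ (Real.sqrt (1 - t ^ 2), 0, t)|) (𝓝[<] 1)
        (𝓝 |φ (0, 0, 1)|) := (hcpt.tendsto.comp hg).abs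
    rw [hq']
    refine le_of_tendsto h2 ?_
    have h3 : Ioo (Real.tanh sc) 1 ∈ 𝓝[<] (1 : ℝ) := Ioo_mem_nhdsLT t1
    filter_upwards [h3] with t ht
    have hz' : t ∈ Ioo (-1 : ℝ) 1 := ⟨by linarith [ht.1], ht.2⟩
    have h4 : ((Real.sqrt (1 - t ^ 2), 0, t) : ℝ × ℝ × ℝ) = PP (Real.artanh t) 0 := by
      unfold PP
      rw [Real.cosh_artanh hz', Real.tanh_artanh hz', Real.cos_zero, Real.sin_zero]
      simp
    rw [h4, ← UU_PP hh]
    exact h _ (hart t ht.1.le ht.2) 0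
  · obtain ⟨θ, -, he⟩ := exists_coord hq ⟨by linarith, h1⟩ 0
    rw [he, ← UU_PP hh]
    exact h _ (hart _ hz h1) θ

theorem cap_all' {sc m : ℝ} (h : ∀ s, sc ≤ s → ∀ y, |UU φ (-s) y| ≤ m) {q : ℝ × ℝ × ℝ}
    (hq : q ∈ sph) (hz : q.2.2 ≤ -Real.tanh sc) : |φ q| ≤ m := by
  have hR : ContinuousOn (fun p : ℝ × ℝ × ℝ => φ (p.1, p.2.1, -p.2.2)) {0}ᶜ := by
    refine hcont.comp (by fun_prop) fun p hp => ?_
    rw [mem_compl_iff, mem_singleton_iff] at hp ⊢
    intro h0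
    apply hp
    have h1 : p.1 = 0 := congrArg Prod.fst h0
    have h2 : p.2.1 = 0 := congrArg (fun p : ℝ × ℝ × ℝ => p.2.1) h0
    have h3 : -p.2.2 = 0 := congrArg (fun p : ℝ × ℝ × ℝ => p.2.2) h0
    exact Prod.ext h1 (Prod.ext h2 (by simpa using h3))
  have hq' : ((q.1, q.2.1, -q.2.2) : ℝ × ℝ × ℝ) ∈ sph := by
    rw [sph_iff] at hq ⊢
    simpa using hq
  have h1 := cap_all (φ := fun p : ℝ × ℝ × ℝ => φ (p.1, p.2.1, -p.2.2)) hR
    (fun t ht p => by
      have := hh t ht (p.1, p.2.1, -p.2.2)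
      simp only at this ⊢
      rw [← mul_neg]
      exact this) (sc := sc) (m := m) (fun s hs y => by
      have h2 : UU (fun p : ℝ × ℝ × ℝ => φ (p.1, p.2.1, -p.2.2)) s y = UU φ (-s) y := by
        unfold UU XX
        simp only
        rw [Real.sinh_neg]
      rw [h2]
      exact h s hs y) hq' (by simp only; linarith)
  simpa using h1

end caps

theorem Sol.to2 {q : ℝ → ℝ} {U Ux Uxx Uy Uyy : ℝ → ℝ → ℝ} (h : Sol q U Ux Uxx Uy Uyy) :
    Sol2 (fun x _ => q x) U Ux Uxx Uy Uyy := by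
  refine ⟨?_, h.c, h.cx, h.cxx, h.cy, h.cyy, h.dx, h.dxx, h.dy, h.dyy, h.pde⟩
  have : Continuous fun p : ℝ × ℝ => q p.1 := h.qc.comp continuous_fst
  exact this

theorem UU_per (φ : ℝ × ℝ × ℝ → ℝ) (x y : ℝ) : UU φ x (y + 2 * π) = UU φ x y := by
  unfold UU XX
  rw [Real.cos_add_two_pi, Real.sin_add_two_pi]

/-- The doubling index of a disc. -/
theorem disc_bound {ρ : ℝ → ℝ} {ρm ρM : ℝ} (hρc : Continuous ρ) (hρm0 : 0 < ρm)
    (hρm : ∀ z ∈ Icc (-1 : ℝ) 1, ρm ≤ ρ z) (hρM : ∀ z ∈ Icc (-1 : ℝ) 1, ρ z ≤ ρM)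
    {C β : ℝ} (hC : 0 < C) (hβ : 0 < β) (hβ1 : β ≤ 1) (hβC : β * Real.sqrt ρM ≤ C) :
    ∃ (β2 T1 : ℝ) (N : ℕ), 0 < β2 ∧ 0 ≤ T1 ∧
      ∀ (lam : ℝ) (φ : ℝ × ℝ × ℝ → ℝ), Eigen ρ lam φ → ∀ c ∈ sph, ∃ s' θ' : ℝ,
        θ' ∈ Ico 0 (2 * π) ∧ ed (PP s' θ') c ≤ dl lam ∧
        (N + 4) * (β2 * dl lam * Real.cosh s') ≤ T1 ∧
        ∀ n1 n2 : ℕ,
        (∀ t, |t - s'| ≤ (N + 4) * (β2 * dl lam * Real.cosh s') →
          |t + β2 * dl lam * Real.cosh s' - s'| ≤ (N + 4) * (β2 * dl lam * Real.cosh s') →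
          ∃ a ∈ Icc t (t + β2 * dl lam * Real.cosh s'), ∃ Z : Finset ℝ, Z.card ≤ n1 ∧
            ∀ s, |s - θ'| ≤ (N + 4) * (β2 * dl lam * Real.cosh s') → UU φ a s = 0 → s ∈ Z) →
        (∀ t, |t - θ'| ≤ (N + 4) * (β2 * dl lam * Real.cosh s') →
          |t + β2 * dl lam * Real.cosh s' - θ'| ≤ (N + 4) * (β2 * dl lam * Real.cosh s') →
          ∃ a ∈ Icc t (t + β2 * dl lam * Real.cosh s'), ∃ Z : Finset ℝ, Z.card ≤ n2 ∧
            ∀ s, |s - s'| ≤ (N + 4) * (β2 * dl lam * Real.cosh s') → UU φ s a = 0 → s ∈ Z) →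
        doubling ρ φ c (C / Real.sqrt lam) ≤
          1 + N * (20000 * (2 * n1 + 2 * n2 + 1)) / Real.log 2 := by
  obtain ⟨ε, hε, hG⟩ := growth2
  have hM0 : 0 < ρM := by
    have h0 : (0 : ℝ) ∈ Icc (-1 : ℝ) 1 := ⟨by norm_num, zero_le_one⟩
    exact hρm0.trans_le ((hρm 0 h0).trans (hρM 0 h0))
  obtain ⟨β2, T1, B, N, hβ2, hT1, hB1, hBM, hε2, hch⟩ := chart (A := 6 * C / Real.sqrt ρm + 6)
    (M := ρM) hβ hβ1 (by positivity) hM0.le hε
  refine ⟨β2, T1, N, hβ2, hT1, ?_⟩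
  intro lam φ hφ c hc
  have hlam := hφ.pos
  have hdl := dl_pos hlam
  obtain ⟨s', θ', hθ', h1, h2, h3, h4⟩ := hch (dl lam) hdl (dl_le hlam) c hc
  set δ := β2 * dl lam * Real.cosh s' with hδ
  have hcs' := Real.cosh_pos s'
  have hδ0 : 0 < δ := by positivity
  refine ⟨s', θ', hθ', h1, by linarith, ?_⟩
  intro n1 n2 hA hB
  obtain ⟨Ux, Uxx, Uy, Uyy, hS⟩ := merc hρc hφ
  have hlog2 : 0 < Real.log 2 := Real.log_pos one_lt_two
  set E : ℝ := N * (20000 * (2 * n1 + 2 * n2 + 1)) with hE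
  have hE0 : 0 ≤ E := by positivity
  have hcont : ContinuousOn φ {0}ᶜ := hφ.smooth.continuousOn
  obtain ⟨Bφ, hBφ0, hBφ⟩ := phi_bound hcont
  have hUb : ∀ x y, |UU φ x y| ≤ Bφ := fun x y => by
    rw [UU_PP hφ.hom]
    exact hBφ _ (PP_sph x y)
  have hper := UU_per φ
  -- smallness of the potential
  have hQε : ∀ x, |x - s'| ≤ (N + 26) * δ → |δ ^ 2 * QQ ρ lam x| ≤ ε := by
    intro x hx
    have k1 := QQ_nonneg hlam (fun z hz => hρm0.trans_le (hρm z hz)) x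
    rw [abs_of_nonneg (by positivity)]
    refine le_trans ?_ hε2
    have k2 := QQ_cosh hlam hρM x
    have k3 := Real.cosh_pos x
    have k4 : Real.cosh s' ≤ Real.cosh x * Real.exp T1 := by
      refine (cosh_le_mul s' x).trans ?_
      have : |s' - x| ≤ T1 := by
        rw [abs_sub_comm]
        linarith
      have := Real.exp_le_exp.2 this
      gcongr
    have k5 := dl_sq hlam
    have k6 : lam * dl lam ^ 2 ≤ 1 / 4 := by
      have : 4 * (lam * dl lam ^ 2) = lam / (1 + lam) := by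
        rw [mul_left_comm, k5]
        ring
      have h7 : lam / (1 + lam) ≤ 1 := by
        rw [div_le_one (by linarith)]
        linarith
      linarith
    calc δ ^ 2 * QQ ρ lam x ≤ δ ^ 2 * (lam * ρM / Real.cosh x ^ 2) := by gcongr
      _ = (lam * dl lam ^ 2) * ρM * β2 ^ 2 * (Real.cosh s' / Real.cosh x) ^ 2 := by
          rw [hδ]
          field_simp
      _ ≤ (1 / 4) * ρM * β2 ^ 2 * (Real.exp T1) ^ 2 := by
          have : Real.cosh s' / Real.cosh x ≤ Real.exp T1 := by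
            rw [div_le_iff₀ k3]
            linarith
          gcongr
      _ = ρM / 4 * (β2 ^ 2 * Real.exp (2 * T1)) := by
          have : Real.exp T1 ^ 2 = Real.exp (2 * T1) := by
            rw [← Real.exp_nat_mul]
            norm_num
          rw [this]
          ring
  have hgrow := hG (QQ ρ lam) (UU φ) Ux Uxx Uy Uyy hS.qc (Sol.to2 hS) (s', θ') δ N n1 n2 hδ0 hQε
    hA hB
  -- the growth on the large disc
  have key : ∀ m : ℝ, 0 < m → (∀ q ∈ disc ρ c (C / Real.sqrt lam), |φ q| ≤ m) →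
      ∀ q ∈ disc ρ c (2 * (C / Real.sqrt lam)), |φ q| ≤ m * (2 * Real.exp E) := by
    intro m hm hsmall q hq
    have k1 := hgrow m hm (fun x y hx hy => by
      rw [UU_PP hφ.hom]
      exact hsmall _ (ed_disc hρc hM0 hρM hlam hβ hβC hc (PP_sph x y) (h3 x y hx hy)))
    have hed := disc_ed hρc hρm0 hρm hρM hC hlam hc hq
    have hme : 0 < m * Real.exp E := by positivity
    have hcirc : ∀ s, |s - s'| ≤ N * δ → π ≤ N * δ → ∀ y, |UU φ s y| ≤ m * Real.exp E := by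
      intro s hs hπ y
      have hpe : Function.Periodic (UU φ s) (2 * π) := hper s
      obtain ⟨y', hy', e⟩ := hpe.exists_mem_Ico Real.two_pi_pos y (θ' - π)
      rw [e]
      exact k1 s y' hs (abs_le.2 ⟨by linarith [hy'.1], by linarith [hy'.2]⟩)
    have hBd : Real.exp (Real.log (B / dl lam)) = B / dl lam := Real.exp_log (by positivity)
    have hQc : ∀ s, |s| = s → Real.log (B / dl lam) ≤ s → ∀ s2, |s2| = s → QQ ρ lam s2 ≤
        1 / 4 * Real.exp (-2 * (s - Real.log (B / dl lam))) := by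
      intro s hs0 hs s2 hs2
      have k2 := QQ_exp hlam hM0 hρM s2
      rw [hs2] at k2
      refine k2.trans ?_
      have k3 : Real.exp (-2 * (s - Real.log (B / dl lam))) =
          Real.exp (-2 * s) * (B / dl lam) ^ 2 := by
        rw [← hBd, ← Real.exp_nat_mul, ← Real.exp_add]
        congr 1
        rw [hBd]
        push_cast
        ring
      rw [k3]
      have k4 : 4 * (lam * ρM) ≤ 1 / 4 * (B / dl lam) ^ 2 := by
        rw [div_pow, ← mul_div_assoc, le_div_iff₀ (by positivity)]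
        have k5 := dl_sq hlam
        have k6 : lam * dl lam ^ 2 ≤ 1 / 4 := by
          have : 4 * (lam * dl lam ^ 2) = lam / (1 + lam) := by
            rw [mul_left_comm, k5]
            ring
          have h7 : lam / (1 + lam) ≤ 1 := by
            rw [div_le_one (by linarith)]
            linarith
          linarith
        have k7 : 4 * (lam * ρM) * dl lam ^ 2 = 4 * ρM * (lam * dl lam ^ 2) := by ring
        rw [k7]
        have k8 : 4 * ρM * (lam * dl lam ^ 2) ≤ 4 * ρM * (1 / 4) := by gcongr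
        linarith
      have k5 := Real.exp_pos (-2 * s)
      calc 4 * (lam * ρM) * Real.exp (-2 * s) ≤
          1 / 4 * (B / dl lam) ^ 2 * Real.exp (-2 * s) := by gcongr
        _ = _ := by ring
    have hsc0 : 0 ≤ Real.log (B / dl lam) := by
      refine Real.log_nonneg ?_
      rw [le_div_iff₀ hdl]
      have := dl_le hlam
      linarith
    have e2 : 2 * (m * Real.exp E) = m * (2 * Real.exp E) := by ring
    rcases h4 q hq.1 hed with ⟨s, θ, rfl, hs, hθ⟩ | ⟨hz, hs, hπ⟩ | ⟨hz, hs, hπ⟩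
    · rw [← UU_PP hφ.hom]
      have := k1 s θ hs hθ
      rw [← e2]
      linarith
    · rw [← e2]
      refine cap_all hcont hφ.hom (fun s hs2 y => ?_) hq.1 hz
      exact cap hS hper hUb (fun s hs3 => hQc s (abs_of_nonneg (hsc0.trans hs3)) hs3 s
        (abs_of_nonneg (hsc0.trans hs3))) (hcirc _ hs hπ) hs2
    · rw [← e2]
      refine cap_all' hcont hφ.hom (fun s hs2 y => ?_) hq.1 hz
      exact cap' hS hper hUb (fun s hs3 => hQc s (abs_of_nonneg (hsc0.trans hs3)) hs3 (-s)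
        (by rw [abs_neg]; exact abs_of_nonneg (hsc0.trans hs3))) (hcirc _ hs hπ) hs2
  -- conclusion
  have hbdd : BddAbove ((fun q => |φ q|) '' disc ρ c (C / Real.sqrt lam)) := by
    refine ⟨Bφ, ?_⟩
    rintro _ ⟨q, hq, rfl⟩
    exact hBφ q hq.1
  unfold doubling
  set S1 := sSup ((fun q => |φ q|) '' disc ρ c (C / Real.sqrt lam)) with hS1
  set S2 := sSup ((fun q => |φ q|) '' disc ρ c (2 * (C / Real.sqrt lam))) with hS2
  have hS10 : 0 ≤ S1 := Real.sSup_nonneg (by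
    rintro _ ⟨q, _, rfl⟩
    exact abs_nonneg _)
  have hS20 : 0 ≤ S2 := Real.sSup_nonneg (by
    rintro _ ⟨q, _, rfl⟩
    exact abs_nonneg _)
  have hbound : Real.logb 2 (2 * Real.exp E) = 1 + E / Real.log 2 := by
    rw [Real.logb_mul two_ne_zero (Real.exp_pos _).ne', Real.logb_self_eq_one one_lt_two,
      ← Real.log_div_log, Real.log_exp]
  have hE1 : 0 ≤ E / Real.log 2 := by positivity
  rcases hS10.eq_or_lt with h0 | h0
  · rw [← h0, div_zero, Real.logb_zero]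
    linarith
  · have k1 : S2 ≤ S1 * (2 * Real.exp E) := by
      refine Real.sSup_le ?_ (by positivity)
      rintro _ ⟨q, hq, rfl⟩
      exact key S1 h0 (fun q hq => le_csSup hbdd ⟨q, hq, rfl⟩) q hq
    have k2 : S2 / S1 ≤ 2 * Real.exp E := by
      rw [div_le_iff₀ h0]
      linarith
    rw [← hbound]
    rcases (div_nonneg hS20 hS10).eq_or_lt with h5 | h5
    · rw [← h5, Real.logb_zero, hbound]
      linarith
    · exact Real.logb_le_logb_of_le one_lt_two h5 k2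

end Pool.Agent.NH44.SR
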