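import Pool.Agent.NH44.SR.Defs
import Pool.Agent.Y291.DB.Count

/-!
# Geodesic discs and Euclidean distances
-/

set_option autoImplicit false

open MeasureTheory Real Filter Topology Set Function
open Pool.Agent.Y291.DB (dl dl_pos dl_le dl_sq)

namespace Pool.Agent.NH44.SR

/-- the Euclidean norm -/
noncomputable def nn (v : ℝ × ℝ × ℝ) : ℝ := Real.sqrt (v.1 ^ 2 + v.2.1 ^ 2 + v.2.2 ^ 2)

/-- the Euclidean distance -/
noncomputable def ed (p q : ℝ × ℝ × ℝ) : ℝ := nn (p - q)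

theorem nn_nonneg (v : ℝ × ℝ × ℝ) : 0 ≤ nn v := Real.sqrt_nonneg _

theorem nn_sq (v : ℝ × ℝ × ℝ) : nn v ^ 2 = v.1 ^ 2 + v.2.1 ^ 2 + v.2.2 ^ 2 :=
  Real.sq_sqrt (by positivity)

theorem inner_le (v w : ℝ × ℝ × ℝ) : v.1 * w.1 + v.2.1 * w.2.1 + v.2.2 * w.2.2 ≤ nn v * nn w := by
  have h1 : (v.1 * w.1 + v.2.1 * w.2.1 + v.2.2 * w.2.2) ^ 2 ≤ (nn v * nn w) ^ 2 := by
    rw [mul_pow, nn_sq, nn_sq]
    nlinarith [sq_nonneg (v.1 * w.2.1 - v.2.1 * w.1), sq_nonneg (v.1 * w.2.2 - v.2.2 * w.1),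
      sq_nonneg (v.2.1 * w.2.2 - v.2.2 * w.2.1)]
  exact le_of_sq_le_sq' h1 (mul_nonneg (nn_nonneg _) (nn_nonneg _))
where
  le_of_sq_le_sq' {a b : ℝ} (h : a ^ 2 ≤ b ^ 2) (hb : 0 ≤ b) : a ≤ b := abs_le_of_sq_le_sq' h hb |>.2

theorem nn_add (v w : ℝ × ℝ × ℝ) : nn (v + w) ≤ nn v + nn w := by
  have h1 : nn (v + w) ^ 2 ≤ (nn v + nn w) ^ 2 := by
    have h2 := inner_le v w
    have e1 : nn (v + w) ^ 2 = (v.1 + w.1) ^ 2 + (v.2.1 + w.2.1) ^ 2 + (v.2.2 + w.2.2) ^ 2 :=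
      nn_sq _
    have e2 := nn_sq v
    have e3 := nn_sq w
    rw [e1]
    nlinarith
  exact (abs_le_of_sq_le_sq' h1 (add_nonneg (nn_nonneg _) (nn_nonneg _))).2

theorem ed_nonneg (p q : ℝ × ℝ × ℝ) : 0 ≤ ed p q := nn_nonneg _

theorem ed_comm (p q : ℝ × ℝ × ℝ) : ed p q = ed q p := by
  unfold ed nn
  congr 1
  simp only [Prod.fst_sub, Prod.snd_sub]
  ring

theorem ed_sq (p q : ℝ × ℝ × ℝ) :
    ed p q ^ 2 = (p.1 - q.1) ^ 2 + (p.2.1 - q.2.1) ^ 2 + (p.2.2 - q.2.2) ^ 2 := nn_sq _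

theorem ed_tri (p q r : ℝ × ℝ × ℝ) : ed p r ≤ ed p q + ed q r := by
  have := nn_add (p - q) (q - r)
  rwa [sub_add_sub_cancel] at this

theorem sph_iff {p : ℝ × ℝ × ℝ} : p ∈ sph ↔ p.1 ^ 2 + p.2.1 ^ 2 + p.2.2 ^ 2 = 1 := Iff.rfl

theorem ed_sph {p q : ℝ × ℝ × ℝ} (hp : p ∈ sph) (hq : q ∈ sph) :
    ed p q ^ 2 = 2 - 2 * (p.1 * q.1 + p.2.1 * q.2.1 + p.2.2 * q.2.2) := by
  rw [ed_sq]
  rw [sph_iff] at hp hq
  linarith

theorem ed_le_two {p q : ℝ × ℝ × ℝ} (hp : p ∈ sph) (hq : q ∈ sph) : ed p q ≤ 2 := by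
  have h1 := ed_sph hp hq
  rw [sph_iff] at hp hq
  have h2 : ed p q ^ 2 ≤ 2 ^ 2 := by
    rw [h1]
    nlinarith [sq_nonneg (p.1 + q.1), sq_nonneg (p.2.1 + q.2.1), sq_nonneg (p.2.2 + q.2.2)]
  exact (abs_le_of_sq_le_sq' h2 (by norm_num)).2

theorem sph_z {p : ℝ × ℝ × ℝ} (hp : p ∈ sph) : p.2.2 ∈ Icc (-1 : ℝ) 1 := by
  rw [sph_iff] at hp
  exact abs_le_of_sq_le_sq' (by nlinarith [sq_nonneg p.1, sq_nonneg p.2.1]) zero_le_one

theorem perp (p : ℝ × ℝ × ℝ) :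
    ∃ e ∈ sph, p.1 * e.1 + p.2.1 * e.2.1 + p.2.2 * e.2.2 = 0 := by
  by_cases h : p.1 ^ 2 + p.2.1 ^ 2 = 0
  · have h1 : p.1 = 0 := by
      have : p.1 ^ 2 = 0 := by nlinarith [sq_nonneg p.1, sq_nonneg p.2.1]
      exact pow_eq_zero_iff two_ne_zero |>.1 this
    have h2 : p.2.1 = 0 := by
      have : p.2.1 ^ 2 = 0 := by nlinarith [sq_nonneg p.1, sq_nonneg p.2.1]
      exact pow_eq_zero_iff two_ne_zero |>.1 this
    exact ⟨(1, 0, 0), by rw [sph_iff]; norm_num, by simp [h1]⟩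
  · have h0 : 0 < p.1 ^ 2 + p.2.1 ^ 2 := lt_of_le_of_ne (by positivity) (Ne.symm h)
    set r := Real.sqrt (p.1 ^ 2 + p.2.1 ^ 2) with hr
    have hr0 : 0 < r := Real.sqrt_pos.2 h0
    have hr2 : r ^ 2 = p.1 ^ 2 + p.2.1 ^ 2 := Real.sq_sqrt h0.le
    refine ⟨(-p.2.1 / r, p.1 / r, 0), ?_, ?_⟩
    · rw [sph_iff]
      simp only
      rw [div_pow, div_pow, hr2]
      field_simp
      ring
    · simp only
      ring

/-- great circles -/
theorem gc {p q : ℝ × ℝ × ℝ} (hp : p ∈ sph) (hq : q ∈ sph) : ∃ e ∈ sph, ∃ α ∈ Icc (0 : ℝ) π,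
    p.1 * e.1 + p.2.1 * e.2.1 + p.2.2 * e.2.2 = 0 ∧
    q = (Real.cos α * p.1 + Real.sin α * e.1, Real.cos α * p.2.1 + Real.sin α * e.2.1,
      Real.cos α * p.2.2 + Real.sin α * e.2.2) ∧ 2 / π * α ≤ ed p q := by
  set t := p.1 * q.1 + p.2.1 * q.2.1 + p.2.2 * q.2.2 with ht
  have hed := ed_sph hp hq
  rw [← ht] at hed
  have hp' := sph_iff.1 hp
  have hq' := sph_iff.1 hq
  have ht1 : t ≤ 1 := by
    have := sq_nonneg (ed p q)
    linarith
  have ht2 : -1 ≤ t := by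
    nlinarith [sq_nonneg (p.1 + q.1), sq_nonneg (p.2.1 + q.2.1), sq_nonneg (p.2.2 + q.2.2)]
  set α := Real.arccos t with hα
  have hα0 : 0 ≤ α := Real.arccos_nonneg t
  have hαπ : α ≤ π := Real.arccos_le_pi t
  have hcos : Real.cos α = t := Real.cos_arccos ht2 ht1
  have hsin : Real.sin α = Real.sqrt (1 - t ^ 2) := Real.sin_arccos t
  have hbound : 2 / π * α ≤ ed p q := by
    have h1 := Real.mul_le_sin (x := α / 2) (by linarith) (by linarith)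
    have h2 : Real.cos α = 1 - 2 * Real.sin (α / 2) ^ 2 := by
      have := Real.cos_two_mul (α / 2)
      rw [show 2 * (α / 2) = α by ring] at this
      rw [this]
      have := Real.sin_sq_add_cos_sq (α / 2)
      linarith
    have h3 : ed p q ^ 2 = (2 * Real.sin (α / 2)) ^ 2 := by
      rw [hed, ← hcos, h2]
      ring
    have h4 : 0 ≤ Real.sin (α / 2) := Real.sin_nonneg_of_nonneg_of_le_pi (by linarith) (by linarith)
    have h5 : ed p q = 2 * Real.sin (α / 2) := by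
      have := abs_eq_abs.2 (Or.inl (rfl : ed p q = ed p q))
      have h6 := (sq_eq_sq₀ (ed_nonneg p q) (by positivity)).1 h3
      exact h6
    rw [h5]
    have h6 : 2 / π * α = 2 * (2 / π * (α / 2)) := by ring
    rw [h6]
    linarith
  by_cases h0 : 1 - t ^ 2 = 0
  · obtain ⟨e, he, hpe⟩ := perp p
    refine ⟨e, he, α, ⟨hα0, hαπ⟩, hpe, ?_, hbound⟩
    rw [hsin, hcos, h0, Real.sqrt_zero, zero_mul, zero_mul, zero_mul, add_zero, add_zero, add_zero]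
    have h1 : (q.1 - t * p.1) ^ 2 + (q.2.1 - t * p.2.1) ^ 2 + (q.2.2 - t * p.2.2) ^ 2 = 0 := by
      have : (q.1 - t * p.1) ^ 2 + (q.2.1 - t * p.2.1) ^ 2 + (q.2.2 - t * p.2.2) ^ 2 =
          (q.1 ^ 2 + q.2.1 ^ 2 + q.2.2 ^ 2) - 2 * t * t +
          t ^ 2 * (p.1 ^ 2 + p.2.1 ^ 2 + p.2.2 ^ 2) := by
        rw [ht]
        ring
      rw [this, hp', hq']
      linarith
    have k1 := sq_nonneg (q.1 - t * p.1)
    have k2 := sq_nonneg (q.2.1 - t * p.2.1)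
    have k3 := sq_nonneg (q.2.2 - t * p.2.2)
    have l1 : q.1 - t * p.1 = 0 := pow_eq_zero_iff two_ne_zero |>.1 (by linarith)
    have l2 : q.2.1 - t * p.2.1 = 0 := pow_eq_zero_iff two_ne_zero |>.1 (by linarith)
    have l3 : q.2.2 - t * p.2.2 = 0 := pow_eq_zero_iff two_ne_zero |>.1 (by linarith)
    exact Prod.ext (by linarith) (Prod.ext (by simp only; linarith) (by simp only; linarith))
  · have h1 : 0 < 1 - t ^ 2 := lt_of_le_of_ne (by nlinarith) (Ne.symm h0)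
    set S := Real.sqrt (1 - t ^ 2) with hS
    have hS0 : 0 < S := Real.sqrt_pos.2 h1
    have hS2 : S ^ 2 = 1 - t ^ 2 := Real.sq_sqrt h1.le
    refine ⟨((q.1 - t * p.1) / S, (q.2.1 - t * p.2.1) / S, (q.2.2 - t * p.2.2) / S), ?_, α,
      ⟨hα0, hαπ⟩, ?_, ?_, hbound⟩
    · rw [sph_iff]
      simp only
      rw [div_pow, div_pow, div_pow, ← add_div, ← add_div, div_eq_one_iff_eq (by positivity), hS2]
      have : (q.1 - t * p.1) ^ 2 + (q.2.1 - t * p.2.1) ^ 2 + (q.2.2 - t * p.2.2) ^ 2 =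
          (q.1 ^ 2 + q.2.1 ^ 2 + q.2.2 ^ 2) - 2 * t * t +
          t ^ 2 * (p.1 ^ 2 + p.2.1 ^ 2 + p.2.2 ^ 2) := by
        rw [ht]
        ring
      rw [this, hp', hq']
      ring
    · simp only
      have : p.1 * ((q.1 - t * p.1) / S) + p.2.1 * ((q.2.1 - t * p.2.1) / S) +
          p.2.2 * ((q.2.2 - t * p.2.2) / S) =
          (t - t * (p.1 ^ 2 + p.2.1 ^ 2 + p.2.2 ^ 2)) / S := by
        rw [ht]
        ring
      rw [this, hp']
      simp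
    · rw [hcos, hsin]
      simp only
      refine Prod.ext ?_ (Prod.ext ?_ ?_) <;> · simp only; field_simp; ring

section

variable {ρ : ℝ → ℝ} {ρm ρM : ℝ}

theorem len_nonneg (ρ : ℝ → ℝ) (γ : ℝ → ℝ × ℝ × ℝ) : 0 ≤ len ρ γ :=
  intervalIntegral.integral_nonneg zero_le_one fun s _ => by positivity

theorem gdist_aux (hρc : Continuous ρ) (hρM : ∀ z ∈ Icc (-1 : ℝ) 1, ρ z ≤ ρM) {p q : ℝ × ℝ × ℝ}
    (hp : p ∈ sph) (hq : q ∈ sph) : ∃ γ : ℝ → ℝ × ℝ × ℝ, (ContDiff ℝ 1 γ ∧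
      (∀ s ∈ Set.Icc (0 : ℝ) 1, γ s ∈ sph) ∧ γ 0 = p ∧ γ 1 = q) ∧
      len ρ γ ≤ 2 * Real.sqrt ρM * ed p q := by
  obtain ⟨e, he, α, hα, hpe, hqe, hb⟩ := gc hp hq
  set γ : ℝ → ℝ × ℝ × ℝ := fun s => (Real.cos (α * s) * p.1 + Real.sin (α * s) * e.1,
    Real.cos (α * s) * p.2.1 + Real.sin (α * s) * e.2.1,
    Real.cos (α * s) * p.2.2 + Real.sin (α * s) * e.2.2) with hγ
  have hc : ContDiff ℝ 1 γ := by
    rw [hγ]
    fun_prop
  have hd : ∀ s, deriv γ s = (α * (-Real.sin (α * s) * p.1 + Real.cos (α * s) * e.1),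
      α * (-Real.sin (α * s) * p.2.1 + Real.cos (α * s) * e.2.1),
      α * (-Real.sin (α * s) * p.2.2 + Real.cos (α * s) * e.2.2)) := by
    intro s
    have h0 : HasDerivAt (fun s : ℝ => α * s) α s := by
      simpa using (hasDerivAt_id s).const_mul α
    have key : ∀ a b : ℝ, HasDerivAt (fun s : ℝ => Real.cos (α * s) * a + Real.sin (α * s) * b)
        (α * (-Real.sin (α * s) * a + Real.cos (α * s) * b)) s := by
      intro a b
      refine ((h0.cos.mul_const a).add (h0.sin.mul_const b)).congr_deriv ?_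
      ring
    exact ((key _ _).prodMk ((key _ _).prodMk (key _ _))).deriv
  have hp' := sph_iff.1 hp
  have he' := sph_iff.1 he
  have hmem : ∀ s, γ s ∈ sph := by
    intro s
    rw [sph_iff, hγ]
    simp only
    have := Real.sin_sq_add_cos_sq (α * s)
    linear_combination (Real.cos (α * s)) ^ 2 * hp' + (Real.sin (α * s)) ^ 2 * he' +
      (2 * Real.cos (α * s) * Real.sin (α * s)) * hpe + this
  have hnorm : ∀ s, Real.sqrt ((deriv γ s).1 ^ 2 + (deriv γ s).2.1 ^ 2 + (deriv γ s).2.2 ^ 2) =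
      α := by
    intro s
    rw [hd]
    simp only
    have h1 := Real.sin_sq_add_cos_sq (α * s)
    have h2 : (α * (-Real.sin (α * s) * p.1 + Real.cos (α * s) * e.1)) ^ 2 +
      (α * (-Real.sin (α * s) * p.2.1 + Real.cos (α * s) * e.2.1)) ^ 2 +
      (α * (-Real.sin (α * s) * p.2.2 + Real.cos (α * s) * e.2.2)) ^ 2 = α ^ 2 := by
      linear_combination α ^ 2 * ((Real.sin (α * s)) ^ 2 * hp' + (Real.cos (α * s)) ^ 2 * he' -
        (2 * Real.cos (α * s) * Real.sin (α * s)) * hpe + h1)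
    rw [h2, Real.sqrt_sq hα.1]
  refine ⟨γ, ⟨hc, fun s _ => hmem s, ?_, ?_⟩, ?_⟩
  · rw [hγ]
    simp
  · rw [hqe, hγ]
    simp
  · have h1 : len ρ γ ≤ ∫ s in (0 : ℝ)..1, Real.sqrt ρM * α := by
      unfold len
      refine intervalIntegral.integral_mono_on zero_le_one ?_ ?_ ?_
      · refine Continuous.intervalIntegrable ?_ _ _
        simp only [hnorm]
        have : Continuous γ := hc.continuous
        fun_prop
      · exact continuous_const.intervalIntegrable _ _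
      · intro s _
        rw [hnorm]
        exact mul_le_mul_of_nonneg_right (Real.sqrt_le_sqrt (hρM _ (sph_z (hmem s)))) hα.1
    rw [intervalIntegral.integral_const, smul_eq_mul, sub_zero, one_mul] at h1
    have h2 : α ≤ 2 * ed p q := by
      have h3 : 2 / π * α ≤ ed p q := hb
      rw [div_mul_eq_mul_div, div_le_iff₀ Real.pi_pos] at h3
      have h4 := Real.pi_lt_four
      have h5 := ed_nonneg p q
      nlinarith
    have h3 := mul_le_mul_of_nonneg_left h2 (Real.sqrt_nonneg ρM)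
    linarith

theorem gdist_le (hρc : Continuous ρ) (hρM : ∀ z ∈ Icc (-1 : ℝ) 1, ρ z ≤ ρM) {p q : ℝ × ℝ × ℝ}
    (hp : p ∈ sph) (hq : q ∈ sph) : gdist ρ p q ≤ 2 * Real.sqrt ρM * ed p q := by
  obtain ⟨γ, ⟨h1, h2, h3, h4⟩, h5⟩ := gdist_aux hρc hρM hp hq
  refine le_trans (csInf_le ⟨0, ?_⟩ ⟨γ, h1, h2, h3, h4, rfl⟩) h5
  rintro _ ⟨γ', _, _, _, _, rfl⟩
  exact len_nonneg _ _

theorem gdist_lt (hρc : Continuous ρ) (hρm : ∀ z ∈ Icc (-1 : ℝ) 1, ρm ≤ ρ z)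
    (hρM : ∀ z ∈ Icc (-1 : ℝ) 1, ρ z ≤ ρM) {p q : ℝ × ℝ × ℝ}
    (hp : p ∈ sph) (hq : q ∈ sph) {r : ℝ} (h : gdist ρ p q < r) :
    Real.sqrt ρm * ed p q < r := by
  obtain ⟨γ₀, ⟨g1, g2, g3, g4⟩, -⟩ := gdist_aux hρc hρM hp hq
  have hnon : {l : ℝ | ∃ γ : ℝ → ℝ × ℝ × ℝ, ContDiff ℝ 1 γ ∧ (∀ s ∈ Set.Icc (0 : ℝ) 1, γ s ∈ sph) ∧
      γ 0 = p ∧ γ 1 = q ∧ l = len ρ γ}.Nonempty := ⟨_, γ₀, g1, g2, g3, g4, rfl⟩
  obtain ⟨l, ⟨γ, hc, hm, h0, h1, rfl⟩, hl⟩ := exists_lt_of_csInf_lt hnon h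
  refine lt_of_le_of_lt ?_ hl
  rcases (ed_nonneg p q).eq_or_lt with he | he
  · rw [← he, mul_zero]
    exact len_nonneg _ _
  have hdc : Continuous (deriv γ) := hc.continuous_deriv le_rfl
  have hγc : Continuous γ := hc.continuous
  have hdd : ∀ s, HasDerivAt γ (deriv γ s) s := fun s =>
    ((hc.differentiable one_ne_zero) s).hasDerivAt
  have hd1 : ∀ s, HasDerivAt (fun s => (γ s).1) (deriv γ s).1 s := fun s =>
    ((ContinuousLinearMap.fst ℝ ℝ (ℝ × ℝ)).hasFDerivAt (x := γ s)).comp_hasDerivAt s (hdd s)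
  have hd2 : ∀ s, HasDerivAt (fun s => (γ s).2) (deriv γ s).2 s := fun s =>
    ((ContinuousLinearMap.snd ℝ ℝ (ℝ × ℝ)).hasFDerivAt (x := γ s)).comp_hasDerivAt s (hdd s)
  have hd3 : ∀ s, HasDerivAt (fun s => (γ s).2.1) (deriv γ s).2.1 s := fun s =>
    HasFDerivAt.comp_hasDerivAt s (l := Prod.fst) (f := fun s => (γ s).2)
      ((ContinuousLinearMap.fst ℝ ℝ ℝ).hasFDerivAt (x := (γ s).2)) (hd2 s)
  have hd4 : ∀ s, HasDerivAt (fun s => (γ s).2.2) (deriv γ s).2.2 s := fun s =>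
    HasFDerivAt.comp_hasDerivAt s (l := Prod.snd) (f := fun s => (γ s).2)
      ((ContinuousLinearMap.snd ℝ ℝ ℝ).hasFDerivAt (x := (γ s).2)) (hd2 s)
  set u : ℝ × ℝ × ℝ := ((q.1 - p.1) / ed p q, (q.2.1 - p.2.1) / ed p q, (q.2.2 - p.2.2) / ed p q)
    with hu
  have hes := ed_sq p q
  have hun : nn u = 1 := by
    have h2 : nn u ^ 2 = 1 := by
      rw [nn_sq, hu]
      simp only
      rw [div_pow, div_pow, div_pow, ← add_div, ← add_div, div_eq_one_iff_eq (by positivity), hes]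
      ring
    have h3 := nn_nonneg u
    nlinarith
  have hf : ∀ s, HasDerivAt (fun s => u.1 * (γ s).1 + u.2.1 * (γ s).2.1 + u.2.2 * (γ s).2.2)
      (u.1 * (deriv γ s).1 + u.2.1 * (deriv γ s).2.1 + u.2.2 * (deriv γ s).2.2) s := fun s =>
    (((hd1 s).const_mul u.1).add ((hd3 s).const_mul u.2.1)).add ((hd4 s).const_mul u.2.2)
  have hfc : Continuous fun s =>
      u.1 * (deriv γ s).1 + u.2.1 * (deriv γ s).2.1 + u.2.2 * (deriv γ s).2.2 := by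
    have c1 : Continuous fun s => (deriv γ s).1 := hdc.fst
    have c2 : Continuous fun s => (deriv γ s).2.1 := hdc.snd.fst
    have c3 : Continuous fun s => (deriv γ s).2.2 := hdc.snd.snd
    fun_prop
  have e1 := intervalIntegral.integral_eq_sub_of_hasDerivAt (a := 0) (b := 1) (fun s _ => hf s)
    (hfc.intervalIntegrable _ _)
  rw [h0, h1] at e1
  have e2 : u.1 * q.1 + u.2.1 * q.2.1 + u.2.2 * q.2.2 - (u.1 * p.1 + u.2.1 * p.2.1 + u.2.2 * p.2.2) =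
      ed p q := by
    have : u.1 * q.1 + u.2.1 * q.2.1 + u.2.2 * q.2.2 -
        (u.1 * p.1 + u.2.1 * p.2.1 + u.2.2 * p.2.2) =
        ((p.1 - q.1) ^ 2 + (p.2.1 - q.2.1) ^ 2 + (p.2.2 - q.2.2) ^ 2) / ed p q := by
      rw [hu]
      ring
    rw [this, ← hes, sq, mul_div_assoc, div_self he.ne', mul_one]
  rw [e2] at e1
  rw [← e1, ← intervalIntegral.integral_const_mul]
  unfold len
  refine intervalIntegral.integral_mono_on zero_le_one ?_ ?_ ?_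
  · exact (continuous_const.mul hfc).intervalIntegrable _ _
  · refine Continuous.intervalIntegrable ?_ _ _
    have c1 : Continuous fun s => (deriv γ s).1 := hdc.fst
    have c2 : Continuous fun s => (deriv γ s).2.1 := hdc.snd.fst
    have c3 : Continuous fun s => (deriv γ s).2.2 := hdc.snd.snd
    fun_prop
  · intro s hs
    have h2 : Real.sqrt ρm ≤ Real.sqrt (ρ (γ s).2.2) :=
      Real.sqrt_le_sqrt (hρm _ (sph_z (hm s hs)))
    have h3 := inner_le u (deriv γ s)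
    rw [hun, one_mul] at h3
    have h4 : Real.sqrt ρm * (u.1 * (deriv γ s).1 + u.2.1 * (deriv γ s).2.1 +
        u.2.2 * (deriv γ s).2.2) ≤ Real.sqrt ρm * nn (deriv γ s) :=
      mul_le_mul_of_nonneg_left h3 (Real.sqrt_nonneg _)
    exact h4.trans (mul_le_mul_of_nonneg_right h2 (nn_nonneg _))

theorem disc_ed (hρc : Continuous ρ) (hρ0 : 0 < ρm) (hρm : ∀ z ∈ Icc (-1 : ℝ) 1, ρm ≤ ρ z)
    (hρM : ∀ z ∈ Icc (-1 : ℝ) 1, ρ z ≤ ρM) {C lam : ℝ} (hC : 0 < C) (hlam : 0 < lam)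
    {p q : ℝ × ℝ × ℝ} (hp : p ∈ sph) (h : q ∈ disc ρ p (2 * (C / Real.sqrt lam))) :
    ed p q ≤ (6 * C / Real.sqrt ρm + 6) * dl lam := by
  have hs0 : 0 < Real.sqrt ρm := Real.sqrt_pos.2 hρ0
  have h1 := gdist_lt hρc hρm hρM hp h.1 h.2
  have h2 := ed_le_two hp h.1
  have h3 := ed_nonneg p q
  have hsl : 0 < Real.sqrt lam := Real.sqrt_pos.2 hlam
  have hs1 : 0 < Real.sqrt (1 + lam) := Real.sqrt_pos.2 (by linarith)
  have hdl : dl lam = 1 / (2 * Real.sqrt (1 + lam)) := rfl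
  have hdp := dl_pos hlam
  have e2 : Real.sqrt (1 + lam) * dl lam = 1 / 2 := by
    rw [hdl]
    field_simp
  have hk : 0 ≤ C / Real.sqrt ρm := by positivity
  have e3 : 6 * C / Real.sqrt ρm = 6 * (C / Real.sqrt ρm) := by ring
  have hs2 : Real.sqrt 2 < 3 / 2 := by
    rw [Real.sqrt_lt' (by norm_num)]
    norm_num
  rcases le_or_gt 1 lam with h4 | h4
  · have h5 : Real.sqrt (1 + lam) ≤ Real.sqrt 2 * Real.sqrt lam := by
      rw [← Real.sqrt_mul (by norm_num)]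
      exact Real.sqrt_le_sqrt (by linarith)
    have h6 : Real.sqrt (1 + lam) ≤ 3 / 2 * Real.sqrt lam := by nlinarith
    have h7 : ed p q ≤ 2 * (C / Real.sqrt lam) / Real.sqrt ρm := by
      rw [le_div_iff₀ hs0]
      linarith
    have h8 : 1 / Real.sqrt lam ≤ 3 * dl lam := by
      rw [div_le_iff₀ hsl]
      nlinarith
    have h9 : 2 * (C / Real.sqrt lam) / Real.sqrt ρm =
        2 * (C / Real.sqrt ρm) * (1 / Real.sqrt lam) := by
      field_simp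
    rw [h9] at h7
    have h10 : 2 * (C / Real.sqrt ρm) * (1 / Real.sqrt lam) ≤
        2 * (C / Real.sqrt ρm) * (3 * dl lam) := mul_le_mul_of_nonneg_left h8 (by positivity)
    rw [e3]
    nlinarith
  · have h5 : Real.sqrt (1 + lam) ≤ Real.sqrt 2 := Real.sqrt_le_sqrt (by linarith)
    have h6 : 1 / 3 ≤ dl lam := by nlinarith
    rw [e3]
    nlinarith

theorem ed_disc (hρc : Continuous ρ) (hρ0 : 0 < ρM)
    (hρM : ∀ z ∈ Icc (-1 : ℝ) 1, ρ z ≤ ρM) {C lam β : ℝ} (hlam : 0 < lam)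
    (hβ : 0 < β) (hβC : β * Real.sqrt ρM ≤ C) {p q : ℝ × ℝ × ℝ} (hp : p ∈ sph) (hq : q ∈ sph)
    (h : ed p q ≤ β * dl lam) : q ∈ disc ρ p (C / Real.sqrt lam) := by
  refine ⟨hq, ?_⟩
  have h1 := gdist_le hρc hρM hp hq
  have hsM : 0 < Real.sqrt ρM := Real.sqrt_pos.2 hρ0
  have hsl : 0 < Real.sqrt lam := Real.sqrt_pos.2 hlam
  have hs1 : Real.sqrt lam < Real.sqrt (1 + lam) := Real.sqrt_lt_sqrt hlam.le (by linarith)
  have hdl : dl lam = 1 / (2 * Real.sqrt (1 + lam)) := rfl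
  have h2 : 2 * Real.sqrt ρM * ed p q ≤ 2 * Real.sqrt ρM * (β * dl lam) :=
    mul_le_mul_of_nonneg_left h (by positivity)
  have h3 : 2 * Real.sqrt ρM * (β * dl lam) = β * Real.sqrt ρM / Real.sqrt (1 + lam) := by
    rw [hdl]
    field_simp
  have h4 : β * Real.sqrt ρM / Real.sqrt (1 + lam) < β * Real.sqrt ρM / Real.sqrt lam :=
    div_lt_div_of_pos_left (by positivity) hsl hs1
  have h5 : β * Real.sqrt ρM / Real.sqrt lam ≤ C / Real.sqrt lam :=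
    div_le_div_of_nonneg_right hβC hsl.le
  linarith

end

end Pool.Agent.NH44.SR
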