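import Pool.Agent.NH44.LT.Pos

/-!
# Positive solutions of `α'' = -a α` with `a` small on a bounded interval
-/

set_option autoImplicit false

open Filter Topology Metric Set
open Pool.Agent.NH44.LT

namespace Pool.Agent.NH44.SR

theorem pos_sol2 {τ : ℝ} (hτ : 0 < τ) : ∃ ε : ℝ, 0 < ε ∧ ε ≤ 1 / 4 ∧ ∀ a : ℝ → ℝ, Continuous a →
    (∀ x, |x| ≤ 26 → |a x| ≤ ε) → ∃ α α' αh αh' : ℝ → ℝ, PF τ a α α' αh αh' := by
  refine ⟨min (1 / 4000) (τ / 200), by positivity, ?_, ?_⟩
  · exact (min_le_left _ _).trans (by norm_num)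
  intro a ha hae
  have ha1 : ∀ x, |x| ≤ 26 → |a x| ≤ 1 / 4000 := fun x hx => (hae x hx).trans (min_le_left _ _)
  have ha2 : ∀ x, |x| ≤ 26 → |a x| ≤ τ / 200 := fun x hx => (hae x hx).trans (min_le_right _ _)
  -- the solution
  let A : ℝ → (ℝ × ℝ) →L[ℝ] (ℝ × ℝ) := fun t =>
    (ContinuousLinearMap.snd ℝ ℝ ℝ).prod ((-a t) • ContinuousLinearMap.fst ℝ ℝ ℝ)
  have hAapp : ∀ t (p : ℝ × ℝ), A t p = (p.2, (-a t) * p.1) := fun t p => rfl
  have hA : Continuous A := by
    rw [continuous_clm_apply]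
    intro p
    simp_rw [hAapp]
    fun_prop
  obtain ⟨y, hy0, hy⟩ := KRS.lin_ode_gen A hA (1, 0)
  have hu : ∀ t, HasDerivAt (fun s => (y s).1) (y t).2 t := fun t => (hy t).fst
  have hv : ∀ t, HasDerivAt (fun s => (y s).2) (-(a t * (y t).1)) t := fun t => by
    have h1 : HasDerivAt (fun s => (y s).2) (-a t * (y t).1) t := (hy t).snd
    rwa [neg_mul] at h1
  set α : ℝ → ℝ := fun s => (y s).1 with hα
  set α' : ℝ → ℝ := fun s => (y s).2 with hα'
  have hz : α 0 = 1 := by rw [hα]; simp only; rw [hy0]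
  have hz' : α' 0 = 0 := by rw [hα']; simp only; rw [hy0]
  have hαc : Continuous α := continuous_iff_continuousAt.2 fun t => (hu t).continuousAt
  have hαc' : Continuous α' := continuous_iff_continuousAt.2 fun t => (hv t).continuousAt
  -- bounds
  obtain ⟨xs, hxs, hmax⟩ := (isCompact_Icc (a := (-26 : ℝ)) (b := 26)).exists_isMaxOn
    ⟨0, by norm_num, by norm_num⟩ (hαc.abs.continuousOn)
  set M := |α xs| with hM
  have hMx : ∀ x ∈ Icc (-26 : ℝ) 26, |α x| ≤ M := fun x hx => hmax hx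
  have hM0 : 0 ≤ M := abs_nonneg _
  have h0m : (0 : ℝ) ∈ Icc (-26 : ℝ) 26 := ⟨by norm_num, by norm_num⟩
  have hcv : Convex ℝ (Icc (-26 : ℝ) 26) := convex_Icc _ _
  have key : ∀ e : ℝ, 0 ≤ e → (∀ x, |x| ≤ 26 → |a x| ≤ e) → ∀ x ∈ Icc (-26 : ℝ) 26,
      |α' x| ≤ 26 * (e * M) := by
    intro e he hae x hx
    have h1 := hcv.norm_image_sub_le_of_norm_hasDerivWithin_le (f := α')
      (f' := fun t => -(a t * α t)) (C := e * M) (fun t _ => (hv t).hasDerivWithinAt)
      (fun t ht => by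
        rw [norm_neg, norm_mul, Real.norm_eq_abs, Real.norm_eq_abs]
        exact mul_le_mul (hae t (abs_le.2 ht)) (hMx t ht) (abs_nonneg _) he) h0m hx
    rw [hz', sub_zero, sub_zero, Real.norm_eq_abs, Real.norm_eq_abs] at h1
    have h2 : |x| ≤ 26 := abs_le.2 hx
    have h3 : 0 ≤ e * M := mul_nonneg he hM0
    nlinarith
  have key2 : ∀ x ∈ Icc (-26 : ℝ) 26, |α x - 1| ≤ 676 / 4000 * M := by
    intro x hx
    have h1 := hcv.norm_image_sub_le_of_norm_hasDerivWithin_le (f := α)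
      (f' := α') (C := 26 * (1 / 4000 * M)) (fun t _ => (hu t).hasDerivWithinAt)
      (fun t ht => by
        rw [Real.norm_eq_abs]
        exact key (1 / 4000) (by norm_num) ha1 t ht) h0m hx
    rw [hz, sub_zero, Real.norm_eq_abs, Real.norm_eq_abs] at h1
    have h2 : |x| ≤ 26 := abs_le.2 hx
    nlinarith
  have hM2 : M ≤ 2 := by
    have h1 := key2 xs hxs
    have h2 : M ≤ |α xs - 1| + 1 := by
      have := abs_sub_abs_le_abs_sub (α xs) 1
      rw [abs_one] at this
      linarith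
    linarith
  have hlow : ∀ x ∈ Icc (-26 : ℝ) 26, 1 / 2 ≤ α x := by
    intro x hx
    have h1 := (abs_le.1 (key2 x hx)).1
    linarith
  -- the global function
  let θ : ContDiffBump (0 : ℝ) := ⟨25, 26, by norm_num, by norm_num⟩
  have hθd : ContDiff ℝ 1 (fun x => θ x) := θ.contDiff
  have hθ' : ∀ x, HasDerivAt (fun x => θ x) (deriv (fun x => θ x) x) x := fun x =>
    (hθd.differentiable (by norm_num) x).hasDerivAt
  have hθc : Continuous (deriv fun x => θ x) := hθd.continuous_deriv (by norm_num)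
  refine ⟨α, α', fun x => θ x * α x + (1 - θ x), fun x => deriv (fun x => θ x) x * α x +
    θ x * α' x - deriv (fun x => θ x) x, ha, hu, hv, ?_, ?_, ?_, ?_, ?_, hz, hz'⟩
  · intro x
    have h1 := ((hθ' x).mul (hu x)).add ((hθ' x).const_sub 1)
    refine h1.congr_deriv ?_
    ring
  · have h1 : Continuous (fun x => θ x) := hθd.continuous
    exact ((hθc.mul hαc).add (h1.mul hαc')).sub hθc
  · intro x
    by_cases hx : x ∈ Icc (-26 : ℝ) 26
    · have h1 := hlow x hx
      have h2 : 0 ≤ θ x := θ.nonneg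
      have h3 : θ x ≤ 1 := θ.le_one
      nlinarith
    · have h1 : θ x = 0 := θ.zero_of_le_dist (by
        show (26 : ℝ) ≤ dist x 0
        rw [Real.dist_0_eq_abs]
        by_contra h2
        rw [not_le] at h2
        exact hx ⟨(abs_lt.1 h2).1.le, (abs_lt.1 h2).2.le⟩)
      rw [h1]
      norm_num
  · intro x hx
    have h1 : (fun x => θ x) =ᶠ[𝓝 x] fun _ => (1 : ℝ) := by
      have h2 : ball (0 : ℝ) 25 ∈ 𝓝 x := isOpen_ball.mem_nhds (by
        rw [mem_ball, Real.dist_0_eq_abs]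
        linarith)
      filter_upwards [h2] with t ht
      exact θ.one_of_mem_closedBall (ball_subset_closedBall ht)
    have h3 : θ x = 1 := h1.self_of_nhds
    have h4 : deriv (fun x => θ x) x = 0 := by
      rw [h1.deriv_eq]
      exact deriv_const _ _
    constructor
    · rw [h3]; ring
    · rw [h3, h4]; ring
  · intro x hx
    have hx' : x ∈ Icc (-26 : ℝ) 26 := by
      have := abs_le.1 hx
      exact ⟨by linarith [this.1], by linarith [this.2]⟩
    have h1 := hMx x hx'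
    have h2 := key (1 / 4000) (by norm_num) ha1 x hx'
    have h3 := key (τ / 200) (by positivity) ha2 x hx'
    have h4 := hlow x hx'
    refine ⟨h1.trans hM2, by linarith, h3.trans ?_⟩
    nlinarith

end Pool.Agent.NH44.SR
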