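import Pool.Agent.NH44.LT.Local
import Pool.Agent.NH44.SR.Pos2

/-!
# The local lemma with a coefficient which is small on a bounded set
-/

set_option autoImplicit false
set_option linter.unusedVariables false

namespace Pool.Agent.NH44.SR

section cacc

open MeasureTheory Real Pool.Agent.Y291.DB Pool.Agent.Y291.PA

/-- The energy inequality. -/
theorem cacc3 {q φ φx φxx φy φyy : ℝ → ℝ → ℝ} (h : Sol2 q φ φx φxx φy φyy)
    {x0 y0 b S Q : ℝ} (hb : 0 < b) (hS : ∀ x y, |x - x0| ≤ b → |y - y0| ≤ b → |φ x y| ≤ S)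
    (hQ : ∀ x y, |x - x0| ≤ b → |y - y0| ≤ b → q x y ≤ Q) (hQ0 : 0 ≤ Q) :
    ∫ x in (x0 - b / 2)..(x0 + b / 2), ∫ y in (y0 - b / 2)..(y0 + b / 2),
      (φ x y ^ 2 + b ^ 2 * φx x y ^ 2) ≤ (129 + 16 * Q * b ^ 2) * b ^ 2 * S ^ 2 := by
  have hS0 : 0 ≤ S := (abs_nonneg _).trans (hS x0 y0 (by simpa using hb.le) (by simpa using hb.le))
  have cφ := h.c
  have cφx := h.cx
  have cφxx := h.cxx
  have cφyy := h.cyy
  have cφy := h.cy
  have he1 : Continuous fun p : ℝ × ℝ => eta b x0 p.1 := (eta_cont b x0).comp continuous_fst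
  have he2 : Continuous fun p : ℝ × ℝ => eta b y0 p.2 := (eta_cont b y0).comp continuous_snd
  have he3 : Continuous fun p : ℝ × ℝ => eta2 b x0 p.1 := (eta2_cont b x0).comp continuous_fst
  have he4 : Continuous fun p : ℝ × ℝ => eta2 b y0 p.2 := (eta2_cont b y0).comp continuous_snd
  have c1 : Continuous (fun p : ℝ × ℝ => φ p.1 p.2) := cφ
  have c2 : Continuous (fun p : ℝ × ℝ => φx p.1 p.2) := cφx
  have c3 : Continuous (fun p : ℝ × ℝ => φxx p.1 p.2) := cφxx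
  have c4 : Continuous (fun p : ℝ × ℝ => φyy p.1 p.2) := cφyy
  have c5 : Continuous (fun p : ℝ × ℝ => φy p.1 p.2) := cφy
  -- the two terms
  set F1 : ℝ → ℝ → ℝ := fun x y => eta b x0 x * eta b y0 y * φx x y ^ 2 with hF1
  set F2 : ℝ → ℝ → ℝ := fun x y => eta b x0 x * eta b y0 y * φy x y ^ 2 with hF2
  set G1 : ℝ → ℝ → ℝ := fun x y => eta b y0 y *
    (1 / 2 * eta2 b x0 x * φ x y ^ 2 - eta b x0 x * φ x y * φxx x y) with hG1
  set G2 : ℝ → ℝ → ℝ := fun x y => eta b x0 x *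
    (1 / 2 * eta2 b y0 y * φ x y ^ 2 - eta b y0 y * φ x y * φyy x y) with hG2
  have kF1 : Continuous (Function.uncurry F1) := by
    show Continuous fun p : ℝ × ℝ => eta b x0 p.1 * eta b y0 p.2 * φx p.1 p.2 ^ 2
    fun_prop
  have kF2 : Continuous (Function.uncurry F2) := by
    show Continuous fun p : ℝ × ℝ => eta b x0 p.1 * eta b y0 p.2 * φy p.1 p.2 ^ 2
    fun_prop
  have kG1 : Continuous (Function.uncurry G1) := by
    show Continuous fun p : ℝ × ℝ => eta b y0 p.2 *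
      (1 / 2 * eta2 b x0 p.1 * φ p.1 p.2 ^ 2 - eta b x0 p.1 * φ p.1 p.2 * φxx p.1 p.2)
    fun_prop
  have kG2 : Continuous (Function.uncurry G2) := by
    show Continuous fun p : ℝ × ℝ => eta b x0 p.1 *
      (1 / 2 * eta2 b y0 p.2 * φ p.1 p.2 ^ 2 - eta b y0 p.2 * φ p.1 p.2 * φyy p.1 p.2)
    fun_prop
  have I1 : ∫ x in (x0 - b)..(x0 + b), ∫ y in (y0 - b)..(y0 + b), F1 x y =
      ∫ x in (x0 - b)..(x0 + b), ∫ y in (y0 - b)..(y0 + b), G1 x y := by
    rw [swap kF1, swap kG1]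
    refine intervalIntegral.integral_congr fun y _ => ?_
    have e := one_var (f := fun t => φ t y) (f' := fun t => φx t y) (f'' := fun t => φxx t y)
      (fun t => h.dx t y) (fun t => h.dxx t y) (c3.comp (Continuous.prodMk_left y)) hb x0
    calc ∫ x in (x0 - b)..(x0 + b), F1 x y =
        ∫ x in (x0 - b)..(x0 + b), eta b y0 y * (eta b x0 x * φx x y ^ 2) :=
          intervalIntegral.integral_congr fun x _ => by simp only [hF1]; ring
      _ = eta b y0 y * ∫ x in (x0 - b)..(x0 + b), eta b x0 x * φx x y ^ 2 :=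
          intervalIntegral.integral_const_mul _ _
      _ = ∫ x in (x0 - b)..(x0 + b), G1 x y := by
          rw [e, ← intervalIntegral.integral_const_mul]
  have I2 : ∫ x in (x0 - b)..(x0 + b), ∫ y in (y0 - b)..(y0 + b), F2 x y =
      ∫ x in (x0 - b)..(x0 + b), ∫ y in (y0 - b)..(y0 + b), G2 x y := by
    refine intervalIntegral.integral_congr fun x _ => ?_
    have e := one_var (f := fun t => φ x t) (f' := fun t => φy x t) (f'' := fun t => φyy x t)
      (fun t => h.dy x t) (fun t => h.dyy x t) (c4.comp (Continuous.prodMk_right x)) hb y0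
    calc ∫ y in (y0 - b)..(y0 + b), F2 x y =
        ∫ y in (y0 - b)..(y0 + b), eta b x0 x * (eta b y0 y * φy x y ^ 2) :=
          intervalIntegral.integral_congr fun y _ => by simp only [hF2]; ring
      _ = eta b x0 x * ∫ y in (y0 - b)..(y0 + b), eta b y0 y * φy x y ^ 2 :=
          intervalIntegral.integral_const_mul _ _
      _ = ∫ y in (y0 - b)..(y0 + b), G2 x y := by
          rw [e, ← intervalIntegral.integral_const_mul]
  have I3 : 0 ≤ ∫ x in (x0 - b)..(x0 + b), ∫ y in (y0 - b)..(y0 + b), F2 x y := by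
    refine intervalIntegral.integral_nonneg (by linarith) fun x _ => ?_
    refine intervalIntegral.integral_nonneg (by linarith) fun y _ => ?_
    simp only [hF2]
    have := eta_nonneg b x0 x
    have := eta_nonneg b y0 y
    positivity
  have I4 : (∫ x in (x0 - b)..(x0 + b), ∫ y in (y0 - b)..(y0 + b), G1 x y) +
      (∫ x in (x0 - b)..(x0 + b), ∫ y in (y0 - b)..(y0 + b), G2 x y) ≤
      ∫ x in (x0 - b)..(x0 + b), ∫ y in (y0 - b)..(y0 + b), ((8 / b ^ 2 + Q) * S ^ 2) := by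
    rw [← intervalIntegral.integral_add ((int_cont kG1 _ _).intervalIntegrable _ _)
      ((int_cont kG2 _ _).intervalIntegrable _ _)]
    have e1 : ∀ x, (∫ y in (y0 - b)..(y0 + b), G1 x y) + (∫ y in (y0 - b)..(y0 + b), G2 x y) =
        ∫ y in (y0 - b)..(y0 + b), (G1 x y + G2 x y) := fun x =>
      (intervalIntegral.integral_add
        ((kG1.comp (Continuous.prodMk_right x)).intervalIntegrable _ _)
        ((kG2.comp (Continuous.prodMk_right x)).intervalIntegrable _ _)).symm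
    simp only [e1]
    refine mono2 (F := fun x y => G1 x y + G2 x y) (G := fun x y => (8 / b ^ 2 + Q) * S ^ 2)
      (kG1.add kG2) continuous_const (by linarith) (by linarith) fun x hx y hy => ?_
    have hx' : |x - x0| ≤ b := abs_le.2 ⟨by linarith [hx.1], by linarith [hx.2]⟩
    have hy' : |y - y0| ≤ b := abs_le.2 ⟨by linarith [hy.1], by linarith [hy.2]⟩
    have e2 : G1 x y + G2 x y = 1 / 2 * (eta2 b x0 x * eta b y0 y + eta b x0 x * eta2 b y0 y) *
        φ x y ^ 2 + eta b x0 x * eta b y0 y * q x y * φ x y ^ 2 := by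
      simp only [hG1, hG2]
      have := h.pde x y
      linear_combination (-(eta b x0 x * eta b y0 y * φ x y)) * this
    rw [e2]
    have a1 := eta_nonneg b x0 x
    have a2 := eta_nonneg b y0 y
    have a3 := eta_le_one hb hx'
    have a4 := eta_le_one hb hy'
    have a5 := eta2_le hb hx'
    have a6 := eta2_le hb hy'
    have a7 : φ x y ^ 2 ≤ S ^ 2 := by
      rw [← sq_abs]
      exact pow_le_pow_left₀ (abs_nonneg _) (hS x y hx' hy') 2
    have hb2 : 0 < 8 / b ^ 2 := by positivity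
    have a8 : eta2 b x0 x * eta b y0 y ≤ 8 / b ^ 2 := by
      calc eta2 b x0 x * eta b y0 y ≤ 8 / b ^ 2 * eta b y0 y := by gcongr
        _ ≤ 8 / b ^ 2 * 1 := by gcongr
        _ = _ := mul_one _
    have a9 : eta b x0 x * eta2 b y0 y ≤ 8 / b ^ 2 := by
      calc eta b x0 x * eta2 b y0 y ≤ eta b x0 x * (8 / b ^ 2) := by gcongr
        _ ≤ 1 * (8 / b ^ 2) := by gcongr
        _ = _ := one_mul _
    have a10 : eta b x0 x * eta b y0 y * q x y ≤ Q := by
      have : eta b x0 x * eta b y0 y ≤ 1 := by nlinarith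
      calc eta b x0 x * eta b y0 y * q x y ≤ eta b x0 x * eta b y0 y * Q := by
            have := mul_nonneg a1 a2
            gcongr
            exact hQ x y hx' hy'
        _ ≤ 1 * Q := by gcongr
        _ = Q := one_mul _
    calc 1 / 2 * (eta2 b x0 x * eta b y0 y + eta b x0 x * eta2 b y0 y) * φ x y ^ 2 +
        eta b x0 x * eta b y0 y * q x y * φ x y ^ 2 =
        (1 / 2 * (eta2 b x0 x * eta b y0 y + eta b x0 x * eta2 b y0 y) +
          eta b x0 x * eta b y0 y * q x y) * φ x y ^ 2 := by ring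
      _ ≤ (8 / b ^ 2 + Q) * φ x y ^ 2 := by
        refine mul_le_mul_of_nonneg_right ?_ (sq_nonneg _)
        linarith
      _ ≤ (8 / b ^ 2 + Q) * S ^ 2 := by gcongr
  have I5 : ∫ x in (x0 - b)..(x0 + b), ∫ y in (y0 - b)..(y0 + b), ((8 / b ^ 2 + Q) * S ^ 2) =
      (32 + 4 * Q * b ^ 2) * S ^ 2 := by
    simp only [intervalIntegral.integral_const, smul_eq_mul]
    field_simp
    ring
  have I6 : ∫ x in (x0 - b)..(x0 + b), ∫ y in (y0 - b)..(y0 + b), F1 x y ≤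
      (32 + 4 * Q * b ^ 2) * S ^ 2 := by linarith
  -- the half box
  have J1 : ∫ x in (x0 - b / 2)..(x0 + b / 2), ∫ y in (y0 - b / 2)..(y0 + b / 2), F1 x y ≤
      (32 + 4 * Q * b ^ 2) * S ^ 2 := by
    refine (sub2 kF1 (by linarith) (by linarith) (by linarith) (by linarith) (by linarith)
      (by linarith) fun x y => ?_).trans I6
    simp only [hF1]
    have := eta_nonneg b x0 x
    have := eta_nonneg b y0 y
    positivity
  have J2 : ∫ x in (x0 - b / 2)..(x0 + b / 2), ∫ y in (y0 - b / 2)..(y0 + b / 2),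
      (φ x y ^ 2 + b ^ 2 * φx x y ^ 2) ≤
      ∫ x in (x0 - b / 2)..(x0 + b / 2), ∫ y in (y0 - b / 2)..(y0 + b / 2),
      (S ^ 2 + 4 * b ^ 2 * F1 x y) := by
    refine mono2 (F := fun x y => φ x y ^ 2 + b ^ 2 * φx x y ^ 2)
      (G := fun x y => S ^ 2 + 4 * b ^ 2 * F1 x y) ?_ ?_ (by linarith) (by linarith)
      fun x hx y hy => ?_
    · show Continuous fun p : ℝ × ℝ => φ p.1 p.2 ^ 2 + b ^ 2 * φx p.1 p.2 ^ 2
      fun_prop
    · exact continuous_const.add (continuous_const.mul kF1)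
    · have hx' : |x - x0| ≤ b / 2 := abs_le.2 ⟨by linarith [hx.1], by linarith [hx.2]⟩
      have hy' : |y - y0| ≤ b / 2 := abs_le.2 ⟨by linarith [hy.1], by linarith [hy.2]⟩
      have a1 := eta_half hb hx'
      have a2 := eta_half hb hy'
      have a3 : 1 / 4 ≤ eta b x0 x * eta b y0 y := by nlinarith
      have a7 : φ x y ^ 2 ≤ S ^ 2 := by
        rw [← sq_abs]
        exact pow_le_pow_left₀ (abs_nonneg _) (hS x y (by linarith) (by linarith)) 2
      simp only [hF1]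
      have a4 : 0 ≤ b ^ 2 * φx x y ^ 2 := by positivity
      nlinarith [mul_le_mul_of_nonneg_right a3 a4]
  refine J2.trans ?_
  have J3 := const2 kF1 b x0 y0 (S ^ 2) (4 * b ^ 2)
  rw [J3]
  have hb2 : 0 < b ^ 2 := by positivity
  nlinarith [mul_le_mul_of_nonneg_left J1 (by positivity : (0 : ℝ) ≤ 4 * b ^ 2)]

end cacc

open MeasureTheory Complex Filter Topology Metric Set Function
open scoped ComplexConjugate
open Pool.Agent.Y291.PA (Sol2)
open Pool.Agent.R220.LV (par_deriv par_cont contDiff_one_of)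
open Pool.Agent.H761R2.SV (dbar)
open Pool.Agent.NH44.LT

theorem wf_sm2 : ∃ ε : ℝ, 0 < ε ∧ ε ≤ 1 / 4 ∧ ∀ a b : ℝ → ℝ, Continuous a → Continuous b →
    (∀ x, |x| ≤ 26 → |a x| ≤ ε) → (∀ x, |x| ≤ 26 → |b x| ≤ ε) → ∃ (τ : ℝ) (α α' αh αh' β β' βh βh' : ℝ → ℝ),
      PF τ a α α' αh αh' ∧ PF τ b β β' βh βh' ∧ ∀ U Ux Uxx Uy Uyy : ℝ → ℝ → ℝ,
        Sol2 (fun x y => a x + b y) U Ux Uxx Uy Uyy → ∀ c, Sm (wf α α' αh β βh U Ux Uy c) := by
  obtain ⟨C, hC, hsim⟩ := sim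
  have hτ : 0 < 1 / (2 * (C + 1)) := by positivity
  obtain ⟨ε, hε, hε4, hpos⟩ := pos_sol2 hτ
  refine ⟨ε, hε, hε4, fun a b ha hb hae hbe => ?_⟩
  obtain ⟨α, α', αh, αh', hα⟩ := hpos a ha hae
  obtain ⟨β, β', βh, βh', hβ⟩ := hpos b hb hbe
  refine ⟨_, α, α', αh, αh', β, β', βh, βh', hα, hβ, fun U Ux Uxx Uy Uyy hs c η hη => ?_⟩
  obtain ⟨h1, h2⟩ := wf_main hs hα hβ c
  obtain ⟨s, G, k1, k2, k3, k4⟩ := hsim (bf αh αh' βh βh') _ (1 / (2 * (C + 1))) h1
    (bf_cont hα hβ) (fun z hz => bf_bound hα hβ hz) h2 η hη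
  refine ⟨s, G, k1, fun z => (k2 z).trans ?_, k3, k4⟩
  have : C * (1 / (2 * (C + 1))) = C / (C + 1) / 2 := by field_simp
  rw [this]
  have h5 : C / (C + 1) ≤ 1 := by
    rw [div_le_one (by positivity)]
    linarith
  linarith

/-- the lines with small energy -/
theorem lines2 {q U Ux Uxx Uy Uyy : ℝ → ℝ → ℝ} (h : Sol2 q U Ux Uxx Uy Uyy) {m : ℝ}
    (hU : ∀ x y, |x| ≤ 1 → |y| ≤ 1 → |U x y| ≤ m) (hq : ∀ x y, |x| ≤ 1 → |y| ≤ 1 → q x y ≤ 1 / 2) :
    (∃ x ∈ Icc (1 / 4 : ℝ) (1 / 2), ∫ t in (-(1 / 2) : ℝ)..(1 / 2), Ux x t ^ 2 ≤ 548 * m ^ 2) ∧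
    ∃ x ∈ Icc (-(1 / 2) : ℝ) (-(1 / 4)),
      ∫ t in (-(1 / 2) : ℝ)..(1 / 2), Ux x t ^ 2 ≤ 548 * m ^ 2 := by
  have h1 := cacc3 h (x0 := 0) (y0 := 0) (b := 1) (S := m) (Q := 1 / 2) one_pos
    (fun x y hx hy => hU x y (by simpa using hx) (by simpa using hy))
    (fun x y hx hy => hq x y (by simpa using hx) (by simpa using hy)) (by norm_num)
  have cx : Continuous fun p : ℝ × ℝ => Ux p.1 p.2 := h.cx
  have c0 : Continuous fun p : ℝ × ℝ => U p.1 p.2 := h.c
  set F : ℝ → ℝ := fun x => ∫ t in (-(1 / 2) : ℝ)..(1 / 2), Ux x t ^ 2 with hF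
  have hFc : Continuous F := by
    refine par_cont (F := fun x t => Ux x t ^ 2) ?_ _ _
    have : Continuous fun p : ℝ × ℝ => Ux p.1 p.2 ^ 2 := by fun_prop
    exact this
  have hF0 : ∀ x, 0 ≤ F x := fun x => intervalIntegral.integral_nonneg (by norm_num)
    fun t _ => sq_nonneg _
  have h2 : ∫ x in (-(1 / 2) : ℝ)..(1 / 2), F x ≤ 137 * m ^ 2 := by
    have e1 : (0 : ℝ) - 1 / 2 = -(1 / 2) := by norm_num
    have e2 : (0 : ℝ) + 1 / 2 = 1 / 2 := by norm_num
    rw [e1, e2] at h1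
    have h3 : ∫ x in (-(1 / 2) : ℝ)..(1 / 2), F x ≤ ∫ x in (-(1 / 2) : ℝ)..(1 / 2),
        ∫ y in (-(1 / 2) : ℝ)..(1 / 2), (U x y ^ 2 + 1 ^ 2 * Ux x y ^ 2) := by
      refine intervalIntegral.integral_mono_on (by norm_num) (hFc.intervalIntegrable _ _) ?_ ?_
      · refine Continuous.intervalIntegrable ?_ _ _
        refine par_cont (F := fun x y => U x y ^ 2 + 1 ^ 2 * Ux x y ^ 2) ?_ _ _
        have : Continuous fun p : ℝ × ℝ => U p.1 p.2 ^ 2 + 1 ^ 2 * Ux p.1 p.2 ^ 2 := by fun_prop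
        exact this
      · intro x _
        refine intervalIntegral.integral_mono_on (by norm_num) ?_ ?_ ?_
        · exact ((h.cx.comp (Continuous.prodMk_right x)).pow 2).intervalIntegrable _ _
        · exact (((h.c.comp (Continuous.prodMk_right x)).pow 2).add (continuous_const.mul
            ((h.cx.comp (Continuous.prodMk_right x)).pow 2))).intervalIntegrable _ _
        · intro y _
          have := sq_nonneg (U x y)
          simp only [one_pow, one_mul]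
          linarith
    refine h3.trans (h1.trans ?_)
    nlinarith [sq_nonneg m]
  constructor
  · obtain ⟨x, hx, h3⟩ := good_line hFc (a := 1 / 4) (b := 1 / 2) (by norm_num)
    refine ⟨x, hx, ?_⟩
    have h4 : ∫ t in (1 / 4 : ℝ)..(1 / 2), F t ≤ ∫ t in (-(1 / 2) : ℝ)..(1 / 2), F t :=
      intervalIntegral.integral_mono_interval (by norm_num) (by norm_num) le_rfl
        (Filter.Eventually.of_forall hF0) (hFc.intervalIntegrable _ _)
    show F x ≤ 548 * m ^ 2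
    linarith
  · obtain ⟨x, hx, h3⟩ := good_line hFc (a := -(1 / 2)) (b := -(1 / 4)) (by norm_num)
    refine ⟨x, hx, ?_⟩
    have h4 : ∫ t in (-(1 / 2) : ℝ)..(-(1 / 4)), F t ≤ ∫ t in (-(1 / 2) : ℝ)..(1 / 2), F t :=
      intervalIntegral.integral_mono_interval le_rfl (by norm_num) (by norm_num)
        (Filter.Eventually.of_forall hF0) (hFc.intervalIntegrable _ _)
    show F x ≤ 548 * m ^ 2
    linarith

section

variable {τ : ℝ} {a b α α' αh αh' β β' βh βh' : ℝ → ℝ} {U Ux Uxx Uy Uyy : ℝ → ℝ → ℝ}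
  (hs : Sol2 (fun x y => a x + b y) U Ux Uxx Uy Uyy) (hα : PF τ a α α' αh αh')
  (hβ : PF τ b β β' βh βh')

include hs hα hβ

/-- a good constant -/
theorem base2 {m : ℝ} (hm : 0 < m) (hU : ∀ x y, |x| ≤ 1 → |y| ≤ 1 → |U x y| ≤ m)
    (ha : ∀ x, |x| ≤ 26 → |a x| ≤ 1 / 4) (hb : ∀ x, |x| ≤ 26 → |b x| ≤ 1 / 4)
    (hSm : ∀ c, Sm (wf α α' αh β βh U Ux Uy c)) :
    ∃ c0 : ℝ, ∀ v : ℂ, ‖v‖ ≤ 1 / 4 → ‖wf α α' αh β βh U Ux Uy c0 v‖ ≤ 27000 * m := by
  have hq : ∀ x y, |x| ≤ 1 → |y| ≤ 1 → a x + b y ≤ 1 / 2 := fun x y hx hy => by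
    have h1 := (abs_le.1 (ha x (by linarith))).2
    have h2 := (abs_le.1 (hb y (by linarith))).2
    linarith
  obtain ⟨⟨xp, hxp, Exp⟩, xm, hxm, Exm⟩ := lines2 hs hU hq
  obtain ⟨⟨yp, hyp, Eyp⟩, ym, hym, Eym⟩ := lines2 (sol_swap hs) (fun x y hx hy => hU y x hy hx)
    (fun x y hx hy => hq y x hy hx)
  have axp : |xp| ≤ 1 / 2 := abs_le.2 ⟨by linarith [hxp.1], hxp.2⟩
  have axm : |xm| ≤ 1 / 2 := abs_le.2 ⟨hxm.1, by linarith [hxm.2]⟩
  have ayp : |yp| ≤ 1 / 2 := abs_le.2 ⟨by linarith [hyp.1], hyp.2⟩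
  have aym : |ym| ≤ 1 / 2 := abs_le.2 ⟨hym.1, by linarith [hym.2]⟩
  -- estimates of the derivatives of `psi`
  have bα : ∀ x, |x| ≤ 1 / 2 → |α x| ≤ 2 ∧ |α' x| ≤ 1 := fun x hx =>
    ⟨(hα.bd x (by linarith)).1, (hα.bd x (by linarith)).2.1⟩
  have bβ : ∀ x, |x| ≤ 1 / 2 → |β x| ≤ 2 ∧ |β' x| ≤ 1 := fun x hx =>
    ⟨(hβ.bd x (by linarith)).1, (hβ.bd x (by linarith)).2.1⟩
  have prod : ∀ A B B' V V' : ℝ, |A| ≤ 2 → |B| ≤ 2 → |B'| ≤ 1 → |V'| ≤ m →
      |A * (B * V - B' * V')| ≤ 4 * |V| + 2 * m := by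
    intro A B B' V V' hA hB hB' hV'
    have h1 : |B * V - B' * V'| ≤ 2 * |V| + m := by
      refine (abs_sub _ _).trans (add_le_add ?_ ?_)
      · rw [abs_mul]
        exact mul_le_mul_of_nonneg_right hB (abs_nonneg _)
      · rw [abs_mul]
        calc |B'| * |V'| ≤ 1 * m := mul_le_mul hB' hV' (abs_nonneg _) zero_le_one
          _ = m := one_mul m
    rw [abs_mul]
    calc |A| * |B * V - B' * V'| ≤ 2 * (2 * |V| + m) :=
          mul_le_mul hA h1 (abs_nonneg _) (by norm_num)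
      _ = _ := by ring
  have vert : ∀ x, |x| ≤ 1 / 2 → (∫ t in (-(1 / 2) : ℝ)..(1 / 2), Ux x t ^ 2 ≤ 548 * m ^ 2) →
      ∀ p q, |p| ≤ 1 / 2 → |q| ≤ 1 / 2 →
      |psi α α' β U Ux Uy x q - psi α α' β U Ux Uy x p| ≤ 1100 * m := by
    intro x hx hE p q hp hq
    have c1 : Continuous fun t => Ux x t := hs.cx.comp (Continuous.prodMk_right x)
    have c2 : Continuous fun t => U x t := hs.c.comp (Continuous.prodMk_right x)
    have h1 := osc_line (D := fun y => psi α α' β U Ux Uy x y)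
      (f := fun y => β y * (α x * Ux x y - α' x * U x y)) (u := fun y => Ux x y) (m := m)
      (E := 548) (psi_y hs hα hβ x)
      (hβ.c1.mul ((continuous_const.mul c1).sub (continuous_const.mul c2))) c1 hm
      (fun t ht => prod _ _ _ _ _ (bβ t ht).1 (bα x hx).1 (bα x hx).2
        (hU x t (by linarith) (by linarith))) hE hp hq
    norm_num at h1
    exact h1
  have horz : ∀ y, |y| ≤ 1 / 2 → (∫ t in (-(1 / 2) : ℝ)..(1 / 2), Uy t y ^ 2 ≤ 548 * m ^ 2) →
      ∀ p q, |p| ≤ 1 / 2 → |q| ≤ 1 / 2 →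
      |psi α α' β U Ux Uy q y - psi α α' β U Ux Uy p y| ≤ 1100 * m := by
    intro y hy hE p q hp hq
    have c1 : Continuous fun t => Uy t y := hs.cy.comp (Continuous.prodMk_left y)
    have c2 : Continuous fun t => U t y := hs.c.comp (Continuous.prodMk_left y)
    have h1 := osc_line (D := fun x => psi α α' β U Ux Uy x y)
      (f := fun x => -(α x * (β y * Uy x y - β' y * U x y))) (u := fun x => Uy x y) (m := m)
      (E := 548) (fun x => psi_x hs hα hβ x y)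
      (hα.c1.mul ((continuous_const.mul c1).sub (continuous_const.mul c2))).neg c1 hm
      (fun t ht => by
        rw [abs_neg]
        exact prod _ _ _ _ _ (bα t ht).1 (bβ y hy).1 (bβ y hy).2
          (hU t y (by linarith) (by linarith))) hE hp hq
    norm_num at h1
    exact h1
  refine ⟨-psi α α' β U Ux Uy xp yp, fun v hv => ?_⟩
  have hBox : ∀ u ∈ Box xm xp ym yp, |u.re| ≤ 1 / 2 ∧ |u.im| ≤ 1 / 2 := by
    rintro u ⟨⟨k1, k2⟩, k3, k4⟩
    exact ⟨abs_le.2 ⟨by linarith [hxm.1], by linarith [hxp.2]⟩,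
      abs_le.2 ⟨by linarith [hym.1], by linarith [hyp.2]⟩⟩
  refine (max_pr (hSm _) (x1 := xm) (x2 := xp) (y1 := ym) (y2 := yp) (M := 9000 * m) ?_ ?_
    ?_).trans (by linarith)
  · intro u hu
    obtain ⟨k1, k2⟩ := hBox u hu
    refine (Complex.norm_le_abs_re_add_abs_im u).trans ?_
    linarith
  · intro u hu
    obtain ⟨k1, k2⟩ := hBox u hu.1
    have h1 : |psi α α' β U Ux Uy u.re u.im - psi α α' β U Ux Uy xp yp| ≤ 2200 * m := by
      rcases hu.2 with e | e | e | e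
      · have e1 := vert xm axm Exm yp u.im ayp k2
        have e2 := horz yp ayp Eyp xp xm axp axm
        rw [e]
        rw [abs_le] at e1 e2 ⊢
        constructor <;> linarith [e1.1, e1.2, e2.1, e2.2]
      · have e1 := vert xp axp Exp yp u.im ayp k2
        rw [e]
        linarith
      · have e1 := horz ym aym Eym xp u.re axp k1
        have e2 := vert xp axp Exp yp ym ayp aym
        rw [e]
        rw [abs_le] at e1 e2 ⊢
        constructor <;> linarith [e1.1, e1.2, e2.1, e2.2]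
      · have e1 := horz yp ayp Eyp xp u.re axp k1
        rw [e]
        linarith
    have h2 : |chi α α' αh β βh U Ux Uy (-psi α α' β U Ux Uy xp yp) u.re u.im| ≤ 8800 * m := by
      unfold chi
      have h3 := hα.lo u.re
      have h4 := hβ.lo u.im
      have h5 : 1 / 4 ≤ αh u.re * βh u.im := by nlinarith
      rw [abs_div, abs_of_pos (show 0 < αh u.re * βh u.im by linarith), div_le_iff₀ (by linarith),
        ← sub_eq_add_neg]
      nlinarith
    have h3 : |U u.re u.im| ≤ m := hU _ _ (by linarith) (by linarith)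
    unfold wf
    refine (norm_add_le _ _).trans ?_
    rw [norm_mul, norm_I, one_mul, Complex.norm_real, Complex.norm_real, Real.norm_eq_abs,
      Real.norm_eq_abs]
    linarith
  · have h1 := abs_le.1 ((abs_re_le_norm v).trans hv)
    have h2 := abs_le.1 ((abs_im_le_norm v).trans hv)
    exact ⟨⟨by linarith [hxm.2, h1.1], by linarith [hxp.1, h1.2]⟩,
      by linarith [hym.2, h2.1], by linarith [hyp.1, h2.2]⟩

end

/-- The local lemma. -/
theorem LL2 : ∃ ε : ℝ, 0 < ε ∧ ∀ (a b : ℝ → ℝ) (U Ux Uxx Uy Uyy : ℝ → ℝ → ℝ), Continuous a →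
    Continuous b → (∀ x, |x| ≤ 26 → |a x| ≤ ε) → (∀ x, |x| ≤ 26 → |b x| ≤ ε) →
    Sol2 (fun x y => a x + b y) U Ux Uxx Uy Uyy →
    ∀ (a1 a2 b1 b2 : ℝ), a1 ∈ Icc (-4 : ℝ) (-3) → a2 ∈ Icc (3 : ℝ) 4 → b1 ∈ Icc (-4 : ℝ) (-3) →
    b2 ∈ Icc (3 : ℝ) 4 → ∀ (Z1 Z2 Z3 Z4 : Finset ℝ) (n : ℕ),
    (∀ t ∈ Icc b1 b2, U a2 t = 0 → t ∈ Z1) → (∀ t ∈ Icc a1 a2, U t b2 = 0 → t ∈ Z2) →
    (∀ t ∈ Icc b1 b2, U a1 t = 0 → t ∈ Z3) → (∀ t ∈ Icc a1 a2, U t b1 = 0 → t ∈ Z4) →
    Z1.card + Z2.card + Z3.card + Z4.card ≤ n → ∀ m : ℝ, 0 < m →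
    (∀ x y, |x| ≤ 1 → |y| ≤ 1 → |U x y| ≤ m) →
    ∀ x y, |x| ≤ 2 → |y| ≤ 2 → |U x y| ≤ m * Real.exp (20000 * (n + 1)) := by
  obtain ⟨ε, hε, hε4, H⟩ := wf_sm2
  refine ⟨ε, hε, ?_⟩
  intro a b U Ux Uxx Uy Uyy ha hb hae hbe hs a1 a2 b1 b2 ha1 ha2 hb1 hb2 Z1 Z2 Z3 Z4 n z1 z2 z3 z4
    hn m hm hU x y hx hy
  obtain ⟨τ, α, α', αh, αh', β, β', βh, βh', hα, hβ, hSm⟩ := H a b ha hb hae hbe
  have hSm' := hSm U Ux Uxx Uy Uyy hs
  obtain ⟨c0, hc0⟩ := base2 hs hα hβ hm hU (fun x hx => (hae x hx).trans hε4)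
    (fun x hx => (hbe x hx).trans hε4) hSm'
  -- the exceptional constants
  set E : Finset ℝ := ((Z1.image fun t => -psi α α' β U Ux Uy a2 t - c0) ∪
    (Z2.image fun t => -psi α α' β U Ux Uy t b2 - c0)) ∪
    ((Z3.image fun t => -psi α α' β U Ux Uy a1 t - c0) ∪
    (Z4.image fun t => -psi α α' β U Ux Uy t b1 - c0)) with hE
  obtain ⟨σ, hσ, hσE⟩ := (Set.Ioo_infinite hm).exists_notMem_finset E
  have hre : ∀ z, (wf α α' αh β βh U Ux Uy (c0 + σ) z).re = U z.re z.im := by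
    intro z
    unfold wf
    simp
  have him : ∀ z, (wf α α' αh β βh U Ux Uy (c0 + σ) z).im =
      chi α α' αh β βh U Ux Uy (c0 + σ) z.re z.im := by
    intro z
    unfold wf
    simp
  have hne : ∀ v ∈ Bd a1 a2 b1 b2, wf α α' αh β βh U Ux Uy (c0 + σ) v ≠ 0 := by
    intro v hv h0
    have h1 := hre v
    have h2 := him v
    rw [h0] at h1 h2
    simp only [Complex.zero_re, Complex.zero_im] at h1 h2
    have h3 : psi α α' β U Ux Uy v.re v.im + (c0 + σ) = 0 := by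
      unfold chi at h2
      have h4 := hα.pos v.re
      have h5 := hβ.pos v.im
      have h6 := (div_eq_zero_iff.1 h2.symm)
      rcases h6 with h6 | h6
      · exact h6
      · exact absurd h6 (mul_pos h4 h5).ne'
    have h4 : σ = -psi α α' β U Ux Uy v.re v.im - c0 := by linarith
    apply hσE
    obtain ⟨⟨⟨k1, k2⟩, k3, k4⟩, hv'⟩ := hv
    rw [hE, Finset.mem_union, Finset.mem_union, Finset.mem_union]
    rcases hv' with e | e | e | e
    · right; left
      rw [e] at h1 h4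
      exact Finset.mem_image.2 ⟨v.im, z3 v.im ⟨k3, k4⟩ h1.symm, h4.symm⟩
    · left; left
      rw [e] at h1 h4
      exact Finset.mem_image.2 ⟨v.im, z1 v.im ⟨k3, k4⟩ h1.symm, h4.symm⟩
    · right; right
      rw [e] at h1 h4
      exact Finset.mem_image.2 ⟨v.re, z4 v.re ⟨k1, k2⟩ h1.symm, h4.symm⟩
    · left; right
      rw [e] at h1 h4
      exact Finset.mem_image.2 ⟨v.re, z2 v.re ⟨k1, k2⟩ h1.symm, h4.symm⟩
  have hsmall : ∀ v : ℂ, ‖v‖ ≤ 1 / 4 → ‖wf α α' αh β βh U Ux Uy (c0 + σ) v‖ ≤ 28000 * m := by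
    intro v hv
    have h1 := hc0 v hv
    have h2 : wf α α' αh β βh U Ux Uy (c0 + σ) v = wf α α' αh β βh U Ux Uy c0 v +
        I * ((σ / (αh v.re * βh v.im) : ℝ) : ℂ) := by
      unfold wf chi
      push_cast
      ring
    have h3 := hα.lo v.re
    have h4 := hβ.lo v.im
    have h5 : 1 / 4 ≤ αh v.re * βh v.im := by nlinarith
    have h6 : ‖I * ((σ / (αh v.re * βh v.im) : ℝ) : ℂ)‖ ≤ 4 * m := by
      rw [norm_mul, norm_I, one_mul, Complex.norm_real, Real.norm_eq_abs, abs_div,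
        abs_of_pos (show 0 < αh v.re * βh v.im by linarith), abs_of_pos hσ.1,
        div_le_iff₀ (by linarith)]
      nlinarith [hσ.2]
    rw [h2]
    refine (norm_add_le _ _).trans ?_
    linarith
  have hv : ‖(⟨x, y⟩ : ℂ)‖ ≤ 29 / 10 := by
    have h1 : ‖(⟨x, y⟩ : ℂ)‖ ^ 2 = x ^ 2 + y ^ 2 := by
      rw [← Complex.normSq_eq_norm_sq, Complex.normSq_apply]
      ring
    have h2 : x ^ 2 ≤ 4 := by
      rw [← sq_abs]
      nlinarith [abs_nonneg x]
    have h3 : y ^ 2 ≤ 4 := by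
      rw [← sq_abs]
      nlinarith [abs_nonneg y]
    nlinarith [norm_nonneg (⟨x, y⟩ : ℂ)]
  have h1 := growthW (wf_main hs hα hβ (c0 + σ)).1.continuous (hSm' (c0 + σ)) ha1 ha2 hb1 hb2 hne
    (Z1 := Z1) (Z2 := Z2) (Z3 := Z3) (Z4 := Z4) (n := n)
    (fun t ht h0 => z1 t ht (by rw [hre] at h0; simpa using h0))
    (fun t ht h0 => z2 t ht (by rw [hre] at h0; simpa using h0))
    (fun t ht h0 => z3 t ht (by rw [hre] at h0; simpa using h0))
    (fun t ht h0 => z4 t ht (by rw [hre] at h0; simpa using h0)) hn hsmall ⟨x, y⟩ hv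
  have h2 : |U x y| ≤ ‖wf α α' αh β βh U Ux Uy (c0 + σ) ⟨x, y⟩‖ := by
    have := abs_re_le_norm (wf α α' αh β βh U Ux Uy (c0 + σ) ⟨x, y⟩)
    rw [hre] at this
    exact this
  refine h2.trans (h1.trans ?_)
  have h3 : (3 * 28000 : ℝ) ≤ Real.exp 12 := by
    have h4 : (2.7 : ℝ) ≤ Real.exp 1 := by
      have := Real.exp_one_gt_d9
      linarith
    have h5 : Real.exp 12 = Real.exp 1 ^ 12 := by
      rw [← Real.exp_nat_mul]; norm_num
    rw [h5]
    calc (3 * 28000 : ℝ) ≤ 2.7 ^ 12 := by norm_num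
      _ ≤ Real.exp 1 ^ 12 := by gcongr
  have h4 : 3 * (28000 * m) * Real.exp (4500 * (n + 4)) ≤
      m * (Real.exp 12 * Real.exp (4500 * (n + 4))) := by
    have h5 := Real.exp_pos (4500 * ((n : ℝ) + 4))
    have h6 := mul_le_mul_of_nonneg_right h3 (mul_pos hm h5).le
    nlinarith
  refine h4.trans (mul_le_mul_of_nonneg_left ?_ hm.le)
  rw [← Real.exp_add]
  refine Real.exp_le_exp.2 ?_
  have : (0 : ℝ) ≤ n := Nat.cast_nonneg n
  linarith

end Pool.Agent.NH44.SR
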