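import Pool.Agent.NH44.SR.Tail
import Pool.Agent.NH44.LT.Sturm2
import Pool.Agent.NH44.LT.Rect

/-!
# Zeros on the real line of sums of bounded solutions
-/

set_option autoImplicit false

open Filter Topology Metric Set MeasureTheory

namespace Pool.Agent.NH44.SR

open Pool.Agent.NH44.LT (FS FS_d FS_d' indep exists_gd good_pos good_neg snd_nonneg)

/-- `F` and `BF` have the same strict sign -/
def SG (F'' q F : ℝ → ℝ) (p : ℝ) : Prop :=
  (0 < F p ∧ 0 < -F'' p + q p * F p) ∨ (F p < 0 ∧ -F'' p + q p * F p < 0)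

theorem SG.neg {F'' q F : ℝ → ℝ} {p : ℝ} (h : SG F'' q F p) :
    SG (fun x => -F'' x) q (fun x => -F x) p := by
  rcases h with ⟨h1, h2⟩ | ⟨h1, h2⟩
  · exact Or.inr ⟨by linarith, by linarith⟩
  · exact Or.inl ⟨by linarith, by linarith⟩

section step

variable {F F' F'' q : ℝ → ℝ} (hF : ∀ x, HasDerivAt F (F' x) x)
  (hF' : ∀ x, HasDerivAt F' (F'' x) x) (hFc : Continuous F'') (hqc : Continuous q)
  (hq : ∀ x, 0 < q x)

include hF hF' hq

theorem sg_of_gd {p : ℝ} (h : LT.Gd F p) : SG F'' q F p := by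
  rcases h with ⟨h1, h2⟩ | ⟨h1, h2⟩
  · exact Or.inl ⟨h1, good_pos hF hF' hq h1 h2⟩
  · exact Or.inr ⟨h1, good_neg hF hF' hq h1 h2⟩

include hFc hqc

theorem between_sg_pos {p p' z : ℝ} (hp : 0 < F p) (hpm : 0 < -F'' p + q p * F p)
    (hp' : 0 < F p') (h1 : p < z) (h2 : z < p') (hz : F z = 0) :
    ∃ ζ ∈ Ioo p p', -F'' ζ + q ζ * F ζ = 0 := by
  have hFcont : Continuous F := continuous_iff_continuousAt.2 fun t => (hF t).continuousAt
  have hpp : p ≤ p' := (h1.trans h2).le
  obtain ⟨ξ, hξ, hmin⟩ := (isCompact_Icc (a := p) (b := p')).exists_isMinOn ⟨p, le_rfl, hpp⟩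
    hFcont.continuousOn
  have h3 : F ξ ≤ 0 := by
    have := hmin ⟨h1.le, h2.le⟩
    rwa [mem_ofPred_eq, hz] at this
  have h4 : p < ξ := lt_of_le_of_ne hξ.1 (by rintro rfl; linarith)
  have h5 : ξ < p' := lt_of_le_of_ne hξ.2 (by rintro rfl; linarith)
  have h6 : IsLocalMin F ξ := by
    filter_upwards [Icc_mem_nhds h4 h5] with x hx
    exact hmin hx
  have h7 : -F'' ξ + q ξ * F ξ ≤ 0 := by
    have k1 := snd_nonneg hF hF' h6
    have k2 := mul_nonpos_of_nonneg_of_nonpos (hq ξ).le h3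
    linarith
  have hc : ContinuousOn (fun x => -F'' x + q x * F x) (Icc p ξ) := by fun_prop
  obtain ⟨ζ, hζ, e⟩ := intermediate_value_Icc' h4.le hc (show (0 : ℝ) ∈ Icc _ _ from ⟨h7, hpm.le⟩)
  have e' : -F'' ζ + q ζ * F ζ = 0 := e
  refine ⟨ζ, ⟨lt_of_le_of_ne hζ.1 ?_, hζ.2.trans_lt h5⟩, e'⟩
  rintro rfl
  linarith

theorem between_sg {p p' z : ℝ} (hp : SG F'' q F p) (hp' : SG F'' q F p') (h1 : p < z)
    (h2 : z < p') (hz : F z = 0) : ∃ ζ ∈ Ioo p p', -F'' ζ + q ζ * F ζ = 0 := by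
  have hFcont : Continuous F := continuous_iff_continuousAt.2 fun t => (hF t).continuousAt
  have hc : ContinuousOn (fun x => -F'' x + q x * F x) (Icc p p') := by fun_prop
  have hpp : p ≤ p' := (h1.trans h2).le
  rcases hp with ⟨a1, a2⟩ | ⟨a1, a2⟩ <;> rcases hp' with ⟨b1, b2⟩ | ⟨b1, b2⟩
  · exact between_sg_pos hF hF' hFc hqc hq a1 a2 b1 h1 h2 hz
  · exact intermediate_value_Ioo' hpp hc ⟨b2, a2⟩
  · exact intermediate_value_Ioo hpp hc ⟨a2, b2⟩
  · obtain ⟨ζ, hζ, e⟩ := between_sg_pos (F := fun x => -F x) (F' := fun x => -F' x)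
      (F'' := fun x => -F'' x) (fun x => (hF x).neg) (fun x => (hF' x).neg) hFc.neg hqc hq
      (p := p) (p' := p') (z := z) (by linarith) (by linarith) (by linarith) h1 h2
      (by rw [hz, neg_zero])
    exact ⟨ζ, hζ, by linarith⟩

omit hFc hqc

/-- a point on the left of a zero -/
theorem left_pos {z x0 B : ℝ} (hB : ∀ x, |F x| ≤ B) (hz : F z = 0) (hx : x0 < z)
    (hx0 : 0 < F x0) (hne : ∀ a b, a < b → ∃ x ∈ Ioo a b, F x ≠ 0) : ∃ p < z, SG F'' q F p := by
  have hFcont : Continuous F := continuous_iff_continuousAt.2 fun t => (hF t).continuousAt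
  have hFcont' : Continuous F' := continuous_iff_continuousAt.2 fun t => (hF' t).continuousAt
  by_cases h1 : ∃ x1 < x0, F x1 = 0
  · obtain ⟨x1, h2, h3⟩ := h1
    obtain ⟨p, hp, hG⟩ := exists_gd hFcont h3 hz (hne _ _ (h2.trans hx))
    exact ⟨p, hp.2, sg_of_gd hF hF' hq hG⟩
  push Not at h1
  by_contra hcon
  push Not at hcon
  -- the first zero
  obtain ⟨e, he, hmin⟩ := ((isCompact_Icc (a := x0) (b := z)).inter_right
    (isClosed_le hFcont (continuous_const (y := (0 : ℝ))))).exists_isMinOn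
    ⟨z, ⟨hx.le, le_rfl⟩, hz.le⟩ continuousOn_id
  obtain ⟨⟨he1, he2⟩, he3⟩ := he
  have he3' : F e ≤ 0 := he3
  have hxe : x0 < e := lt_of_le_of_ne he1 (fun h => by rw [← h] at he3'; linarith)
  have hp1 : ∀ x, x0 ≤ x → x < e → 0 < F x := by
    intro x k1 k2
    by_contra k3
    rw [not_lt] at k3
    have : e ≤ x := hmin (show x ∈ Icc x0 z ∩ {x | F x ≤ 0} from ⟨⟨k1, by linarith⟩, k3⟩)
    linarith
  have hp : ∀ x, x < e → 0 < F x := by
    intro x k1
    rcases le_or_gt x0 x with k2 | k2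
    · exact hp1 x k2 k1
    · by_contra k3
      rw [not_lt] at k3
      have h2 : (0 : ℝ) ∈ F '' Icc x x0 :=
        intermediate_value_Icc k2.le hFcont.continuousOn ⟨k3, hx0.le⟩
      obtain ⟨y, hy, h3⟩ := h2
      rcases hy.2.eq_or_lt with h4 | h4
      · rw [h4] at h3; linarith
      · exact h1 y h4 h3
  have hF2 : ∀ x, x < e → 0 ≤ F'' x := by
    intro x hx
    have k1 := hp x hx
    have k2 : ¬ (0 < -F'' x + q x * F x) := fun h => hcon x (hx.trans_le he2) (Or.inl ⟨k1, h⟩)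
    have k3 := mul_pos (hq x) k1
    linarith
  obtain ⟨c, hc, hslope⟩ := exists_hasDerivAt_eq_slope F F' hxe hFcont.continuousOn fun x _ => hF x
  have hc0 : F' c < 0 := by
    rw [hslope]
    exact div_neg_of_neg_of_pos (by linarith) (by linarith)
  have hmono : ∀ x, x ≤ c → F' x ≤ F' c := by
    intro x hxc
    have h2 : MonotoneOn F' (Icc x c) := by
      refine monotoneOn_of_deriv_nonneg (convex_Icc x c) hFcont'.continuousOn
        (fun y _ => (hF' y).differentiableAt.differentiableWithinAt) fun y hy => ?_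
      rw [interior_Icc] at hy
      rw [(hF' y).deriv]
      exact hF2 y (hy.2.trans hc.2)
    exact h2 ⟨le_rfl, hxc⟩ ⟨hxc, le_rfl⟩ hxc
  -- a far point
  set x := c - (2 * |B| + 1) / (-F' c) with hxdef
  have hpos : 0 < (2 * |B| + 1) / (-F' c) := div_pos (by positivity) (by linarith)
  have hxc : x < c := by linarith
  obtain ⟨d, hd, hd'⟩ := exists_hasDerivAt_eq_slope F F' hxc hFcont.continuousOn fun x _ => hF x
  have h2 := hmono d hd.2.le
  rw [hd', div_le_iff₀ (by linarith)] at h2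
  have h3 : F' c * (c - x) = -(2 * |B| + 1) := by
    have : c - x = (2 * |B| + 1) / (-F' c) := by rw [hxdef]; ring
    rw [this]
    have h4 : F' c ≠ 0 := hc0.ne
    field_simp
  have h5 := abs_le.1 (hB c)
  have h6 := abs_le.1 (hB x)
  have h7 := le_abs_self B
  linarith

theorem left_sg {z B : ℝ} (hB : ∀ x, |F x| ≤ B) (hz : F z = 0)
    (hne : ∀ a b, a < b → ∃ x ∈ Ioo a b, F x ≠ 0) : ∃ p < z, SG F'' q F p := by
  obtain ⟨x0, hx, hx0⟩ := hne (z - 1) z (by linarith)
  rcases lt_or_gt_of_ne hx0 with h | h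
  · obtain ⟨p, hp, hs⟩ := left_pos (F := fun x => -F x) (F' := fun x => -F' x)
      (F'' := fun x => -F'' x) (fun x => (hF x).neg) (fun x => (hF' x).neg) hq (z := z) (x0 := x0)
      (B := B) (fun x => by rw [abs_neg]; exact hB x) (by rw [hz, neg_zero]) hx.2 (by linarith)
      (fun a b hab => by
        obtain ⟨x, hx, h0⟩ := hne a b hab
        exact ⟨x, hx, neg_ne_zero.2 h0⟩)
    refine ⟨p, hp, ?_⟩
    have := hs.neg
    simpa using this
  · exact left_pos hF hF' hq hB hz hx.2 h hne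

theorem right_sg {z B : ℝ} (hB : ∀ x, |F x| ≤ B) (hz : F z = 0)
    (hne : ∀ a b, a < b → ∃ x ∈ Ioo a b, F x ≠ 0) : ∃ p > z, SG F'' q F p := by
  obtain ⟨p, hp, hs⟩ := left_sg (F := fun x => F (-x)) (F' := fun x => -F' (-x))
    (F'' := fun x => F'' (-x)) (q := fun x => q (-x)) (z := -z) (B := B)
    (fun s => by
      have := (hF (-s)).scomp s (hasDerivAt_neg s)
      simpa [Function.comp_def] using this)
    (fun s => by
      have := ((hF' (-s)).scomp s (hasDerivAt_neg s)).fun_neg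
      simpa [Function.comp_def] using this)
    (fun s => hq _) (fun s => hB _) (by rw [neg_neg]; exact hz)
    (fun a b hab => by
      obtain ⟨x, hx, h0⟩ := hne (-b) (-a) (by linarith)
      exact ⟨-x, ⟨by linarith [hx.2], by linarith [hx.1]⟩, by rwa [neg_neg]⟩)
  exact ⟨-p, by linarith, hs⟩

include hFc hqc

theorem count_aux {B : ℝ} (hB : ∀ x, |F x| ≤ B) (hne : ∀ a b, a < b → ∃ x ∈ Ioo a b, F x ≠ 0)
    (n : ℕ) : ∀ (Z : Finset ℝ) (p : ℝ), Z.card = n → (∀ z ∈ Z, F z = 0 ∧ z < p) →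
      SG F'' q F p → ∃ Z' : Finset ℝ, Z'.card = n ∧ ∀ z ∈ Z', -F'' z + q z * F z = 0 ∧ z < p := by
  have hFcont : Continuous F := continuous_iff_continuousAt.2 fun t => (hF t).continuousAt
  induction n with
  | zero =>
    intro Z p _ _ _
    exact ⟨∅, rfl, by simp⟩
  | succ n ih =>
    intro Z p hc hZ hp
    have hZne : Z.Nonempty := Finset.card_pos.1 (by omega)
    set z := Z.max' hZne with hz
    have hzZ : z ∈ Z := Z.max'_mem hZne
    obtain ⟨hz0, hzp⟩ := hZ z hzZ
    set Z1 := Z.erase z with hZ1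
    have hc1 : Z1.card = n := by rw [hZ1, Finset.card_erase_of_mem hzZ, hc]; rfl
    obtain ⟨p', hp'z, hp', hZ1p⟩ : ∃ p', p' < z ∧ SG F'' q F p' ∧ ∀ y ∈ Z1, y < p' := by
      rcases Z1.eq_empty_or_nonempty with h1 | h1
      · obtain ⟨p', h2, h3⟩ := left_sg hF hF' hq hB hz0 hne
        exact ⟨p', h2, h3, by rw [h1]; simp⟩
      · set y := Z1.max' h1 with hy
        have hyZ := Z1.max'_mem h1
        have hyz : y < z := lt_of_le_of_ne (Z.le_max' _ (Finset.mem_of_mem_erase hyZ))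
          (Finset.ne_of_mem_erase hyZ)
        obtain ⟨p', h2, h3⟩ := exists_gd hFcont (hZ y (Finset.mem_of_mem_erase hyZ)).1 hz0
          (hne _ _ hyz)
        exact ⟨p', h2.2, sg_of_gd hF hF' hq h3, fun x hx => (Z1.le_max' x hx).trans_lt h2.1⟩
    obtain ⟨ζ, hζ, hζ0⟩ := between_sg hF hF' hFc hqc hq hp' hp hp'z hzp hz0
    obtain ⟨Z', hc', hZ'⟩ := ih Z1 p' hc1 (fun y hy => ⟨(hZ y (Finset.mem_of_mem_erase hy)).1,
      hZ1p y hy⟩) hp'
    have hnot : ζ ∉ Z' := fun h => by
      have := (hZ' ζ h).2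
      linarith [hζ.1]
    refine ⟨insert ζ Z', by rw [Finset.card_insert_of_notMem hnot, hc'], fun y hy => ?_⟩
    rcases Finset.mem_insert.1 hy with rfl | hy
    · exact ⟨hζ0, hζ.2⟩
    · exact ⟨(hZ' y hy).1, (hZ' y hy).2.trans (hζ.1.trans hζ.2)⟩

theorem count_step {B : ℝ} (hB : ∀ x, |F x| ≤ B) (hne : ∀ a b, a < b → ∃ x ∈ Ioo a b, F x ≠ 0)
    {n : ℕ} {Z : Finset ℝ} (hc : Z.card = n) (hZ : ∀ z ∈ Z, F z = 0) :
    ∃ Z' : Finset ℝ, Z'.card = n ∧ ∀ z ∈ Z', -F'' z + q z * F z = 0 := by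
  rcases Z.eq_empty_or_nonempty with h1 | h1
  · exact ⟨∅, by rw [← hc, h1], by simp⟩
  · obtain ⟨p, hp, hs⟩ := right_sg hF hF' hq hB (hZ _ (Z.max'_mem h1)) hne
    obtain ⟨Z', h2, h3⟩ := count_aux hF hF' hFc hqc hq hB hne n Z p hc
      (fun z hz => ⟨hZ z hz, (Z.le_max' z hz).trans_lt hp⟩) hs
    exact ⟨Z', h2, fun z hz => (h3 z hz).1⟩

end step

/-! ### the label function -/

/-- the label function -/
noncomputable def lb (K s : ℝ) : ℝ :=
  ∫ t in (0 : ℝ)..s, (2 * Real.sqrt K * Real.exp (-|t|) + 2)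

theorem lb_cont_int (K : ℝ) : Continuous fun t : ℝ => 2 * Real.sqrt K * Real.exp (-|t|) + 2 := by
  fun_prop

theorem lb_sub (K s t : ℝ) : lb K t - lb K s =
    ∫ t in s..t, (2 * Real.sqrt K * Real.exp (-|t|) + 2) := by
  unfold lb
  rw [intervalIntegral.integral_interval_sub_left ((lb_cont_int K).intervalIntegrable _ _)
    ((lb_cont_int K).intervalIntegrable _ _)]

theorem lb_cont (K : ℝ) : Continuous (lb K) := by
  have : ∀ s, HasDerivAt (lb K) (2 * Real.sqrt K * Real.exp (-|s|) + 2) s := fun s =>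
    intervalIntegral.integral_hasDerivAt_right ((lb_cont_int K).intervalIntegrable _ _)
      ((lb_cont_int K).stronglyMeasurableAtFilter _ _) (lb_cont_int K).continuousAt
  exact continuous_iff_continuousAt.2 fun s => (this s).continuousAt

theorem lb_mono {K s t : ℝ} (h : s ≤ t) : lb K s ≤ lb K t := by
  have h1 := lb_sub K s t
  have h2 : 0 ≤ ∫ t in s..t, (2 * Real.sqrt K * Real.exp (-|t|) + 2) :=
    intervalIntegral.integral_nonneg h fun t _ => by positivity
  linarith

/-- a piece on which the label increases by at most one is short -/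
theorem lb_short {K s t x : ℝ} (hK : 0 ≤ K) (hst : s ≤ t) (h : lb K t - lb K s ≤ 1)
    (hx : x ∈ Icc s t) : K * Real.exp (-2 * |x|) * (t - s) ^ 2 ≤ 7 / 10 := by
  rw [lb_sub] at h
  have h1 : t - s ≤ 1 / 2 := by
    have h2 : ∫ _ in s..t, (2 : ℝ) ≤ ∫ t in s..t, (2 * Real.sqrt K * Real.exp (-|t|) + 2) :=
      intervalIntegral.integral_mono_on hst (continuous_const.intervalIntegrable _ _)
        ((lb_cont_int K).intervalIntegrable _ _) fun t _ => by
          have : 0 ≤ 2 * Real.sqrt K * Real.exp (-|t|) := by positivity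
          linarith
    rw [intervalIntegral.integral_const, smul_eq_mul] at h2
    linarith
  set e := Real.exp (-|x|) with he
  have he0 : 0 < e := Real.exp_pos _
  have h3 : ∫ _ in s..t, (2 * Real.sqrt K * (e * (3 / 5))) ≤
      ∫ t in s..t, (2 * Real.sqrt K * Real.exp (-|t|) + 2) := by
    refine intervalIntegral.integral_mono_on hst (continuous_const.intervalIntegrable _ _)
      ((lb_cont_int K).intervalIntegrable _ _) fun τ hτ => ?_
    have h4 : |τ| ≤ |x| + 1 / 2 := by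
      have h5 : |τ| ≤ |x| + |τ - x| := by
        have := abs_add_le x (τ - x)
        rwa [add_sub_cancel] at this
      have h6 : |τ - x| ≤ 1 / 2 := abs_le.2 ⟨by linarith [hτ.1, hx.2], by linarith [hτ.2, hx.1]⟩
      linarith
    have h5 : e * (3 / 5) ≤ Real.exp (-|τ|) := by
      calc e * (3 / 5) ≤ e * Real.exp (-(1 / 2)) := by
            have := LT.exp_neg_half
            gcongr
        _ = Real.exp (-|x| + -(1 / 2)) := (Real.exp_add _ _).symm
        _ ≤ Real.exp (-|τ|) := Real.exp_le_exp.2 (by linarith)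
    have h6 : 2 * Real.sqrt K * (e * (3 / 5)) ≤ 2 * Real.sqrt K * Real.exp (-|τ|) := by gcongr
    linarith
  rw [intervalIntegral.integral_const, smul_eq_mul] at h3
  have h4 : Real.sqrt K * e * (t - s) ≤ 5 / 6 := by nlinarith
  have h5 : 0 ≤ Real.sqrt K * e * (t - s) := by
    have : 0 ≤ t - s := by linarith
    positivity
  have h6 : (Real.sqrt K * e * (t - s)) ^ 2 ≤ (5 / 6) ^ 2 := pow_le_pow_left₀ h5 h4 2
  have h7 : (Real.sqrt K * e * (t - s)) ^ 2 = K * Real.exp (-2 * |x|) * (t - s) ^ 2 := by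
    rw [mul_pow, mul_pow, Real.sq_sqrt hK, he, ← Real.exp_nat_mul]
    congr 3
    push_cast
    ring
  rw [h7] at h6
  norm_num at h6 ⊢
  linarith

theorem lb_bound {K T : ℝ} (hT : 0 ≤ T) {s : ℝ} (hs : |s| ≤ T) :
    |lb K s| ≤ 2 * Real.sqrt K + 2 * T := by
  have key : ∀ a b : ℝ, a ≤ b → (∫ t in a..b, Real.exp (-|t|)) ≤ 1 → b - a ≤ T →
      ∫ t in a..b, (2 * Real.sqrt K * Real.exp (-|t|) + 2) ≤ 2 * Real.sqrt K + 2 * T := by
    intro a b hab h1 h2
    rw [intervalIntegral.integral_add (by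
      exact (Continuous.intervalIntegrable (by fun_prop) _ _))
      (continuous_const.intervalIntegrable _ _), intervalIntegral.integral_const_mul,
      intervalIntegral.integral_const, smul_eq_mul]
    have h3 := mul_le_mul_of_nonneg_left h1 (by positivity : 0 ≤ 2 * Real.sqrt K)
    linarith
  have i1 : ∀ b : ℝ, 0 ≤ b → ∫ t in (0 : ℝ)..b, Real.exp (-|t|) ≤ 1 := by
    intro b hb
    have h1 : ∫ t in (0 : ℝ)..b, Real.exp (-|t|) = ∫ t in (0 : ℝ)..b, Real.exp (-t) := by
      refine intervalIntegral.integral_congr fun t ht => ?_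
      rw [uIcc_of_le hb] at ht
      show Real.exp (-|t|) = Real.exp (-t)
      rw [abs_of_nonneg ht.1]
    have h2 : ∫ t in (0 : ℝ)..b, Real.exp (-t) = -Real.exp (-b) - -Real.exp (-0) := by
      refine intervalIntegral.integral_eq_sub_of_hasDerivAt (f := fun t => -Real.exp (-t))
        (fun t _ => ?_) (Continuous.intervalIntegrable (by fun_prop) _ _)
      have := ((hasDerivAt_neg t).exp).neg
      refine this.congr_deriv ?_
      ring
    rw [h1, h2]
    have := Real.exp_pos (-b)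
    simp
    linarith
  rcases le_total 0 s with h | h
  · have h1 : 0 ≤ lb K s := by
      have := lb_mono (K := K) h
      have h0 : lb K 0 = 0 := by unfold lb; simp
      linarith
    rw [abs_of_nonneg h1]
    exact key 0 s h (i1 s h) (by rw [abs_of_nonneg h] at hs; linarith)
  · have h1 : lb K s ≤ 0 := by
      have := lb_mono (K := K) h
      have h0 : lb K 0 = 0 := by unfold lb; simp
      linarith
    rw [abs_of_nonpos h1]
    have h2 : -lb K s = ∫ t in s..0, (2 * Real.sqrt K * Real.exp (-|t|) + 2) := by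
      unfold lb
      rw [intervalIntegral.integral_symm]
      ring
    rw [h2]
    refine key s 0 h ?_ (by rw [abs_of_nonpos h] at hs; linarith)
    have h3 : ∫ t in s..0, Real.exp (-|t|) = ∫ t in (0 : ℝ)..(-s), Real.exp (-|t|) := by
      have h4 := intervalIntegral.integral_comp_neg (a := s) (b := 0)
        (fun t : ℝ => Real.exp (-|t|))
      simp only [abs_neg, neg_zero] at h4
      exact h4
    rw [h3]
    exact i1 (-s) (by linarith)

end Pool.Agent.NH44.SR
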