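import Pool.Agent.NH44.SR.Sturm3

/-!
# The number of zeros on the real line of a sum of bounded solutions
-/

set_option autoImplicit false

open Filter Topology Metric Set MeasureTheory

namespace Pool.Agent.NH44.SR

open Pool.Agent.NH44.LT (FS FS_d FS_d' indep exists_gd good_pos good_neg snd_nonneg)

theorem log_le_sqrt {x : ℝ} (hx : 0 ≤ x) : Real.log (4 * x + 1) ≤ 4 * Real.sqrt x := by
  have h1 : 4 * x + 1 ≤ (1 + 2 * Real.sqrt x) ^ 2 := by
    have h2 := Real.sq_sqrt hx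
    have h3 := Real.sqrt_nonneg x
    nlinarith
  have h3 := Real.sqrt_nonneg x
  calc Real.log (4 * x + 1) ≤ Real.log ((1 + 2 * Real.sqrt x) ^ 2) :=
        Real.log_le_log (by positivity) h1
    _ = 2 * Real.log (1 + 2 * Real.sqrt x) := by
        rw [Real.log_pow]; norm_num
    _ ≤ 2 * (2 * Real.sqrt x) := by
        have := Real.log_le_sub_one_of_pos (show 0 < 1 + 2 * Real.sqrt x by positivity)
        linarith
    _ = 4 * Real.sqrt x := by ring

section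

variable {q : ℝ → ℝ} {v v' : ℝ → ℝ → ℝ} (hqc : Continuous q)
  (hv : ∀ κ x, HasDerivAt (v κ) (v' κ x) x)
  (hv' : ∀ κ x, HasDerivAt (v' κ) ((q x - κ) * v κ x) x)

theorem FS_bd {S : Finset ℝ} (hb : ∀ κ ∈ S, ∃ B : ℝ, ∀ x, |v κ x| ≤ B) (c : ℝ → ℝ) :
    ∃ B : ℝ, ∀ x, |FS S c v x| ≤ B := by
  have h1 : ∀ κ, ∃ B : ℝ, κ ∈ S → ∀ x, |v κ x| ≤ B := by
    intro κ
    by_cases h : κ ∈ S
    · obtain ⟨B, hB⟩ := hb κ h
      exact ⟨B, fun _ => hB⟩
    · exact ⟨0, fun h' => absurd h' h⟩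
  choose B hB using h1
  refine ⟨∑ κ ∈ S, |c κ| * B κ, fun x => ?_⟩
  unfold FS
  refine (Finset.abs_sum_le_sum_abs _ _).trans (Finset.sum_le_sum fun κ hκ => ?_)
  rw [abs_mul]
  exact mul_le_mul_of_nonneg_left (hB κ hκ x) (abs_nonneg _)

include hqc hv hv' in
theorem count_iter {Q : ℝ} (hQ : ∀ x, |q x| ≤ Q) (hq0 : ∀ x, 0 < q x) {S : Finset ℝ}
    (hS : S.Nonempty) (hpos : ∀ κ ∈ S, 0 < κ) (hb : ∀ κ ∈ S, ∃ B : ℝ, ∀ x, |v κ x| ≤ B)
    (hne : ∀ κ ∈ S, ∃ x, v κ x ≠ 0) {n : ℕ}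
    (h0 : ∃ Z : Finset ℝ, Z.card = n ∧ ∀ z ∈ Z, FS S (fun κ => κ ^ 0) v z = 0) (k : ℕ) :
    ∃ Z : Finset ℝ, Z.card = n ∧ ∀ z ∈ Z, FS S (fun κ => κ ^ k) v z = 0 := by
  induction k with
  | zero => exact h0
  | succ k ih =>
    have hvc : ∀ κ, Continuous (v κ) := fun κ =>
      continuous_iff_continuousAt.2 fun t => (hv κ t).continuousAt
    have hFSc : ∀ c : ℝ → ℝ, Continuous (FS S c v) := fun c => by
      unfold FS
      exact continuous_finsetSum _ fun κ _ => continuous_const.mul (hvc κ)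
    obtain ⟨Z, hc, hZ⟩ := ih
    obtain ⟨B, hB⟩ := FS_bd hb (fun κ => κ ^ k)
    obtain ⟨Z', hc', hZ'⟩ := count_step (F := FS S (fun κ => κ ^ k) v)
      (F' := FS S (fun κ => κ ^ k) v')
      (F'' := fun x => q x * FS S (fun κ => κ ^ k) v x - FS S (fun κ => κ ^ k * κ) v x) (q := q)
      (FS_d hv S _) (FS_d' hv' S _) ((hqc.mul (hFSc _)).sub (hFSc _)) hqc hq0 hB
      (indep hv hv' hQ S _ hS (fun κ hκ => pow_ne_zero _ (hpos κ hκ).ne') hne) hc hZ
    refine ⟨Z', hc', fun z hz => ?_⟩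
    have h2 : (fun x => -(q x * FS S (fun κ => κ ^ k) v x - FS S (fun κ => κ ^ k * κ) v x) +
        q x * FS S (fun κ => κ ^ k) v x) = FS S (fun κ => κ ^ (k + 1)) v := by
      funext x
      simp only [pow_succ]
      ring
    rw [← h2]
    exact hZ' z hz

include hqc hv hv' in
/-- The number of zeros on the real line of a sum of bounded solutions. -/
theorem sturm_line {Q : ℝ} (hQ : ∀ x, |q x| ≤ Q) (hq0 : ∀ x, 0 < q x) {K : ℝ} (hK : 0 ≤ K)
    {S : Finset ℝ} (hS : S.Nonempty)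
    (hge : ∀ κ ∈ S, ∀ x, -(K * Real.exp (-2 * |x|)) ≤ q x - κ)
    (hpos : ∀ κ ∈ S, 0 < κ) (hb : ∀ κ ∈ S, ∃ B : ℝ, ∀ x, |v κ x| ≤ B)
    (hne : ∀ κ ∈ S, ∃ x, v κ x ≠ 0) {Z : Finset ℝ}
    (hZ : ∀ z ∈ Z, ∑ κ ∈ S, v κ z = 0) : (Z.card : ℝ) ≤ 12 * Real.sqrt K + 2 := by
  by_contra hcon
  rw [not_le] at hcon
  -- the tails
  set T : ℝ := Real.log (4 * K + 1) / 2 with hT
  have hlog0 : 0 ≤ Real.log (4 * K + 1) := Real.log_nonneg (by linarith)
  have hT0 : 0 ≤ T := by positivity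
  have hT1 : T ≤ 2 * Real.sqrt K := by
    have := log_le_sqrt hK
    linarith
  have hexpT : Real.exp (2 * T) = 4 * K + 1 := by
    have : 2 * T = Real.log (4 * K + 1) := by rw [hT]; ring
    rw [this, Real.exp_log (by positivity)]
  have hQT : ∀ s, T ≤ s → K * Real.exp (-2 * |s|) ≤ 1 / 4 * Real.exp (-2 * (s - T)) := by
    intro s hs
    rw [abs_of_nonneg (hT0.trans hs)]
    have h1 : Real.exp (-2 * (s - T)) = Real.exp (-2 * s) * Real.exp (2 * T) := by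
      rw [← Real.exp_add]
      congr 1
      ring
    rw [h1, hexpT]
    have h2 := Real.exp_pos (-2 * s)
    nlinarith
  have hvc : ∀ κ, Continuous (v κ) := fun κ =>
    continuous_iff_continuousAt.2 fun t => (hv κ t).continuousAt
  have hvc' : ∀ κ, Continuous (v' κ) := fun κ =>
    continuous_iff_continuousAt.2 fun t => (hv' κ t).continuousAt
  -- data of the modes
  have hBd : ∀ κ ∈ S, Bd (fun s => K * Real.exp (-2 * |s|)) (v κ) (v' κ) (fun s => q s - κ) := by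
    intro κ hκ
    refine ⟨hv κ, hv' κ, fun s => hge κ hκ s, ⟨Q + |κ|, fun s => ?_⟩, hb κ hκ, hne κ hκ⟩
    exact (abs_sub _ _).trans (add_le_add (hQ s) le_rfl)
  have hBd' : ∀ κ ∈ S, Bd (fun s => K * Real.exp (-2 * |s|)) (fun s => v κ (-s))
      (fun s => -v' κ (-s)) (fun s => q (-s) - κ) := by
    intro κ hκ
    have := (hBd κ hκ).refl
    simpa only [abs_neg] using this
  -- the top eigenvalue
  set κ0 := S.max' hS with hκ0
  have hκ0S : κ0 ∈ S := S.max'_mem hS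
  have hκ0p := hpos κ0 hκ0S
  have hratio : ∀ κ, ∃ C : ℝ, 0 ≤ C ∧ (κ ∈ S → ∀ s, T ≤ |s| → |v κ s| ≤ C * |v κ0 s|) := by
    intro κ
    by_cases hκ : κ ∈ S
    · have hle : κ ≤ κ0 := S.le_max' κ hκ
      obtain ⟨C1, h1, h2⟩ := (hBd κ0 hκ0S).ratio (hBd κ hκ) hQT (fun s => by linarith)
      obtain ⟨C2, h3, h4⟩ := (hBd' κ0 hκ0S).ratio (hBd' κ hκ) hQT (fun s => by linarith)
      refine ⟨C1 + C2, by positivity, fun _ s hs => ?_⟩
      have ha := abs_nonneg (v κ0 s)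
      rcases le_total 0 s with h | h
      · rw [abs_of_nonneg h] at hs
        have := h2 s hs
        nlinarith
      · rw [abs_of_nonpos h] at hs
        have := h4 (-s) hs
        simp only [neg_neg] at this
        nlinarith
    · exact ⟨0, le_rfl, fun h => absurd h hκ⟩
  choose C hC0 hC using hratio
  have hnz : ∀ s, T ≤ |s| → v κ0 s ≠ 0 := by
    intro s hs
    rcases le_total 0 s with h | h
    · rw [abs_of_nonneg h] at hs
      exact (hBd κ0 hκ0S).tail hQT hs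
    · rw [abs_of_nonpos h] at hs
      have := (hBd' κ0 hκ0S).tail hQT hs
      simpa using this
  -- bounds on the compact part
  have hB : ∀ κ, ∃ B : ℝ, 0 ≤ B ∧ ∀ x ∈ Icc (-T) T, |v κ x| ≤ B ∧ |v' κ x| ≤ B := by
    intro κ
    obtain ⟨B1, h1⟩ := (isCompact_Icc (a := -T) (b := T)).exists_bound_of_continuousOn
      (hvc κ).continuousOn
    obtain ⟨B2, h2⟩ := (isCompact_Icc (a := -T) (b := T)).exists_bound_of_continuousOn
      (hvc' κ).continuousOn
    have h3 : (0 : ℝ) ∈ Icc (-T) T := ⟨by linarith, hT0⟩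
    have h4 := (norm_nonneg _).trans (h1 0 h3)
    have h5 := (norm_nonneg _).trans (h2 0 h3)
    exact ⟨B1 + B2, by positivity, fun x hx => ⟨(h1 x hx).trans (by linarith),
      (h2 x hx).trans (by linarith)⟩⟩
  choose B hB0 hB using hB
  -- positivity on the compact set
  obtain ⟨c, hc, hΦ⟩ : ∃ c : ℝ, 0 < c ∧ ∀ s ∈ Icc (-T) T, ∀ t ∈ Icc (-T) T, s ≤ t →
      lb K t - lb K s ≤ 1 → c ≤ |v κ0 s| + |v' κ0 t| := by
    have hcl1 : IsClosed {p : ℝ × ℝ | p.1 ≤ p.2} := isClosed_le continuous_fst continuous_snd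
    have hcl2 : IsClosed {p : ℝ × ℝ | lb K p.2 - lb K p.1 ≤ 1} :=
      isClosed_le (((lb_cont K).comp continuous_snd).sub ((lb_cont K).comp continuous_fst))
        continuous_const
    have hcomp : IsCompact ((Icc (-T) T ×ˢ Icc (-T) T) ∩ ({p : ℝ × ℝ | p.1 ≤ p.2} ∩
        {p : ℝ × ℝ | lb K p.2 - lb K p.1 ≤ 1})) :=
      (isCompact_Icc.prod isCompact_Icc).inter_right (hcl1.inter hcl2)
    have hcont : Continuous fun p : ℝ × ℝ => |v κ0 p.1| + |v' κ0 p.2| :=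
      ((hvc κ0).comp continuous_fst).abs.add ((hvc' κ0).comp continuous_snd).abs
    obtain ⟨p, hp, hmin⟩ := hcomp.exists_isMinOn
      ⟨(0, 0), ⟨⟨⟨by linarith, hT0⟩, ⟨by linarith, hT0⟩⟩, show (0 : ℝ) ≤ 0 from le_rfl,
      by simp⟩⟩ hcont.continuousOn
    refine ⟨|v κ0 p.1| + |v' κ0 p.2|, ?_, fun s hs t ht hst hl =>
      hmin (show (s, t) ∈ _ from ⟨⟨hs, ht⟩, hst, hl⟩)⟩
    rcases (add_nonneg (abs_nonneg (v κ0 p.1)) (abs_nonneg (v' κ0 p.2))).eq_or_lt with h1 | h1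
    · exfalso
      have h2 := abs_nonneg (v κ0 p.1)
      have h3 := abs_nonneg (v' κ0 p.2)
      have h4 : v κ0 p.1 = 0 := abs_eq_zero.1 (by linarith)
      have h5 : v' κ0 p.2 = 0 := abs_eq_zero.1 (by linarith)
      obtain ⟨x, hx⟩ := hne κ0 hκ0S
      have hrb : ∀ x, |q x - κ0| ≤ Q + |κ0| := fun s =>
        (abs_sub _ _).trans (add_le_add (hQ s) le_rfl)
      obtain ⟨-, hle, hlb⟩ := hp
      have hle' : p.1 ≤ p.2 := hle
      have hlb' : lb K p.2 - lb K p.1 ≤ 1 := hlb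
      rcases hle'.eq_or_lt with he | hlt
      · rw [← he] at h5
        exact hx (LT.ode_zero (hv κ0) (hv' κ0) hrb h4 h5 x)
      · have hd : 0 < (p.2 - p.1) ^ 2 := by
          have : 0 < p.2 - p.1 := by linarith
          positivity
        refine hx (no_close2 (Λ := 7 / 10 / (p.2 - p.1) ^ 2) (hv κ0) (hv' κ0) hrb (by positivity)
          (fun y hy => ?_) hle' ?_ h4 h5 x)
        · have k1 := lb_short hK hle' hlb' hy
          have k2 : K * Real.exp (-2 * |y|) ≤ 7 / 10 / (p.2 - p.1) ^ 2 := by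
            rw [le_div_iff₀ hd]
            exact k1
          have k3 := hge κ0 hκ0S y
          linarith
        · rw [div_mul_cancel₀ _ hd.ne']
          norm_num
    · exact h1
  -- the errors
  have hlim : ∀ A : ℝ → ℝ, Tendsto (fun k : ℕ => ∑ κ ∈ S.erase κ0, (κ / κ0) ^ k * A κ)
      atTop (𝓝 0) := by
    intro A
    have h1 : Tendsto (fun k : ℕ => ∑ κ ∈ S.erase κ0, (κ / κ0) ^ k * A κ) atTop
        (𝓝 (∑ κ ∈ S.erase κ0, 0 * A κ)) := by
      refine tendsto_finsetSum _ fun κ hκ => Tendsto.mul_const _ ?_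
      have h2 := Finset.mem_of_mem_erase hκ
      have h3 : κ < κ0 := lt_of_le_of_ne (S.le_max' κ h2) (Finset.ne_of_mem_erase hκ)
      exact tendsto_pow_atTop_nhds_zero_of_lt_one (div_nonneg (hpos κ h2).le hκ0p.le)
        ((div_lt_one hκ0p).2 h3)
    simpa using h1
  obtain ⟨k, hk1, hk2⟩ := (((hlim B).eventually_lt_const (show (0 : ℝ) < c / 2 by
    positivity)).and ((hlim C).eventually_lt_const one_pos)).exists
  have herr : ∀ u : ℝ → ℝ → ℝ, ∀ x, FS S (fun κ => κ ^ k) u x = 0 →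
      |u κ0 x| ≤ ∑ κ ∈ S.erase κ0, (κ / κ0) ^ k * |u κ x| := by
    intro u x hx
    unfold FS at hx
    rw [← Finset.add_sum_erase S _ hκ0S] at hx
    have h1 : u κ0 x = -∑ κ ∈ S.erase κ0, (κ / κ0) ^ k * u κ x := by
      have h2 : ∑ κ ∈ S.erase κ0, (κ / κ0) ^ k * u κ x =
          (∑ κ ∈ S.erase κ0, κ ^ k * u κ x) / κ0 ^ k := by
        rw [Finset.sum_div]
        refine Finset.sum_congr rfl fun κ _ => ?_
        rw [div_pow]
        ring
      rw [h2, eq_neg_iff_add_eq_zero]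
      have h3 : κ0 ^ k ≠ 0 := pow_ne_zero _ hκ0p.ne'
      field_simp
      linarith
    rw [h1, abs_neg]
    refine (Finset.abs_sum_le_sum_abs _ _).trans ?_
    refine Finset.sum_le_sum fun κ hκ => ?_
    have h2 := Finset.mem_of_mem_erase hκ
    rw [abs_mul, abs_of_nonneg (pow_nonneg (div_nonneg (hpos κ h2).le hκ0p.le) k)]
  have herr1 : ∀ u : ℝ → ℝ → ℝ, ∀ x, (∀ κ, |u κ x| ≤ B κ) → FS S (fun κ => κ ^ k) u x = 0 →
      |u κ0 x| < c / 2 := by
    intro u x hu hx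
    refine lt_of_le_of_lt (herr u x hx) (lt_of_le_of_lt ?_ hk1)
    refine Finset.sum_le_sum fun κ hκ => ?_
    have h2 := Finset.mem_of_mem_erase hκ
    exact mul_le_mul_of_nonneg_left (hu κ) (pow_nonneg (div_nonneg (hpos κ h2).le hκ0p.le) k)
  have htail : ∀ x, FS S (fun κ => κ ^ k) v x = 0 → |x| < T := by
    intro x hx
    by_contra h1
    rw [not_lt] at h1
    have h2 := herr v x hx
    have h3 : 0 < |v κ0 x| := abs_pos.2 (hnz x h1)
    have h4 : ∑ κ ∈ S.erase κ0, (κ / κ0) ^ k * |v κ x| ≤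
        ∑ κ ∈ S.erase κ0, (κ / κ0) ^ k * C κ * |v κ0 x| := by
      refine Finset.sum_le_sum fun κ hκ => ?_
      have h5 := Finset.mem_of_mem_erase hκ
      rw [mul_assoc]
      exact mul_le_mul_of_nonneg_left (hC κ h5 x h1)
        (pow_nonneg (div_nonneg (hpos κ h5).le hκ0p.le) k)
    rw [← Finset.sum_mul] at h4
    nlinarith
  -- the zeros of the iterated function
  obtain ⟨Z', hcard, hZ'⟩ := count_iter hqc hv hv' hQ hq0 hS hpos hb hne (n := Z.card)
    ⟨Z, rfl, fun z hz => by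
      unfold FS
      simpa using hZ z hz⟩ k
  -- pigeonhole
  set L : ℝ := 2 * Real.sqrt K + 2 * T with hL
  have hL0 : 0 ≤ L := by positivity
  have hmaps : ∀ z ∈ Z', ⌊lb K z⌋ ∈ Finset.Icc ⌊-L⌋ ⌊L⌋ := by
    intro z hz
    have h1 := lb_bound (K := K) hT0 (htail z (hZ' z hz)).le
    rw [abs_le] at h1
    rw [Finset.mem_Icc]
    exact ⟨Int.floor_le_floor h1.1, Int.floor_le_floor h1.2⟩
  have hcardI : ((Finset.Icc ⌊-L⌋ ⌊L⌋).card : ℝ) ≤ 2 * L + 2 := by
    rw [Int.card_Icc]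
    have h1 := Int.floor_le L
    have h2 := Int.lt_floor_add_one (-L)
    have h3 : (0 : ℤ) ≤ ⌊L⌋ + 1 - ⌊-L⌋ := by
      have : ⌊-L⌋ ≤ ⌊L⌋ := Int.floor_le_floor (by linarith)
      omega
    have h4 : (((⌊L⌋ + 1 - ⌊-L⌋).toNat : ℕ) : ℝ) = ((⌊L⌋ + 1 - ⌊-L⌋ : ℤ) : ℝ) := by
      rw [← Int.cast_natCast, Int.toNat_of_nonneg h3]
    rw [h4]
    push_cast
    linarith
  have hlt : (Finset.Icc ⌊-L⌋ ⌊L⌋).card < Z'.card := by
    have h1 : ((Finset.Icc ⌊-L⌋ ⌊L⌋).card : ℝ) < Z'.card := by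
      rw [hcard]
      have h2 : 2 * L + 2 ≤ 12 * Real.sqrt K + 2 := by
        rw [hL]
        linarith
      linarith
    exact_mod_cast h1
  obtain ⟨z1, hz1, z2, hz2, hne12, heq⟩ := Finset.exists_ne_map_eq_of_card_lt_of_maps_to hlt hmaps
  have main : ∀ s t, s ∈ Z' → t ∈ Z' → s < t → ⌊lb K s⌋ = ⌊lb K t⌋ → False := by
    intro s t hs ht hst he
    have hs0 := hZ' s hs
    have ht0 := hZ' t ht
    have h1 := abs_lt.1 (htail s hs0)
    have h2 := abs_lt.1 (htail t ht0)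
    obtain ⟨r, hr, hr0⟩ := exists_hasDerivAt_eq_zero hst
      (continuous_iff_continuousAt.2 fun t => (FS_d hv S (fun κ => κ ^ k) t).continuousAt).continuousOn
      (hs0.trans ht0.symm) (fun x _ => FS_d hv S (fun κ => κ ^ k) x)
    have hsI : s ∈ Icc (-T) T := ⟨h1.1.le, h1.2.le⟩
    have hrI : r ∈ Icc (-T) T := ⟨by linarith [hr.1], by linarith [hr.2]⟩
    have e1 := herr1 v s (fun κ => (hB κ s hsI).1) hs0
    have e2 := herr1 v' r (fun κ => (hB κ r hrI).2) hr0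
    have h3 : lb K r - lb K s ≤ 1 := by
      have k1 := lb_mono (K := K) hr.2.le
      have k2 := Int.floor_le (lb K s)
      have k3 := Int.lt_floor_add_one (lb K t)
      rw [← he] at k3
      linarith
    have e3 := hΦ s hsI r hrI hr.1.le h3
    linarith
  rcases lt_or_gt_of_ne hne12 with h | h
  · exact main z1 z2 hz1 hz2 h heq
  · exact main z2 z1 hz2 hz1 h heq.symm

end

end Pool.Agent.NH44.SR
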