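import Pool.Agent.NH44.LT.Sturm

/-!
# Bounded solutions on half lines
-/

set_option autoImplicit false

open Filter Topology Metric Set

namespace Pool.Agent.NH44.SR

/-- A bounded subsolution which is not positive at `s0` is not positive after `s0`. -/
theorem bs {y y' y'' Q : ℝ → ℝ} {T s0 M : ℝ} (hy : ∀ s, HasDerivAt y (y' s) s)
    (hy' : ∀ s, HasDerivAt y' (y'' s) s) (hQ : ∀ s, T ≤ s → Q s ≤ 1 / 4 * Real.exp (-2 * (s - T)))
    (hs0 : T ≤ s0) (h0 : y s0 ≤ 0) (hb : ∀ s, s0 ≤ s → y s ≤ M)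
    (hsub : ∀ s, s0 ≤ s → 0 < y s → 0 ≤ y'' s + Q s * y s) (s : ℝ) (hs : s0 ≤ s) : y s ≤ 0 := by
  by_contra hcon
  rw [not_le] at hcon
  have hyc : Continuous y := continuous_iff_continuousAt.2 fun t => (hy t).continuousAt
  have hyc' : Continuous y' := continuous_iff_continuousAt.2 fun t => (hy' t).continuousAt
  set H : ℝ → ℝ := fun s => 2 - Real.exp (-2 * (s - T)) with hH
  set H' : ℝ → ℝ := fun s => 2 * Real.exp (-2 * (s - T)) with hH'
  have dH : ∀ s, HasDerivAt H (H' s) s := by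
    intro s
    have h1 : HasDerivAt (fun s : ℝ => -2 * (s - T)) (-2) s := by
      simpa using ((hasDerivAt_id s).sub_const T).const_mul (-2 : ℝ)
    have h2 := h1.exp.const_sub 2
    refine h2.congr_deriv ?_
    rw [hH']
    ring
  have dH' : ∀ s, HasDerivAt H' (-4 * Real.exp (-2 * (s - T))) s := by
    intro s
    have h1 : HasDerivAt (fun s : ℝ => -2 * (s - T)) (-2) s := by
      simpa using ((hasDerivAt_id s).sub_const T).const_mul (-2 : ℝ)
    have h2 := h1.exp.const_mul 2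
    refine h2.congr_deriv ?_
    ring
  have hHc : Continuous H := continuous_iff_continuousAt.2 fun t => (dH t).continuousAt
  have hHc' : Continuous H' := continuous_iff_continuousAt.2 fun t => (dH' t).continuousAt
  have H1 : ∀ s, T ≤ s → 1 ≤ H s := by
    intro s hs
    have : Real.exp (-2 * (s - T)) ≤ 1 := Real.exp_le_one_iff.2 (by linarith)
    rw [hH]
    simp only
    linarith
  have H2 : ∀ s, H s ≤ 2 := by
    intro s
    have := Real.exp_pos (-2 * (s - T))
    rw [hH]
    simp only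
    linarith
  set v : ℝ → ℝ := fun s => y s / H s with hv
  set D : ℝ → ℝ := fun s => y' s * H s - y s * H' s with hD
  have dv : ∀ s, T ≤ s → HasDerivAt v (D s / H s ^ 2) s := fun s hs =>
    (hy s).div (dH s) (by have := H1 s hs; positivity)
  have dD : ∀ s, HasDerivAt D (y'' s * H s + y s * (4 * Real.exp (-2 * (s - T)))) s := by
    intro s
    have h1 := ((hy' s).mul (dH s)).sub ((hy s).mul (dH' s))
    refine h1.congr_deriv ?_
    ring
  have hDc : Continuous D := (hyc'.mul hHc).sub (hyc.mul hHc')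
  have dD0 : ∀ s, s0 ≤ s → 0 < y s → 0 ≤ y'' s * H s + y s * (4 * Real.exp (-2 * (s - T))) := by
    intro s hs hp
    have h1 := hsub s hs hp
    have h2 := hQ s (hs0.trans hs)
    have h3 := H1 s (hs0.trans hs)
    have h4 := H2 s
    have h5 := Real.exp_pos (-2 * (s - T))
    set e := Real.exp (-2 * (s - T))
    have h6 : -(Q s * y s) * H s ≤ y'' s * H s :=
      mul_le_mul_of_nonneg_right (by linarith) (by linarith)
    have h7 : Q s * y s ≤ 1 / 4 * e * y s := mul_le_mul_of_nonneg_right h2 hp.le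
    have h8 : Q s * y s * H s ≤ 1 / 4 * e * y s * H s :=
      mul_le_mul_of_nonneg_right h7 (by linarith)
    have h9 : 1 / 4 * e * y s * H s ≤ 1 / 4 * e * y s * 2 :=
      mul_le_mul_of_nonneg_left h4 (by positivity)
    have h10 : 0 ≤ y s * e := by positivity
    nlinarith
  have hvc : ContinuousOn v (Ici T) := fun s hs => (dv s hs).continuousAt.continuousWithinAt
  -- the last point where `y ≤ 0`
  obtain ⟨c0, hc0, hmax⟩ := ((isCompact_Icc (a := s0) (b := s)).inter_right
    (isClosed_le hyc (continuous_const (y := (0 : ℝ))))).exists_isMaxOn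
    ⟨s0, ⟨le_rfl, hs⟩, h0⟩ continuousOn_id
  obtain ⟨⟨hc01, hc02⟩, hc03⟩ := hc0
  have hc03' : y c0 ≤ 0 := hc03
  have hlt : c0 < s := lt_of_le_of_ne hc02 (fun h => by rw [h] at hc03'; linarith)
  have hpos : ∀ x, c0 < x → x ≤ s → 0 < y x := by
    intro x h1 h2
    by_contra h3
    rw [not_lt] at h3
    have : x ≤ c0 := hmax (show x ∈ Icc s0 s ∩ {x | y x ≤ 0} from ⟨⟨by linarith, h2⟩, h3⟩)
    linarith
  have hTc : T ≤ c0 := hs0.trans hc01
  obtain ⟨c, hc, hslope⟩ := exists_hasDerivAt_eq_slope v (fun s => D s / H s ^ 2) hlt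
    (hvc.mono fun x hx => hTc.trans hx.1) (fun x hx => dv x (hTc.trans hx.1.le))
  have hv0 : v c0 ≤ 0 := div_nonpos_of_nonpos_of_nonneg hc03' (by have := H1 c0 hTc; linarith)
  have hv1 : 0 < v s := div_pos hcon (by have := H1 s (hTc.trans hc02); linarith)
  have hcT : T ≤ c := hTc.trans hc.1.le
  have hDc0 : 0 < D c := by
    have h1 : 0 < (v s - v c0) / (s - c0) := div_pos (by linarith) (by linarith)
    rw [← hslope] at h1
    have h2 : 0 < H c ^ 2 := by have := H1 c hcT; positivity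
    have h3 := mul_pos h1 h2
    rwa [div_mul_cancel₀ _ h2.ne'] at h3
  have hyc0 : 0 < y c := hpos c hc.1 hc.2.le
  have hs0c : s0 ≤ c := hc01.trans hc.1.le
  -- `D` is increasing as long as `y` is positive
  have mono : ∀ e, c ≤ e → (∀ x, c ≤ x → x < e → 0 < y x) → ∀ x, c ≤ x → x ≤ e → D c ≤ D x := by
    intro e hce hp x hcx hxe
    have h1 : MonotoneOn D (Icc c e) := by
      refine monotoneOn_of_deriv_nonneg (convex_Icc c e) hDc.continuousOn
        (fun x _ => (dD x).differentiableAt.differentiableWithinAt) fun x hx => ?_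
      rw [interior_Icc] at hx
      rw [(dD x).deriv]
      exact dD0 x (hs0c.trans hx.1.le) (hp x hx.1.le hx.2)
    exact h1 ⟨le_rfl, hce⟩ ⟨hcx, hxe⟩ hcx
  have vgrow : ∀ e, c ≤ e → (∀ x, c ≤ x → x < e → 0 < y x) →
      v c + D c / 4 * (e - c) ≤ v e := by
    intro e hce hp
    have h1 : MonotoneOn (fun x => v x - D c / 4 * x) (Icc c e) := by
      refine monotoneOn_of_deriv_nonneg (convex_Icc c e)
        ((hvc.mono fun x hx => hcT.trans hx.1).sub (by fun_prop)) (fun x hx => ?_) fun x hx => ?_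
      · rw [interior_Icc] at hx
        exact ((dv x (hcT.trans hx.1.le)).sub ((hasDerivAt_id x).const_mul
          (D c / 4))).differentiableAt.differentiableWithinAt
      · rw [interior_Icc] at hx
        have h2 : HasDerivAt (fun x => v x - D c / 4 * x) (D x / H x ^ 2 - D c / 4) x := by
          simpa using (dv x (hcT.trans hx.1.le)).fun_sub ((hasDerivAt_id x).const_mul (D c / 4))
        rw [h2.deriv]
        have h3 := mono e hce hp x hx.1.le hx.2.le
        have h4 := H1 x (hcT.trans hx.1.le)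
        have h5 := H2 x
        have h6 : H x ^ 2 ≤ 4 := by nlinarith
        have h7 : D c / 4 ≤ D x / H x ^ 2 := by
          rw [div_le_div_iff₀ (by norm_num) (by positivity)]
          nlinarith
        linarith
    have h2 := h1 ⟨le_rfl, hce⟩ ⟨hce, le_rfl⟩ hce
    simp only at h2
    linarith
  have hvc1 : 0 < v c := div_pos hyc0 (by have := H1 c hcT; linarith)
  have hall : ∀ x, c ≤ x → 0 < y x := by
    by_contra hc2
    push Not at hc2
    obtain ⟨x1, hx1, hx2⟩ := hc2
    obtain ⟨e, he, hmin⟩ := ((isCompact_Icc (a := c) (b := x1)).inter_right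
      (isClosed_le hyc (continuous_const (y := (0 : ℝ))))).exists_isMinOn
      ⟨x1, ⟨hx1, le_rfl⟩, hx2⟩ continuousOn_id
    obtain ⟨⟨he1, he2⟩, he3⟩ := he
    have he3' : y e ≤ 0 := he3
    have hp : ∀ x, c ≤ x → x < e → 0 < y x := by
      intro x h1 h2
      by_contra h3
      rw [not_lt] at h3
      have : e ≤ x := hmin (show x ∈ Icc c x1 ∩ {x | y x ≤ 0} from ⟨⟨h1, by linarith⟩, h3⟩)
      linarith
    have h1 := vgrow e he1 hp
    have h2 : v e ≤ 0 := div_nonpos_of_nonpos_of_nonneg he3'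
      (by have := H1 e (hcT.trans he1); linarith)
    have h3 : 0 ≤ D c / 4 * (e - c) := mul_nonneg (by linarith) (by linarith)
    linarith
  -- unbounded
  set e := c + 4 * (|M| + 1) / D c with he
  have hce : c ≤ e := by
    have : 0 ≤ 4 * (|M| + 1) / D c := by positivity
    linarith
  have h1 := vgrow e hce fun x hx _ => hall x hx
  have h2 : D c / 4 * (e - c) = |M| + 1 := by
    rw [he]
    field_simp
    ring
  have h3 : v e ≤ |M| := by
    have h4 := hb e (hs0c.trans hce)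
    have h5 := H1 e (hcT.trans hce)
    have h6 := hall e hce
    rw [hv]
    simp only
    rw [div_le_iff₀ (by linarith)]
    have h7 := le_abs_self M
    nlinarith [abs_nonneg M]
  linarith

/-- data of a bounded solution of `v'' = r v` with `r ≥ -Q` -/
structure Bd (Q : ℝ → ℝ) (v v' r : ℝ → ℝ) : Prop where
  d : ∀ s, HasDerivAt v (v' s) s
  d' : ∀ s, HasDerivAt v' (r s * v s) s
  ge : ∀ s, -Q s ≤ r s
  rb : ∃ Λ, ∀ s, |r s| ≤ Λ
  b : ∃ B, ∀ s, |v s| ≤ B
  ne : ∃ s, v s ≠ 0

theorem Bd.neg {Q v v' r : ℝ → ℝ} (h : Bd Q v v' r) : Bd Q (fun s => -v s) (fun s => -v' s) r := by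
  obtain ⟨B, hB⟩ := h.b
  obtain ⟨s, hs⟩ := h.ne
  refine ⟨fun s => (h.d s).neg, fun s => ?_, h.ge, h.rb, ⟨B, fun s => by rw [abs_neg]; exact hB s⟩,
    ⟨s, neg_ne_zero.2 hs⟩⟩
  refine (h.d' s).neg.congr_deriv ?_
  ring

theorem Bd.refl {Q v v' r : ℝ → ℝ} (h : Bd Q v v' r) :
    Bd (fun s => Q (-s)) (fun s => v (-s)) (fun s => -v' (-s)) (fun s => r (-s)) := by
  obtain ⟨B, hB⟩ := h.b
  obtain ⟨Λ, hΛ⟩ := h.rb
  obtain ⟨s, hs⟩ := h.ne
  refine ⟨fun s => ?_, fun s => ?_, fun s => h.ge _, ⟨Λ, fun s => hΛ _⟩, ⟨B, fun s => hB _⟩,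
    ⟨-s, by rwa [neg_neg]⟩⟩
  · have := (h.d (-s)).scomp s (hasDerivAt_neg s)
    simpa [Function.comp_def] using this
  · have := ((h.d' (-s)).scomp s (hasDerivAt_neg s)).fun_neg
    simpa [Function.comp_def] using this

/-- no zeros on the tail -/
theorem Bd.tail {Q v v' r : ℝ → ℝ} (h : Bd Q v v' r) {T : ℝ}
    (hQ : ∀ s, T ≤ s → Q s ≤ 1 / 4 * Real.exp (-2 * (s - T))) {s : ℝ} (hs : T ≤ s) : v s ≠ 0 := by
  intro h0
  have key : ∀ {v v' : ℝ → ℝ}, Bd Q v v' r → v s = 0 → ∀ x, s ≤ x → v x ≤ 0 := by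
    intro v v' h h0 x hx
    obtain ⟨B, hB⟩ := h.b
    refine bs h.d h.d' hQ hs h0.le (M := B) (fun t _ => (le_abs_self _).trans (hB t))
      (fun t ht hp => ?_) x hx
    have := mul_le_mul_of_nonneg_right (h.ge t) hp.le
    linarith
  have h1 : ∀ x, s ≤ x → v x = 0 := by
    intro x hx
    have k1 := key h h0 x hx
    have k2 := key h.neg (by simp [h0]) x hx
    linarith
  obtain ⟨Λ, hΛ⟩ := h.rb
  obtain ⟨x, hx⟩ := h.ne
  have h2 : v' (s + 1) = 0 := by
    have h3 : v =ᶠ[𝓝 (s + 1)] fun _ => (0 : ℝ) := by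
      filter_upwards [Ioi_mem_nhds (show s < s + 1 by linarith)] with t ht
      exact h1 t (le_of_lt ht)
    exact (h.d (s + 1)).unique ((hasDerivAt_const _ _).congr_of_eventuallyEq h3)
  exact hx (LT.ode_zero h.d h.d' hΛ (h1 (s + 1) (by linarith)) h2 x)

/-- the ratio on the tail -/
theorem Bd.ratio {Q a a' ra b b' rb : ℝ → ℝ} (ha : Bd Q a a' ra) (hb : Bd Q b b' rb) {T : ℝ}
    (hQ : ∀ s, T ≤ s → Q s ≤ 1 / 4 * Real.exp (-2 * (s - T)))
    (hr : ∀ s, ra s ≤ rb s) : ∃ C : ℝ, 0 ≤ C ∧ ∀ s, T ≤ s → |b s| ≤ C * |a s| := by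
  -- the sign of `a`
  wlog hpos : 0 < a T generalizing a a'
  · have h1 := ha.tail hQ (le_refl T)
    have h2 : 0 < -a T := by
      rcases lt_or_gt_of_ne h1 with h3 | h3
      · linarith
      · exact absurd h3 hpos
    obtain ⟨C, hC, h3⟩ := this ha.neg h2
    exact ⟨C, hC, fun s hs => by simpa [abs_neg] using h3 s hs⟩
  have hac : Continuous a := continuous_iff_continuousAt.2 fun t => (ha.d t).continuousAt
  have hapos : ∀ s, T ≤ s → 0 < a s := by
    intro s hs
    by_contra h1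
    rw [not_lt] at h1
    have h2 : (0 : ℝ) ∈ a '' Icc T s :=
      intermediate_value_Icc' hs hac.continuousOn ⟨h1, hpos.le⟩
    obtain ⟨x, hx, h3⟩ := h2
    exact ha.tail hQ hx.1 h3
  refine ⟨|b T| / a T, by positivity, fun s hs => ?_⟩
  set C := |b T| / a T with hC
  have hC0 : 0 ≤ C := by positivity
  have hCT : C * a T = |b T| := by
    rw [hC, div_mul_cancel₀ _ hpos.ne']
  have key : ∀ {b b' : ℝ → ℝ}, Bd Q b b' rb → b T ≤ C * a T → b s ≤ C * a s := by
    intro b b' hb h0
    obtain ⟨B, hB⟩ := hb.b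
    have h1 := bs (y := fun s => b s - C * a s) (y' := fun s => b' s - C * a' s)
      (y'' := fun s => rb s * b s - C * (ra s * a s)) (Q := Q) (T := T) (s0 := T) (M := B)
      (fun t => (hb.d t).sub ((ha.d t).const_mul C))
      (fun t => (hb.d' t).sub ((ha.d' t).const_mul C)) hQ le_rfl (by linarith)
      (fun t ht => by
        have h2 := mul_nonneg hC0 (hapos t ht).le
        have h3 := (le_abs_self _).trans (hB t)
        linarith)
      (fun t ht hp => by
        have h2 := mul_nonneg (sub_nonneg.2 (hr t)) (mul_nonneg hC0 (hapos t ht).le)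
        have h3 := mul_le_mul_of_nonneg_right (hb.ge t) hp.le
        nlinarith) s hs
    linarith
  have k1 := key hb (by rw [hCT]; exact le_abs_self _)
  have k2 := key hb.neg (by rw [hCT]; exact neg_le_abs _)
  rw [abs_of_pos (hapos s hs), abs_le]
  constructor <;> linarith

/-- a zero of `v` and a zero of `v'` which are close -/
theorem no_close2 {v v' r : ℝ → ℝ} {Λ Λ' s t : ℝ} (hv : ∀ x, HasDerivAt v (v' x) x)
    (hv' : ∀ x, HasDerivAt v' (r x * v x) x) (hr : ∀ x, |r x| ≤ Λ') (hΛ : 0 ≤ Λ)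
    (hrl : ∀ x ∈ Icc s t, -Λ ≤ r x) (hst : s ≤ t) (hl : Λ * (t - s) ^ 2 < 1) (h0 : v s = 0)
    (h1 : v' t = 0) (x : ℝ) : v x = 0 := by
  by_contra hx
  have hs' : v' s ≠ 0 := fun h => hx (LT.ode_zero hv hv' hr h0 h x)
  wlog hpos : 0 < v' s generalizing v v'
  · refine this (v := fun x => -v x) (v' := fun x => -v' x) (fun x => (hv x).neg)
      (fun x => ((hv' x).neg).congr_deriv (by ring)) (by simp [h0]) (by simp [h1])
      (by simpa using hx) (by simpa using hs') ?_
    rcases lt_or_gt_of_ne hs' with h3 | h3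
    · simpa using h3
    · exact absurd h3 hpos
  have hvc : Continuous v := continuous_iff_continuousAt.2 fun t => (hv t).continuousAt
  have hvc' : Continuous v' := continuous_iff_continuousAt.2 fun t => (hv' t).continuousAt
  -- the first zero of `v'`
  obtain ⟨e, he, hmin⟩ := ((isCompact_Icc (a := s) (b := t)).inter_right
    (isClosed_le hvc' (continuous_const (y := (0 : ℝ))))).exists_isMinOn
    ⟨t, ⟨hst, le_rfl⟩, h1.le⟩ continuousOn_id
  obtain ⟨⟨he1, he2⟩, he3⟩ := he
  have he3' : v' e ≤ 0 := he3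
  have hse : s < e := lt_of_le_of_ne he1 (fun h => by rw [← h] at he3'; linarith)
  have hp : ∀ x, s ≤ x → x < e → 0 < v' x := by
    intro x h1 h2
    by_contra h3
    rw [not_lt] at h3
    have : e ≤ x := hmin (show x ∈ Icc s t ∩ {x | v' x ≤ 0} from ⟨⟨h1, by linarith⟩, h3⟩)
    linarith
  obtain ⟨m, hm, hmax⟩ := (isCompact_Icc (a := s) (b := e)).exists_isMaxOn ⟨s, le_rfl, he1⟩
    hvc'.continuousOn
  set M := v' m with hM
  have hM0 : 0 < M := hpos.trans_le (hmax ⟨le_rfl, he1⟩)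
  have hme : m < e := lt_of_le_of_ne hm.2 (fun h => by rw [hM, h] at hM0; linarith)
  have hvm : MonotoneOn v (Icc s e) := by
    refine monotoneOn_of_deriv_nonneg (convex_Icc s e) hvc.continuousOn
      (fun x _ => (hv x).differentiableAt.differentiableWithinAt) fun x hx => ?_
    rw [interior_Icc] at hx
    rw [(hv x).deriv]
    exact (hp x hx.1.le hx.2).le
  have hvub : ∀ x ∈ Icc s e, v x ≤ M * (t - s) := by
    intro x hx
    rcases hx.1.eq_or_lt with h2 | h2
    · rw [← h2, h0]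
      have : 0 ≤ t - s := by linarith
      positivity
    · obtain ⟨c, hc, hc'⟩ := exists_hasDerivAt_eq_slope v v' h2 hvc.continuousOn
        fun x _ => hv x
      have h3 : v' c ≤ M := hmax ⟨hc.1.le, hc.2.le.trans hx.2⟩
      rw [hc', h0, sub_zero, div_le_iff₀ (by linarith)] at h3
      have h4 : M * (x - s) ≤ M * (t - s) :=
        mul_le_mul_of_nonneg_left (by linarith [hx.2]) hM0.le
      linarith
  obtain ⟨c, hc, hc'⟩ := exists_hasDerivAt_eq_slope v' (fun x => r x * v x) hme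
    hvc'.continuousOn fun x _ => hv' x
  have hcI : c ∈ Icc s e := ⟨hm.1.trans hc.1.le, hc.2.le⟩
  have h2 : 0 ≤ v c := by
    have := hvm ⟨le_rfl, he1⟩ hcI hcI.1
    rwa [h0] at this
  have h3 := hvub c hcI
  have h4 := hrl c ⟨hcI.1, hcI.2.trans he2⟩
  have h5 : v' e - M = r c * v c * (e - m) := by
    rw [hc', div_mul_cancel₀ _ (by linarith)]
  have h6 : -Λ * v c ≤ r c * v c := mul_le_mul_of_nonneg_right h4 h2
  have h7 : Λ * v c ≤ Λ * (M * (t - s)) := mul_le_mul_of_nonneg_left h3 hΛ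
  have h8 : 0 ≤ e - m := by linarith
  have h9 : e - m ≤ t - s := by linarith [hm.1]
  have h10 : -(Λ * (M * (t - s))) * (e - m) ≤ r c * v c * (e - m) :=
    mul_le_mul_of_nonneg_right (by linarith) h8
  have h11 : 0 ≤ Λ * (M * (t - s)) := by
    have : 0 ≤ t - s := by linarith
    positivity
  have h12 : Λ * (M * (t - s)) * (e - m) ≤ Λ * (M * (t - s)) * (t - s) :=
    mul_le_mul_of_nonneg_left h9 h11
  have h13 : Λ * (M * (t - s)) * (t - s) = M * (Λ * (t - s) ^ 2) := by ring
  have h14 : M * (Λ * (t - s) ^ 2) < M * 1 := mul_lt_mul_of_pos_left hl hM0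
  linarith

end Pool.Agent.NH44.SR
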